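import Pool.Agent.T2h12.TN.E

/-!
Tensor differentials and self-maps: the system, and Bogomolov sheaves as sheaves of tensor
differentials.
-/

set_option autoImplicit false
set_option linter.overlappingInstances false
set_option linter.unusedSectionVars false

open FF Pool.Agent.W602.GT Pool.Agent.W603.LV Pool.Agent.Y172 Pool.Agent.R887 Pool.Agent.N110

namespace Pool.Agent.T2h12.TN

section

variable {k K : Type} [Field k] [Field K] [Algebra k K]

theorem TensorSheaf.mono {n j j' : ℕ} (h : TensorSheaf k K n j') (hj : j ≤ j') :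
    TensorSheaf k K n j := by
  obtain ⟨m, T, f, hT, hf0, hind, hreg⟩ := h
  refine ⟨m, T, fun l => f (Fin.castLE (by omega) l), hT, hf0, ?_, fun P hP D hD l =>
    hreg P hP D hD _⟩
  exact hind.comp (Fin.castLE hj) (Fin.castLE_injective hj)

/-- the `N`-th power of a form as a tensor -/
def tpow {p : ℕ} (θ : AlternatingMap K (Derivation k K K) K (Fin p)) (N : ℕ) :
    MultilinearMap K (fun _ : Fin N × Fin p => Derivation k K K) K where
  toFun D := ∏ a, θ fun b => D (a, b)
  map_update_add' := by
    intro hdec D c v v'
    have h1 : ∀ w, (∏ a, θ fun b => Function.update D c w (a, b)) =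
        θ (Function.update (fun b => D (c.1, b)) c.2 w) *
          ∏ a ∈ Finset.univ.erase c.1, θ fun b => D (a, b) := by
      intro w
      rw [← Finset.mul_prod_erase Finset.univ _ (Finset.mem_univ c.1)]
      congr 1
      · congr 1
        funext b
        by_cases hb : b = c.2
        · subst hb
          rw [Function.update_self, Function.update_self]
        · rw [Function.update_of_ne hb, Function.update_of_ne]
          intro h
          exact hb (congrArg Prod.snd h)
      · refine Finset.prod_congr rfl fun a ha => ?_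
        congr 1
        funext b
        rw [Function.update_of_ne]
        intro h
        exact Finset.ne_of_mem_erase ha (congrArg Prod.fst h)
    rw [h1, h1, h1, AlternatingMap.map_update_add, add_mul]
  map_update_smul' := by
    intro hdec D c t v
    have h1 : ∀ w, (∏ a, θ fun b => Function.update D c w (a, b)) =
        θ (Function.update (fun b => D (c.1, b)) c.2 w) *
          ∏ a ∈ Finset.univ.erase c.1, θ fun b => D (a, b) := by
      intro w
      rw [← Finset.mul_prod_erase Finset.univ _ (Finset.mem_univ c.1)]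
      congr 1
      · congr 1
        funext b
        by_cases hb : b = c.2
        · subst hb
          rw [Function.update_self, Function.update_self]
        · rw [Function.update_of_ne hb, Function.update_of_ne]
          intro h
          exact hb (congrArg Prod.snd h)
      · refine Finset.prod_congr rfl fun a ha => ?_
        congr 1
        funext b
        rw [Function.update_of_ne]
        intro h
        exact Finset.ne_of_mem_erase ha (congrArg Prod.fst h)
    rw [h1, h1, AlternatingMap.map_update_smul, smul_mul_assoc]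

/-- **A Bogomolov sheaf is a rank one sheaf of tensor differentials.** -/
theorem BogSheaf.tensor {n p : ℕ} (h : BogSheaf k K n (fun _ => False) p) :
    TensorSheaf k K n p := by
  obtain ⟨θ, hθ, N, hN, f, -, hreg, hf0, hind⟩ := h
  refine ⟨N * p, (tpow θ N).domDomCongr finProdFinEquiv, f, ?_, hf0, hind,
    fun P hP D hD l => ?_⟩
  · intro h0
    apply hθ
    ext D
    have h1 := congrArg (fun ω => ω fun c => D (finProdFinEquiv.symm c).2) h0
    simp only [MultilinearMap.domDomCongr_apply, Equiv.symm_apply_apply] at h1
    change ∏ _a : Fin N, θ (fun b => D b) = 0 at h1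
    rw [Finset.prod_const, Finset.card_univ, Fintype.card_fin] at h1
    exact pow_eq_zero_iff (by omega) |>.1 h1
  · rw [MultilinearMap.domDomCongr_apply]
    change P.Reg (f l * ∏ a : Fin N, θ fun b => D (finProdFinEquiv (a, b)))
    have h1 : ∀ a : Fin N, P.Reg (f l * (θ fun b => D (finProdFinEquiv (a, b))) ^ N) := fun a =>
      hreg P hP (fun h => h) _ (fun b => hD _) l
    by_cases hfl : f l = 0
    · left
      rw [hfl, zero_mul]
    by_cases hz : ∃ a : Fin N, (θ fun b => D (finProdFinEquiv (a, b))) = 0
    · obtain ⟨a, ha⟩ := hz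
      left
      rw [Finset.prod_eq_zero (Finset.mem_univ a) ha, mul_zero]
    push Not at hz
    right
    have hprod : (∏ a : Fin N, θ fun b => D (finProdFinEquiv (a, b))) ≠ 0 :=
      Finset.prod_ne_zero_iff.2 fun a _ => hz a
    have h2 : P.ord (∏ a : Fin N, θ fun b => D (finProdFinEquiv (a, b))) =
        ∑ a : Fin N, P.ord (θ fun b => D (finProdFinEquiv (a, b))) := by
      have h3 : ∀ s : Finset (Fin N), P.ord (∏ a ∈ s, θ fun b => D (finProdFinEquiv (a, b))) =
          ∑ a ∈ s, P.ord (θ fun b => D (finProdFinEquiv (a, b))) := by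
        intro s
        induction s using Finset.induction_on with
        | empty => rw [Finset.prod_empty, Finset.sum_empty, P.ord_one]
        | insert a s ha ih =>
          rw [Finset.prod_insert ha, Finset.sum_insert ha, P.ord_mul (hz a)
            (Finset.prod_ne_zero_iff.2 fun a _ => hz a), ih]
      exact h3 _
    rw [P.ord_mul hfl hprod, h2]
    have h4 : ∀ a : Fin N, 0 ≤ P.ord (f l) + N * P.ord (θ fun b => D (finProdFinEquiv (a, b))) := by
      intro a
      have h5 := (P.reg_iff (mul_ne_zero hfl (pow_ne_zero _ (hz a)))).1 (h1 a)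
      rwa [P.ord_mul hfl (pow_ne_zero _ (hz a)), P.ord_pow] at h5
    have h6 := Finset.sum_nonneg fun a (_ : a ∈ Finset.univ) => h4 a
    rw [Finset.sum_add_distrib, Finset.sum_const, Finset.card_univ, Fintype.card_fin,
      nsmul_eq_mul, ← Finset.mul_sum, ← mul_add] at h6
    exact nonneg_of_mul_nonneg_right h6 (by exact_mod_cast hN)

theorem special_of_tensor {n : ℕ} (h : ¬ TensorSheaf k K n 1) :
    Special k K n (fun _ => False) := fun _ hp hB => h ((BogSheaf.tensor hB).mono hp)

end

section

variable {K M : Type} [Field K] [Algebra ℂ K] [Field M] [Algebra ℂ M] {N n d : ℕ}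
  {y : Fin (N + 1) → K}

/-- **The system of a rank one sheaf of tensor differentials on an image.** -/
theorem hasC_tensor (hy : NormalModel y) (hn : Algebra.trdeg ℂ K = n) (hn0 : 0 < n)
    {i : Fin (N + 1)} (hi : y i ≠ 0) (hessM : Algebra.EssFiniteType ℂ M)
    (hd : Algebra.trdeg ℂ M = d) (ι : M →ₐ[ℂ] K) {j : ℕ} (hT : TensorSheaf ℂ M d j)
    {S : Set (K →ₐ[ℂ] K)} {C₁ : ℕ} (hC₁ : ∀ φ ∈ S, I (eCls hy hn hi φ (hcls hy hi) ::ₘ
      Multiset.replicate (n - 1) (hcls hy hi)) ≤ C₁) : HasC hy hn hi S j := by
  obtain ⟨m, T, f, hT0, hf0, hind, hreg⟩ := hT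
  obtain ⟨B, hB⟩ := tensor_bound hessM hd hy hn hi hT0 hreg
  have hind' : AlgebraicIndependent ℂ (fun l : Fin j => ι (f l.succ / f 0)) :=
    hind.map' (f := ι) ι.toRingHom.injective
  have hj : j ≤ n := by
    have h1 := hind'.cardinalMk_le_trdeg
    rw [Cardinal.mk_fin, hn] at h1
    exact_mod_cast h1
  refine hasC_mx (u := fun l => ι (f l / f 0)) (B := B) hy hn hn0 hi ?_ ?_ hind' hj hC₁
  · rw [div_self hf0, map_one]
  · intro ψ
    obtain ⟨h, hh, hhB⟩ := hB (ψ.comp ι)
    refine ⟨h * ψ (ι (f 0)), mul_ne_zero hh (by rwa [Ne, map_eq_zero, map_eq_zero]),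
      fun l => ?_⟩
    have e1 : h * ψ (ι (f 0)) * ψ (ι (f l / f 0)) = h * (ψ.comp ι) (f l) := by
      change _ = h * ψ (ι (f l))
      rw [mul_assoc, ← map_mul, ← map_mul, mul_div_cancel₀ _ hf0]
    rw [e1]
    exact hhB l

end

end Pool.Agent.T2h12.TN
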