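import Pool.Agent.T2h12.TN.Defs
import Pool.Agent.W619.Y.Parts
import Pool.Agent.N110.QNef

/-!
The pull back of tensor differentials.
-/

set_option autoImplicit false
set_option linter.overlappingInstances false
set_option linter.unusedSectionVars false

open FF IntermediateField Pool.Agent.W602.GT Pool.Agent.W603.LV Pool.Agent.W619.PQ
  Pool.Agent.W619.PL Pool.Agent.W619.TW Pool.Agent.W619.Y Pool.Agent.R887 Pool.Agent.Y172
open Pool.Agent.W308.PG.YLOC (expand expandK)

namespace Pool.Agent.T2h12.TN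

section

variable {M L : Type} [Field M] [Field L] [Algebra ℂ M] [Algebra ℂ L]

/-- the expansion of a multilinear function of vector fields -/
theorem tensor_expand {d m : ℕ} {x : Fin d → M} {E : Fin d → Derivation ℂ M M}
    (hx : IsTranscendenceBasis ℂ x) (hE : ∀ i j, E i (x j) = if i = j then 1 else 0)
    (T : MultilinearMap M (fun _ : Fin m => Derivation ℂ M M) M)
    (D : Fin m → Derivation ℂ M M) :
    T D = ∑ I : Fin m → Fin d, (∏ k, D k (x (I k))) * T (fun k => E (I k)) := by
  have h1 : D = fun k => ∑ l, D k (x l) • E l := by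
    funext k
    exact expandK x E hx hE (D k)
  conv_lhs => rw [h1]
  rw [MultilinearMap.map_sum]
  refine Finset.sum_congr rfl fun I _ => ?_
  rw [MultilinearMap.map_smul_univ, smul_eq_mul]

/-- the values of derivations on `z` -/
def evL (z : L) : Derivation ℂ L L →ₗ[L] L where
  toFun D := D z
  map_add' _ _ := rfl
  map_smul' _ _ := rfl

/-- the pull back of a tensor -/
noncomputable def pbM {d m : ℕ} (ψ : M →ₐ[ℂ] L) (x : Fin d → M) (E : Fin d → Derivation ℂ M M)
    (T : MultilinearMap M (fun _ : Fin m => Derivation ℂ M M) M) :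
    MultilinearMap L (fun _ : Fin m => Derivation ℂ L L) L :=
  ∑ I : Fin m → Fin d, ψ (T fun k => E (I k)) •
    ((MultilinearMap.mkPiAlgebra L (Fin m) L).compLinearMap fun k => evL (ψ (x (I k))))

theorem pbM_apply {d m : ℕ} (ψ : M →ₐ[ℂ] L) (x : Fin d → M) (E : Fin d → Derivation ℂ M M)
    (T : MultilinearMap M (fun _ : Fin m => Derivation ℂ M M) M)
    (D : Fin m → Derivation ℂ L L) : pbM ψ x E T D =
      ∑ I : Fin m → Fin d, (∏ k, D k (ψ (x (I k)))) * ψ (T fun k => E (I k)) := by
  unfold pbM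
  rw [_root_.sum_apply]
  refine Finset.sum_congr rfl fun I _ => ?_
  rw [_root_.smul_apply, MultilinearMap.compLinearMap_apply,
    MultilinearMap.mkPiAlgebra_apply, smul_eq_mul, mul_comm]
  rfl

theorem expandH {d : ℕ} (ψ : M →ₐ[ℂ] L) {x : Fin d → M} {E : Fin d → Derivation ℂ M M}
    (hx : IsTranscendenceBasis ℂ x) (hE : ∀ i j, E i (x j) = if i = j then 1 else 0)
    (D : Derivation ℂ L L) (f : M) : D (ψ f) = ∑ c, ψ (E c f) * D (ψ (x c)) := by
  let _ : Algebra M L := ψ.toRingHom.toAlgebra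
  have : IsScalarTower ℂ M L := IsScalarTower.of_algebraMap_eq fun c => (ψ.commutes c).symm
  exact expand (L := L) x E hx hE D f

/-- the pull back does not depend on the coordinates -/
theorem pbM_indep {d m : ℕ} (ψ : M →ₐ[ℂ] L) {x x' : Fin d → M}
    {E E' : Fin d → Derivation ℂ M M} (hx : IsTranscendenceBasis ℂ x)
    (hE : ∀ i j, E i (x j) = if i = j then 1 else 0) (hx' : IsTranscendenceBasis ℂ x')
    (hE' : ∀ i j, E' i (x' j) = if i = j then 1 else 0)
    (T : MultilinearMap M (fun _ : Fin m => Derivation ℂ M M) M)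
    (D : Fin m → Derivation ℂ L L) : pbM ψ x E T D = pbM ψ x' E' T D := by
  classical
  rw [pbM_apply, pbM_apply]
  have h1 : ∀ I : Fin m → Fin d, ∏ k, D k (ψ (x (I k))) =
      ∑ J : Fin m → Fin d, (∏ k, D k (ψ (x' (J k)))) * ψ (∏ k, E' (J k) (x (I k))) := by
    intro I
    have h2 : ∀ k, D k (ψ (x (I k))) = ∑ c, ψ (E' c (x (I k))) * D k (ψ (x' c)) :=
      fun k => expandH ψ hx' hE' (D k) (x (I k))
    rw [Finset.prod_congr rfl fun k _ => h2 k, Finset.prod_univ_sum, Fintype.piFinset_univ]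
    refine Finset.sum_congr rfl fun J _ => ?_
    rw [Finset.prod_mul_distrib, map_prod, mul_comm]
  have h3 : ∀ J : Fin m → Fin d, T (fun k => E' (J k)) =
      ∑ I : Fin m → Fin d, (∏ k, E' (J k) (x (I k))) * T (fun k => E (I k)) :=
    fun J => tensor_expand hx hE T fun k => E' (J k)
  calc ∑ I : Fin m → Fin d, (∏ k, D k (ψ (x (I k)))) * ψ (T fun k => E (I k)) =
      ∑ I : Fin m → Fin d, ∑ J : Fin m → Fin d, (∏ k, D k (ψ (x' (J k)))) *
        (ψ (∏ k, E' (J k) (x (I k))) * ψ (T fun k => E (I k))) := by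
        refine Finset.sum_congr rfl fun I _ => ?_
        rw [h1 I, Finset.sum_mul]
        exact Finset.sum_congr rfl fun J _ => mul_assoc _ _ _
    _ = ∑ J : Fin m → Fin d, ∑ I : Fin m → Fin d, (∏ k, D k (ψ (x' (J k)))) *
        (ψ (∏ k, E' (J k) (x (I k))) * ψ (T fun k => E (I k))) := Finset.sum_comm
    _ = _ := by
        refine Finset.sum_congr rfl fun J _ => ?_
        rw [h3 J, map_sum, Finset.mul_sum]
        refine Finset.sum_congr rfl fun I _ => ?_
        rw [map_mul]

/-- the pull back of a tensor differential which is not zero is not zero -/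
theorem pbM_ne {d m : ℕ} (ψ : M →ₐ[ℂ] L) {x : Fin d → M}
    {E : Fin d → Derivation ℂ M M} (hx : IsTranscendenceBasis ℂ x)
    (hE : ∀ i j, E i (x j) = if i = j then 1 else 0)
    {T : MultilinearMap M (fun _ : Fin m => Derivation ℂ M M) M} (hT : T ≠ 0)
    {F : Fin d → Derivation ℂ L L} (hF : ∀ i j, F i (ψ (x j)) = if i = j then 1 else 0) :
    pbM ψ x E T ≠ 0 := by
  classical
  intro h
  apply hT
  ext D
  rw [tensor_expand hx hE T D]
  refine Finset.sum_eq_zero fun I _ => ?_
  have h1 : pbM ψ x E T (fun k => F (I k)) = 0 := by rw [h]; rfl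
  rw [pbM_apply, Finset.sum_eq_single I] at h1
  · have h2 : ∏ k, F (I k) (ψ (x (I k))) = 1 :=
      Finset.prod_eq_one fun k _ => by rw [hF, if_pos rfl]
    rw [h2, one_mul, map_eq_zero] at h1
    rw [h1, mul_zero]
  · intro J _ hJ
    obtain ⟨k, hk⟩ := Function.ne_iff.1 hJ
    rw [Finset.prod_eq_zero (Finset.mem_univ k) (by rw [hF, if_neg (Ne.symm hk)]), zero_mul]
  · intro h3
    exact absurd (Finset.mem_univ I) h3

theorem exists_ne_frame {d m : ℕ} {x : Fin d → M} {E : Fin d → Derivation ℂ M M}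
    (hx : IsTranscendenceBasis ℂ x) (hE : ∀ i j, E i (x j) = if i = j then 1 else 0)
    {T : MultilinearMap M (fun _ : Fin m => Derivation ℂ M M) M} (hT : T ≠ 0) :
    ∃ I : Fin m → Fin d, T (fun k => E (I k)) ≠ 0 := by
  by_contra hcon
  push Not at hcon
  apply hT
  ext D
  rw [tensor_expand hx hE T D]
  exact Finset.sum_eq_zero fun I _ => by rw [hcon I, mul_zero]

theorem ge_finsum {ι : Type*} (s : Finset ι) {v : Place ℂ L} {r : ℤ} {f : ι → L}
    (h : ∀ i ∈ s, Ge v r (f i)) : Ge v r (∑ i ∈ s, f i) :=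
  Finset.sum_induction f (Ge v r) (fun _ _ h1 h2 => h1.add h2) (Or.inl rfl) h

theorem ge_finprod {ι : Type*} (s : Finset ι) {v : Place ℂ L} {f : ι → L}
    (h : ∀ i ∈ s, Ge v 0 (f i)) : Ge v 0 (∏ i ∈ s, f i) :=
  Finset.prod_induction f (Ge v 0) (fun _ _ h1 h2 => by
    have := h1.mul h2
    rwa [add_zero] at this) (Or.inr (by rw [v.ord_one])) h

/-- **The pull back of a regular tensor differential is regular.** -/
theorem pbM_reg {d n m : ℕ} (hessM : Algebra.EssFiniteType ℂ M) (hd : Algebra.trdeg ℂ M = d)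
    (hn : Algebra.trdeg ℂ L = n) (ψ : M →ₐ[ℂ] L) {x : Fin d → M}
    {E : Fin d → Derivation ℂ M M} (hx : IsTranscendenceBasis ℂ x)
    (hE : ∀ i j, E i (x j) = if i = j then 1 else 0)
    (T : MultilinearMap M (fun _ : Fin m => Derivation ℂ M M) M) {f : M}
    (hf : ∀ P : Place ℂ M, Divisorial d P → ∀ D : Fin m → Derivation ℂ M M,
      (∀ i, DerReg P (D i)) → P.Reg (f * T D)) (w : Place ℂ L) (hw : Divisorial n w)
    (D : Fin m → Derivation ℂ L L) (hD : ∀ i, DerReg w (D i)) : w.Reg (ψ f * pbM ψ x E T D) := by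
  classical
  let _ : Algebra M L := ψ.toRingHom.toAlgebra
  have hst : IsScalarTower ℂ M L := IsScalarTower.of_algebraMap_eq fun c => (ψ.commutes c).symm
  have key : ∀ (x' : Fin d → M) (E' : Fin d → Derivation ℂ M M), IsTranscendenceBasis ℂ x' →
      (∀ i j, E' i (x' j) = if i = j then 1 else 0) → (∀ c, w.Reg (ψ (x' c))) →
      (∀ I : Fin m → Fin d, w.Reg (ψ (f * T fun k => E' (I k)))) →
      w.Reg (ψ f * pbM ψ x E T D) := by
    intro x' E' hx' hE' hr hT
    rw [pbM_indep ψ hx hE hx' hE' T D, pbM_apply, Finset.mul_sum]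
    refine ge_finsum _ fun I _ => ?_
    have e1 : ψ f * ((∏ k, D k (ψ (x' (I k)))) * ψ (T fun k => E' (I k))) =
        (∏ k, D k (ψ (x' (I k)))) * ψ (f * T fun k => E' (I k)) := by
      rw [map_mul]
      ring
    rw [e1]
    have h1 := (ge_finprod Finset.univ (v := w) (f := fun k => D k (ψ (x' (I k))))
      fun k _ => hD k _ (hr (I k))).mul (hT I)
    rwa [add_zero] at h1
  by_cases htriv : ∃ f : M, w.ord (algebraMap M L f) ≠ 0
  · obtain ⟨e, u, hu⟩ := exists_over (K := M) w htriv
    have hdiv : IsDivisorial u d := pDIVR ℂ M L d n u w e hd hn hu hw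
    obtain ⟨y', E', i0, hy', hE', -, hyr, hpres⟩ := pFRAME ℂ M d hd
      (fun y hy => fd_basis hy) u hdiv
    have hregL : ∀ f : M, u.Reg f → w.Reg (ψ f) := by
      intro f hf
      rcases hf with hf | hf
      · left; rw [hf, map_zero]
      · right
        have h1 : w.ord (ψ f) = e * u.ord f := hu.2 f
        rw [h1]
        exact mul_nonneg (by positivity) hf
    exact key y' E' hy' hE' (fun c => hregL _ (hyr c)) fun I =>
      hregL _ (hf u hdiv _ fun k => hpres (I k))
  · push Not at htriv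
    exact key x E hx hE (fun c => Or.inr (htriv (x c)).ge) fun I => Or.inr (htriv _).ge

end

end Pool.Agent.T2h12.TN
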