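import Pool.Agent.T2h12.TN.A
import Pool.Agent.N110.QEps

/-!
The uniform bound for the coefficients of tensor differentials.
-/

set_option autoImplicit false
set_option linter.overlappingInstances false
set_option linter.unusedSectionVars false

open FF Pool.Agent.W602.GT Pool.Agent.W603.LV Pool.Agent.Y172 Pool.Agent.Y191 Pool.Agent.R887
  Pool.Agent.N110

namespace Pool.Agent.T2h12.TN

section

variable {K : Type} [Field K] [Algebra ℂ K] {N n : ℕ} {y : Fin (N + 1) → K}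

/-- **The uniform bound.** -/
theorem unif_bound (hy : NormalModel y) {i : Fin (N + 1)} (hi : y i ≠ 0)
    (E : Fin n → Derivation ℂ K K) (m : ℕ) : ∃ (B : ℕ) (g : K), g ≠ 0 ∧ ∀ a : K,
      (∀ P, IsPrimeDivisor y P → ∀ t : K, (∀ i, DerReg P (t • E i)) → P.Reg (t ^ m * a)) →
      Bnd ℂ (affS y i) B (g * a) := by
  classical
  have h1 : ∀ j, ∃ s : K, s ≠ 0 ∧ (y j ≠ 0 → s ∈ chart y j) ∧
      (y j ≠ 0 → ∀ i, ∀ f ∈ chart y j, s * E i f ∈ chart y j) := by
    intro j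
    by_cases hj : y j = 0
    · exact ⟨1, one_ne_zero, fun h => absurd hj h, fun h => absurd hj h⟩
    · obtain ⟨s, hs, hs0, hsD⟩ := exists_den_frame hy hj E
      exact ⟨s, hs0, fun _ => hs, fun _ => hsD⟩
  choose s hs0 hs hsD using h1
  obtain ⟨A', hA'⟩ : ∃ A' : Place ℂ K → ℚ, A' = fun P => (m : ℚ) * ∑ j, |(P.ord (s j) : ℚ)| :=
    ⟨_, rfl⟩
  have hEff : Effective y A' := by
    refine ⟨fun P _ => ?_, ?_⟩
    · rw [hA']
      exact mul_nonneg (Nat.cast_nonneg _) (Finset.sum_nonneg fun j _ => abs_nonneg _)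
    · refine (Set.finite_iUnion fun j => finite_ord hy (hs0 j)).subset ?_
      rintro P ⟨hP, hne⟩
      rw [Set.mem_iUnion]
      by_contra hcon
      push Not at hcon
      apply hne
      rw [hA']
      beta_reduce
      rw [Finset.sum_eq_zero, mul_zero]
      intro j _
      have h2 : P.ord (s j) = 0 := by
        by_contra h3
        exact hcon j ⟨hP, h3⟩
      rw [h2, Int.cast_zero, abs_zero]
  obtain ⟨H, hH, hHP⟩ := exists_hyp hy hi
  obtain ⟨g, B, hg0, hgb⟩ := dominate hy hEff hi hH hHP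
  refine ⟨B, g, hg0, fun a ha => ?_⟩
  by_cases ha0 : a = 0
  · rw [ha0, mul_zero]
    intro P
    exact ⟨1, one_affS hi, one_ne_zero, by rw [P.ord_one, P.ord_zero]; simp⟩
  refine bnd_prime hy hi (mul_ne_zero hg0 ha0) fun P hP l hl => ?_
  have h2 := ha P hP (s l) fun i => derReg_of_chart hP hl fun f hf => hsD l hl.1 i f hf
  have h3 := (P.reg_iff (mul_ne_zero (pow_ne_zero _ (hs0 l)) ha0)).1 h2
  rw [P.ord_mul (pow_ne_zero _ (hs0 l)) ha0, P.ord_pow] at h3
  have h4 := hgb P hP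
  rw [hHP P l hP hl, hA'] at h4
  beta_reduce at h4
  have h5 : |(P.ord (s l) : ℚ)| ≤ ∑ j, |(P.ord (s j) : ℚ)| :=
    Finset.single_le_sum (f := fun j => |(P.ord (s j) : ℚ)|) (fun j _ => abs_nonneg _)
      (Finset.mem_univ l)
  have h6 := mul_le_mul_of_nonneg_left ((le_abs_self (P.ord (s l) : ℚ)).trans h5)
    (show (0 : ℚ) ≤ m from Nat.cast_nonneg _)
  have h7 : (0 : ℚ) ≤ m * P.ord (s l) + P.ord a := by exact_mod_cast h3
  have h8 : (0 : ℚ) ≤ ((P.ord (g * a) + B * P.ord (y i / y l) : ℤ) : ℚ) := by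
    rw [P.ord_mul hg0 ha0]
    push_cast
    linarith
  exact_mod_cast h8

/-- **The functions `f l` under all dominant maps.** -/
theorem tensor_bound {M : Type} [Field M] [Algebra ℂ M] {d : ℕ}
    (hessM : Algebra.EssFiniteType ℂ M) (hd : Algebra.trdeg ℂ M = d) (hy : NormalModel y)
    (hn : Algebra.trdeg ℂ K = n) {i : Fin (N + 1)}
    (hi : y i ≠ 0) {m j : ℕ} {T : MultilinearMap M (fun _ : Fin m => Derivation ℂ M M) M}
    (hT : T ≠ 0) {f : Fin (j + 1) → M}
    (hreg : ∀ P : Place ℂ M, Divisorial d P → ∀ D : Fin m → Derivation ℂ M M,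
      (∀ i, DerReg P (D i)) → ∀ l, P.Reg (f l * T D)) :
    ∃ B : ℕ, ∀ ψ : M →ₐ[ℂ] K, ∃ h : K, h ≠ 0 ∧ ∀ l, Bnd ℂ (affS y i) B (h * ψ (f l)) := by
  classical
  have hess := hy.ess
  obtain ⟨x, E, hx, hE⟩ := exists_crd hd (k := ℂ) (K := M)
  obtain ⟨x', E', hx', hE'⟩ := exists_crd hn (k := ℂ) (K := K)
  obtain ⟨B, g, hg0, hB⟩ := unif_bound hy hi E' m
  refine ⟨B, fun ψ => ?_⟩
  have hind : AlgebraicIndependent ℂ (fun i => ψ (x i)) :=
    hx.1.map' (f := ψ) ψ.toRingHom.injective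
  obtain ⟨F, hF⟩ := Pool.Agent.Y191.exists_dual hind
  obtain ⟨J, hJ⟩ := exists_ne_frame hx' hE' (pbM_ne ψ hx hE hT hF)
  refine ⟨g * pbM ψ x E T (fun k => E' (J k)), mul_ne_zero hg0 hJ, fun l => ?_⟩
  have h1 := hB (ψ (f l) * pbM ψ x E T (fun k => E' (J k))) fun P hP t ht => by
    have h2 := pbM_reg hessM hd hn ψ hx hE T (f := f l) (fun Q hQ D hD => hreg Q hQ D hD l) P
      (hP.divisorial hy hn) (fun k => t • E' (J k)) fun k => ht (J k)
    rw [MultilinearMap.map_smul_univ, Finset.prod_const, Finset.card_univ, Fintype.card_fin,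
      smul_eq_mul] at h2
    have e1 : t ^ m * (ψ (f l) * pbM ψ x E T (fun k => E' (J k))) =
        ψ (f l) * (t ^ m * pbM ψ x E T (fun k => E' (J k))) := by ring
    rwa [e1]
  have e2 : g * pbM ψ x E T (fun k => E' (J k)) * ψ (f l) =
      g * (ψ (f l) * pbM ψ x E T (fun k => E' (J k))) := by ring
  rwa [e2]

end

end Pool.Agent.T2h12.TN
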