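import Pool.Agent.T2h12.TN.B
import Pool.Agent.T2h12.Gen

/-!
The classes `q U + b H`, for a finite dimensional space `U` of functions.
-/

set_option autoImplicit false
set_option linter.overlappingInstances false
set_option linter.unusedSectionVars false

open FF Module MvPolynomial Pool.Agent.W602.GT Pool.Agent.W603.LV
open Pool.Agent.Y172 Pool.Agent.Y191 Pool.Agent.R887 Pool.Agent.W619.PQ Pool.Agent.N110

namespace Pool.Agent.T2h12.TN

section

variable {K : Type} [Field K] [Algebra ℂ K] {N n : ℕ} {y : Fin (N + 1) → K}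

/-- the functions with the poles of `b H` -/
def LB (μ : Place ℂ K → ℤ) (b : ℕ) : Submodule ℂ K where
  carrier := {v | ∀ P, Ge P (b * μ P) v}
  zero_mem' := fun P => Or.inl rfl
  add_mem' := fun h1 h2 P => (h1 P).add (h2 P)
  smul_mem' := fun c v h P => by
    have h2 := (Ge.const (P := P) c).mul (h P)
    rw [zero_add] at h2
    rwa [Algebra.smul_def]

theorem mem_LB {μ : Place ℂ K → ℤ} {b : ℕ} {v : K} : v ∈ LB μ b ↔ ∀ P, Ge P (b * μ P) v :=
  Iff.rfl

/-- the space spanned by functions -/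
def US {j : ℕ} (u : Fin (j + 1) → K) : Submodule ℂ K := Submodule.span ℂ (Set.range u)

/-- the functions are bounded after all maps -/
def UBd (y : Fin (N + 1) → K) (i : Fin (N + 1)) {j : ℕ} (u : Fin (j + 1) → K) (B : ℕ) : Prop :=
  ∀ ψ : K →ₐ[ℂ] K, ∃ h : K, h ≠ 0 ∧ ∀ l, Bnd ℂ (affS y i) B (h * ψ (u l))

theorem ge_pow_map {μ : Place ℂ K → ℤ} {i : Fin (N + 1)}
    (hm : IsMin (affS y i) μ) {j : ℕ} {u : Fin (j + 1) → K} {ψ : K →ₐ[ℂ] K} {B : ℕ} {h : K}
    (hB : ∀ l, Bnd ℂ (affS y i) B (h * ψ (u l))) (P : Place ℂ K) (q : ℕ) :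
    ∀ v ∈ ((US u).map ψ.toLinearMap) ^ q, Ge P ((q * B : ℕ) * μ P) (h ^ q * v) := by
  have h1 : ∀ v ∈ (US u).map ψ.toLinearMap, Ge P (B * μ P) (h * v) := by
    rintro _ ⟨v, hv, rfl⟩
    change Ge P _ (h * ψ v)
    induction hv using Submodule.span_induction with
    | mem x hx =>
      obtain ⟨l, rfl⟩ := hx
      exact hm.ge (hB l) P
    | zero => rw [map_zero, mul_zero]; exact Or.inl rfl
    | add x y _ _ h1 h2 => rw [map_add, mul_add]; exact h1.add h2
    | smul t x _ h1 =>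
      have h2 := (Ge.const (P := P) t).mul h1
      rw [zero_add] at h2
      have e1 : h * ψ (t • x) = algebraMap ℂ K t * (h * ψ x) := by
        rw [Algebra.smul_def, map_mul, ψ.commutes]
        ring
      rw [e1]
      exact h2
  induction q with
  | zero =>
    intro v hv
    rw [pow_zero, Submodule.mem_one] at hv
    obtain ⟨c, rfl⟩ := hv
    rw [pow_zero, one_mul, zero_mul, Nat.cast_zero, zero_mul]
    exact Ge.const c
  | succ q ih =>
    intro v hv
    rw [pow_succ] at hv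
    induction hv using Submodule.mul_induction_on' with
    | mem_mul_mem a ha b hb =>
      have h2 := (ih a ha).mul (h1 b hb)
      have e1 : h ^ (q + 1) * (a * b) = h ^ q * a * (h * b) := by ring
      rw [e1]
      refine h2.mono (le_of_eq ?_)
      push_cast
      ring
    | add a _ b _ h2 h3 =>
      rw [mul_add]
      exact h2.add h3

/-- the class `q U + (b + 1) H` -/
noncomputable def mx (hy : NormalModel y) {i : Fin (N + 1)} (hi : y i ≠ 0) {j : ℕ}
    {u : Fin (j + 1) → K} (hu : u 0 = 1) {B : ℕ} (hB : UBd y i u B)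
    {μ : Place ℂ K → ℤ} (hμ : IsMin (affS y i) μ) (ψ : K →ₐ[ℂ] K) (b q : ℕ) :
    Cls ℂ (affS y i) where
  V := ((US u).map ψ.toLinearMap) ^ q * LB μ (b + 1)
  one := by
    have h1 : (1 : K) ∈ (US u).map ψ.toLinearMap :=
      ⟨1, by rw [← hu]; exact Submodule.subset_span ⟨0, rfl⟩, map_one ψ⟩
    have h2 : (1 : K) ∈ ((US u).map ψ.toLinearMap) ^ q := by
      have := Submodule.pow_mem_pow ((US u).map ψ.toLinearMap) h1 q
      rwa [one_pow] at this
    have h3 : (1 : K) ∈ LB μ (b + 1) := fun P => Or.inr (by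
      rw [P.ord_one]
      exact mul_nonpos_of_nonneg_of_nonpos (Int.natCast_nonneg _)
        (hμ.nonpos (one_affS hi) P))
    have := Submodule.mul_mem_mul h2 h3
    rwa [one_mul] at this
  big := adjoin_span hy hi fun l => by
    have h1 : (1 : K) ∈ (US u).map ψ.toLinearMap :=
      ⟨1, by rw [← hu]; exact Submodule.subset_span ⟨0, rfl⟩, map_one ψ⟩
    have h2 : (1 : K) ∈ ((US u).map ψ.toLinearMap) ^ q := by
      have := Submodule.pow_mem_pow ((US u).map ψ.toLinearMap) h1 q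
      rwa [one_pow] at this
    have h3 : y l / y i ∈ LB μ (b + 1) := fun P => by
      by_cases h0 : y l / y i = 0
      · exact Or.inl h0
      right
      have h4 := hμ.le P (y l / y i) ⟨l, rfl⟩ h0
      have h5 := hμ.nonpos (one_affS hi) P
      push_cast
      nlinarith [mul_nonpos_of_nonneg_of_nonpos (Int.natCast_nonneg b) h5]
    have := Submodule.mul_mem_mul h2 h3
    rwa [one_mul] at this
  dom := by
    obtain ⟨h, hh, hhB⟩ := hB ψ
    refine ⟨q * B + (b + 1), h ^ q, pow_ne_zero _ hh, fun v hv =>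
      bnd_of_ge hμ (one_affS hi) fun P => ?_⟩
    induction hv using Submodule.mul_induction_on' with
    | mem_mul_mem a ha c hc =>
      have h2 := (ge_pow_map hμ hhB P q a ha).mul (hc P)
      rw [mul_assoc] at h2
      refine h2.mono (le_of_eq ?_)
      push_cast
      ring
    | add a _ b _ h2 h3 =>
      rw [mul_add]
      exact h2.add h3

variable {i : Fin (N + 1)} {j : ℕ} {u : Fin (j + 1) → K} {B : ℕ} {μ : Place ℂ K → ℤ}

theorem one_mem_pow (hu : u 0 = 1) (ψ : K →ₐ[ℂ] K) (q : ℕ) :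
    (1 : K) ∈ ((US u).map ψ.toLinearMap) ^ q := by
  have h1 : (1 : K) ∈ (US u).map ψ.toLinearMap :=
    ⟨1, by rw [← hu]; exact Submodule.subset_span ⟨0, rfl⟩, map_one ψ⟩
  have := Submodule.pow_mem_pow ((US u).map ψ.toLinearMap) h1 q
  rwa [one_pow] at this

theorem span_le_LB (hi : y i ≠ 0) (hμ : IsMin (affS y i) μ) (b : ℕ) :
    Submodule.span ℂ (affS y i) ≤ LB μ (b + 1) := by
  rw [Submodule.span_le]
  rintro _ ⟨l, rfl⟩ P
  by_cases h0 : y l / y i = 0
  · exact Or.inl h0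
  right
  have h4 := hμ.le P (y l / y i) ⟨l, rfl⟩ h0
  have h5 := hμ.nonpos (one_affS hi) P
  push_cast
  nlinarith [mul_nonpos_of_nonneg_of_nonpos (Int.natCast_nonneg b) h5]

/-- the hyperplane class is contained in the classes -/
theorem hcls_le_mx (hy : NormalModel y) (hn : Algebra.trdeg ℂ K = n) (hi : y i ≠ 0)
    (hu : u 0 = 1) (hB : UBd y i u B) (hμ : IsMin (affS y i) μ) (ψ : K →ₐ[ℂ] K) (b q : ℕ) :
    LeA hy hn hi 1 (hcls hy hi) (mx hy hi hu hB hμ ψ b q) :=
  LeA.of_mul one_ne_zero fun v hv => by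
    have h1 := Submodule.mul_mem_mul (one_mem_pow hu ψ q) (span_le_LB hi hμ b hv)
    exact h1

/-- the upper bound -/
theorem mx_le (hy : NormalModel y) (hn : Algebra.trdeg ℂ K = n) (hi : y i ≠ 0)
    (hu : u 0 = 1) (hB : UBd y i u B) (hμ : IsMin (affS y i) μ) (ψ : K →ₐ[ℂ] K) (b q : ℕ) :
    LeA hy hn hi ((q * B + (b + 1) : ℕ) : ℝ) (mx hy hi hu hB hμ ψ b q) (hcls hy hi) := by
  obtain ⟨h, hh, hhB⟩ := hB ψ
  intro χ s hs
  have h1 := I_dom_emap hy hn hi χ (V := mx hy hi hu hB hμ ψ b q) (B := q * B + (b + 1))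
    (f := h ^ q) (pow_ne_zero _ hh) (fun v hv => bnd_of_ge hμ (one_affS hi) fun P => by
      induction hv using Submodule.mul_induction_on' with
      | mem_mul_mem a ha c hc =>
        have h2 := (ge_pow_map hμ hhB P q a ha).mul (hc P)
        rw [mul_assoc] at h2
        refine h2.mono (le_of_eq ?_)
        push_cast
        ring
      | add a _ b _ h2 h3 =>
        rw [mul_add]
        exact h2.add h3) hs
  exact_mod_cast h1

/-- **The pull back of the classes.** -/
theorem mx_pull (hy : NormalModel y) (hn : Algebra.trdeg ℂ K = n) (hi : y i ≠ 0)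
    (hu : u 0 = 1) (hB : UBd y i u B) (hμ : IsMin (affS y i) μ) (φ ψ : K →ₐ[ℂ] K) (b : ℕ) :
    ∃ b', ∀ q, LeA hy hn hi 1 (eCls hy hn hi φ (mx hy hi hu hB hμ ψ b q))
      (mx hy hi hu hB hμ (φ * ψ) b' q) := by
  obtain ⟨β, h, hh, hβ⟩ := emap_dom hy hi φ
  have hμ0 := hμ.nonpos (one_affS hi)
  have hLB : ∀ v ∈ LB μ (b + 1), h ^ (b + 1) * φ v ∈ LB μ ((b + 1) * β + 1) := by
    intro v hv P
    by_cases hv0 : v = 0
    · left
      rw [hv0, map_zero, mul_zero]
    right
    have hBv : Bnd ℂ (affS y i) (b + 1) v := bnd_of_ge hμ (one_affS hi) hv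
    obtain ⟨_, ⟨s, hs, rfl⟩, hs0, h1⟩ := bnd_emap hy.ess hn φ hBv P
    have h2 := hμ.ge (hβ s (Submodule.subset_span hs)) P
    have h3 := h2.resolve_left (mul_ne_zero hh hs0)
    rw [P.ord_mul hh hs0] at h3
    have hφv : φ v ≠ 0 := by rwa [Ne, map_eq_zero]
    rw [P.ord_mul (pow_ne_zero _ hh) hφv, P.ord_pow]
    have h4 := mul_le_mul_of_nonneg_left h3 (show (0 : ℤ) ≤ ((b + 1 : ℕ) : ℤ) from
      Int.natCast_nonneg _)
    have h5 := hμ0 P
    push_cast at h1 h4 ⊢
    nlinarith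
  refine ⟨(b + 1) * β, fun q => LeA.of_mul (g := h ^ (b + 1)) (pow_ne_zero _ hh) ?_⟩
  rintro _ ⟨v, hv, rfl⟩
  change h ^ (b + 1) * φ v ∈ ((US u).map (φ * ψ : K →ₐ[ℂ] K).toLinearMap) ^ q *
    LB μ ((b + 1) * β + 1)
  have hmap : ∀ a ∈ ((US u).map ψ.toLinearMap) ^ q,
      φ a ∈ ((US u).map (φ * ψ : K →ₐ[ℂ] K).toLinearMap) ^ q := by
    intro a ha
    have e1 : ((US u).map (φ * ψ : K →ₐ[ℂ] K).toLinearMap) =
        ((US u).map ψ.toLinearMap).map φ.toLinearMap := by
      rw [← Submodule.map_comp]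
      rfl
    rw [e1, ← Submodule.map_pow]
    exact ⟨a, ha, rfl⟩
  change v ∈ ((US u).map ψ.toLinearMap) ^ q * LB μ (b + 1) at hv
  induction hv using Submodule.mul_induction_on' with
  | mem_mul_mem a ha c hc =>
    have e1 : h ^ (b + 1) * φ (a * c) = φ a * (h ^ (b + 1) * φ c) := by
      rw [map_mul]
      ring
    rw [e1]
    exact Submodule.mul_mem_mul (hmap a ha) (hLB c hc)
  | add a _ c _ h2 h3 =>
    rw [map_add, mul_add]
    exact Submodule.add_mem _ h2 h3

/-- the classes are linear in `q` -/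
theorem mx_lin (hy : NormalModel y) (hn : Algebra.trdeg ℂ K = n) (hi : y i ≠ 0)
    (hu : u 0 = 1) (hB : UBd y i u B) (hμ : IsMin (affS y i) μ) (χ ψ : K →ₐ[ℂ] K) (b q : ℕ)
    {s : Multiset (Cls ℂ (affS y i))} (hs : s.card + 1 = n) :
    I (eCls hy hn hi χ (mx hy hi hu hB hμ ψ b q) ::ₘ s) +
      q * I (eCls hy hn hi χ (mx hy hi hu hB hμ ψ b 0) ::ₘ s) =
      I (eCls hy hn hi χ (mx hy hi hu hB hμ ψ b 0) ::ₘ s) +
      q * I (eCls hy hn hi χ (mx hy hi hu hB hμ ψ b 1) ::ₘ s) := by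
  have cx := ctx hy hn hi
  induction q with
  | zero => rw [zero_mul, zero_mul]
  | succ q ih =>
    have h1 : mulCls (fin_affS i) (one_affS hi) (mx hy hi hu hB hμ ψ b (q + 1))
        (mx hy hi hu hB hμ ψ b 0) = mulCls (fin_affS i) (one_affS hi)
        (mx hy hi hu hB hμ ψ b q) (mx hy hi hu hB hμ ψ b 1) := by
      apply Cls.ext'
      change ((US u).map ψ.toLinearMap) ^ (q + 1) * LB μ (b + 1) *
        (((US u).map ψ.toLinearMap) ^ 0 * LB μ (b + 1)) =
        ((US u).map ψ.toLinearMap) ^ q * LB μ (b + 1) *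
        (((US u).map ψ.toLinearMap) ^ 1 * LB μ (b + 1))
      rw [pow_zero, one_mul, pow_one, pow_succ]
      ring
    have h2 := I_mulCls cx (hS := fin_affS i) (h1 := one_affS hi)
      (V := eCls hy hn hi χ (mx hy hi hu hB hμ ψ b (q + 1)))
      (V' := eCls hy hn hi χ (mx hy hi hu hB hμ ψ b 0)) hs
    have h3 := I_mulCls cx (hS := fin_affS i) (h1 := one_affS hi)
      (V := eCls hy hn hi χ (mx hy hi hu hB hμ ψ b q))
      (V' := eCls hy hn hi χ (mx hy hi hu hB hμ ψ b 1)) hs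
    rw [← eCls_mul] at h2 h3
    rw [h1, h3] at h2
    nlinarith

end

end Pool.Agent.T2h12.TN
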