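import Pool.Agent.T2h12.TN.C
import Pool.Agent.T2h12.RFin

/-!
The system of the classes `q U + b H`.
-/

set_option autoImplicit false
set_option linter.overlappingInstances false
set_option linter.unusedSectionVars false

open FF Module MvPolynomial Pool.Agent.W602.GT Pool.Agent.W603.LV
open Pool.Agent.Y172 Pool.Agent.Y191 Pool.Agent.R887 Pool.Agent.W619.PQ Pool.Agent.N110
open Filter Topology

namespace Pool.Agent.T2h12.TN

theorem poly_tend {R : Polynomial ℤ} {ν : ℕ} (hdeg : R.natDegree ≤ ν) :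
    Tendsto (fun q : ℕ => ((R.eval (q : ℤ) : ℤ) : ℝ) / (q : ℝ) ^ ν) atTop
      (𝓝 (R.coeff ν : ℝ)) := by
  have h1 : ∀ q : ℕ, ((R.eval (q : ℤ) : ℤ) : ℝ) =
      ∑ i ∈ Finset.range (ν + 1), (R.coeff i : ℝ) * (q : ℝ) ^ i := by
    intro q
    rw [Polynomial.eval_eq_sum_range' (Nat.lt_succ_of_le hdeg)]
    push_cast
    rfl
  have h3 : ∀ i ∈ Finset.range (ν + 1), Tendsto (fun q : ℕ => (R.coeff i : ℝ) *
      ((q : ℝ) ^ i / (q : ℝ) ^ ν)) atTop (𝓝 ((R.coeff i : ℝ) * if i = ν then 1 else 0)) := by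
    intro i hi
    rw [Finset.mem_range] at hi
    refine Tendsto.const_mul _ ?_
    by_cases hiν : i = ν
    · rw [if_pos hiν, hiν]
      refine tendsto_const_nhds.congr' ?_
      filter_upwards [eventually_gt_atTop 0] with q hq
      have : (0 : ℝ) < q := by exact_mod_cast hq
      rw [div_self (by positivity)]
    · rw [if_neg hiν]
      have h4 : Tendsto (fun q : ℕ => 1 / ((q : ℝ) ^ (ν - i))) atTop (𝓝 0) := by
        have h5 : Tendsto (fun q : ℕ => (q : ℝ) ^ (ν - i)) atTop atTop :=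
          (tendsto_pow_atTop (by omega)).comp tendsto_natCast_atTop_atTop
        simp only [one_div]
        exact h5.inv_tendsto_atTop
      refine h4.congr' ?_
      filter_upwards [eventually_gt_atTop 0] with q hq
      have hq0 : (0 : ℝ) < q := by exact_mod_cast hq
      have e1 : (q : ℝ) ^ ν = (q : ℝ) ^ i * (q : ℝ) ^ (ν - i) := by
        rw [← pow_add]
        congr 1
        omega
      rw [e1]
      field_simp
  have h4 := tendsto_finsetSum (Finset.range (ν + 1)) h3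
  have h5 : ∑ i ∈ Finset.range (ν + 1), ((R.coeff i : ℝ) * if i = ν then 1 else 0) =
      (R.coeff ν : ℝ) := by
    rw [Finset.sum_eq_single ν]
    · simp
    · intro i _ hi
      rw [if_neg hi, mul_zero]
    · intro h
      exact absurd (Finset.mem_range.2 (Nat.lt_succ_self ν)) h
  rw [h5] at h4
  refine h4.congr fun q => ?_
  rw [h1, Finset.sum_div]
  refine Finset.sum_congr rfl fun i _ => ?_
  rw [mul_div_assoc]

theorem poly_half' {R : Polynomial ℤ} {ν : ℕ} (hdeg : R.natDegree ≤ ν) {c : ℝ} (hc : 0 < c)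
    (h : ∀ᶠ q : ℕ in atTop, c * (q : ℝ) ^ ν ≤ ((R.eval (q : ℤ) : ℤ) : ℝ)) :
    ∀ᶠ q : ℕ in atTop, 1 / 2 * (q : ℝ) ^ ν ≤ ((R.eval (q : ℤ) : ℤ) : ℝ) := by
  have h2 := poly_tend hdeg
  have h3 : c ≤ (R.coeff ν : ℝ) := by
    refine ge_of_tendsto h2 ?_
    filter_upwards [eventually_gt_atTop 0, h] with q hq hq'
    have hq0 : (0 : ℝ) < q := by exact_mod_cast hq
    rw [le_div_iff₀ (by positivity)]
    exact hq'
  have h4 : (1 : ℝ) ≤ R.coeff ν := by
    have h5 : (0 : ℝ) < R.coeff ν := hc.trans_le h3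
    have h6 : 0 < R.coeff ν := by exact_mod_cast h5
    exact_mod_cast h6
  have h5 : ∀ᶠ q : ℕ in atTop, (1 / 2 : ℝ) < ((R.eval (q : ℤ) : ℤ) : ℝ) / (q : ℝ) ^ ν :=
    h2.eventually_const_lt (by linarith)
  filter_upwards [h5, eventually_gt_atTop 0] with q hq hq1
  have hq0 : (0 : ℝ) < q := by exact_mod_cast hq1
  rw [lt_div_iff₀ (by positivity)] at hq
  exact hq.le

theorem poly_zero {R : Polynomial ℤ} {ν : ℕ} (hdeg : R.natDegree ≤ ν)
    (h : ¬ ∃ ε : ℝ, 0 < ε ∧ ∀ᶠ q : ℕ in atTop, ε * (q : ℝ) ^ ν ≤ ((R.eval (q : ℤ) : ℤ) : ℝ))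
    {δ : ℝ} (hδ : 0 < δ) :
    ∀ᶠ q : ℕ in atTop, ((R.eval (q : ℤ) : ℤ) : ℝ) ≤ δ * (q : ℝ) ^ ν := by
  have h2 := poly_tend hdeg
  have h3 : (R.coeff ν : ℝ) ≤ 0 := by
    by_contra h4
    push Not at h4
    apply h
    refine ⟨(R.coeff ν : ℝ) / 2, by positivity, ?_⟩
    have h5 := h2.eventually_const_lt (show (R.coeff ν : ℝ) / 2 < R.coeff ν by linarith)
    filter_upwards [h5, eventually_gt_atTop 0] with q hq hq1
    have hq0 : (0 : ℝ) < q := by exact_mod_cast hq1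
    rw [lt_div_iff₀ (by positivity)] at hq
    exact hq.le
  have h5 := h2.eventually_lt_const (show (R.coeff ν : ℝ) < δ by linarith)
  filter_upwards [h5, eventually_gt_atTop 0] with q hq hq1
  have hq0 : (0 : ℝ) < q := by exact_mod_cast hq1
  rw [div_lt_iff₀ (by positivity)] at hq
  exact hq.le

section

variable {K : Type} [Field K] [Algebra ℂ K] {N n : ℕ} {y : Fin (N + 1) → K}
  {i : Fin (N + 1)} {j : ℕ} {u : Fin (j + 1) → K} {B : ℕ} {μ : Place ℂ K → ℤ}

/-- the intersection numbers as polynomials -/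
theorem poly_mx (hy : NormalModel y) (hn : Algebra.trdeg ℂ K = n) (hi : y i ≠ 0)
    (hu : u 0 = 1) (hB : UBd y i u B) (hμ : IsMin (affS y i) μ) (χ ψ : K →ₐ[ℂ] K) (b : ℕ)
    (X : Multiset (Cls ℂ (affS y i))) (k : ℕ) : ∀ a c : ℕ, k + a + c + X.card = n →
    ∃ R : Polynomial ℤ, R.natDegree ≤ k ∧ ∀ q : ℕ,
      (I (Multiset.replicate k (eCls hy hn hi χ (mx hy hi hu hB hμ ψ b q)) +
        (Multiset.replicate a (eCls hy hn hi χ (mx hy hi hu hB hμ ψ b 1)) +
          (Multiset.replicate c (eCls hy hn hi χ (mx hy hi hu hB hμ ψ b 0)) + X))) : ℤ) =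
      R.eval (q : ℤ) := by
  induction k with
  | zero =>
    intro a c _
    refine ⟨Polynomial.C ((I (Multiset.replicate a (eCls hy hn hi χ (mx hy hi hu hB hμ ψ b 1)) +
      (Multiset.replicate c (eCls hy hn hi χ (mx hy hi hu hB hμ ψ b 0)) + X)) : ℕ) : ℤ), by simp,
      fun q => ?_⟩
    rw [Polynomial.eval_C, Multiset.replicate_zero, zero_add]
  | succ k ih =>
    intro a c hac
    obtain ⟨R1, hR1, h1⟩ := ih (a + 1) c (by omega)
    obtain ⟨R2, hR2, h2⟩ := ih a (c + 1) (by omega)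
    refine ⟨(1 - Polynomial.X) * R2 + Polynomial.X * R1, ?_, fun q => ?_⟩
    · refine (Polynomial.natDegree_add_le _ _).trans (max_le ?_ ?_)
      · refine Polynomial.natDegree_mul_le.trans ?_
        have h3 : (1 - Polynomial.X : Polynomial ℤ).natDegree ≤ 1 := by
          refine (Polynomial.natDegree_sub_le _ _).trans ?_
          simp
        omega
      · refine Polynomial.natDegree_mul_le.trans ?_
        rw [Polynomial.natDegree_X]
        omega
    · have h3 := mx_lin hy hn hi hu hB hμ χ ψ b q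
        (s := Multiset.replicate k (eCls hy hn hi χ (mx hy hi hu hB hμ ψ b q)) +
        (Multiset.replicate a (eCls hy hn hi χ (mx hy hi hu hB hμ ψ b 1)) +
          (Multiset.replicate c (eCls hy hn hi χ (mx hy hi hu hB hμ ψ b 0)) + X)))
        (by simp only [Multiset.card_add, Multiset.card_replicate]; omega)
      have h1' := h1 q
      have h2' := h2 q
      rw [Multiset.replicate_succ, Multiset.cons_add, Multiset.add_cons] at h1'
      rw [Multiset.replicate_succ, Multiset.cons_add, Multiset.add_cons, Multiset.add_cons] at h2'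
      rw [Multiset.replicate_succ, Multiset.cons_add, Polynomial.eval_add, Polynomial.eval_mul,
        Polynomial.eval_mul, Polynomial.eval_sub, Polynomial.eval_X, Polynomial.eval_one, ← h1',
        ← h2']
      zify at h3
      linarith

/-- the hyperplane class is bounded by its image -/
theorem hcls_le_img (hy : NormalModel y) (hn : Algebra.trdeg ℂ K = n) (hi : y i ≠ 0)
    (ψ : K →ₐ[ℂ] K) : ∃ C : ℝ, 0 < C ∧ Le n (fun s : Multiset (Cls ℂ (affS y i)) => (I s : ℝ)) C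
      (hcls hy hi) (eCls hy hn hi ψ (hcls hy hi)) := by
  have cx := ctx hy hn hi
  have hpos : ∀ s : Multiset (Cls ℂ (affS y i)), s.card = n → 0 < (I s : ℝ) := fun s hs => by
    exact_mod_cast I_pos cx hs
  by_cases hn0 : n = 0
  · refine ⟨1, one_pos, fun s hs => ?_⟩
    omega
  have h0 := hpos (Multiset.replicate n (eCls hy hn hi ψ (hcls hy hi)))
    (Multiset.card_replicate _ _)
  have h0' := hpos (hcls hy hi ::ₘ Multiset.replicate (n - 1) (eCls hy hn hi ψ (hcls hy hi)))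
    (by rw [Multiset.card_cons, Multiset.card_replicate]; omega)
  refine ⟨4 ^ (n - 1) * (I (hcls hy hi ::ₘ Multiset.replicate (n - 1)
    (eCls hy hn hi ψ (hcls hy hi))) : ℝ) / I (Multiset.replicate n
      (eCls hy hn hi ψ (hcls hy hi))), by positivity, fun s hs => ?_⟩
  have h1 := rkt1 (t := fun s : Multiset (Cls ℂ (affS y i)) => (I s : ℝ)) hpos (exch cx)
    (eCls hy hn hi ψ (hcls hy hi)) (hcls hy hi) s 0 (by rw [Multiset.card_zero]; omega)
  have hs' : s.card = n - 1 := by omega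
  beta_reduce at h1
  rw [hs', add_zero, add_zero, add_zero, show n - 1 + 1 = n by omega] at h1
  rw [div_mul_eq_mul_div, le_div_iff₀ h0]
  linarith

theorem rep2 {t : Multiset (Cls ℂ (affS y i)) → ℝ} {a a' c c' : Cls ℂ (affS y i)} {C D : ℝ}
    (hC : 0 ≤ C) (hD : 0 ≤ D) (h1 : Le n t C a a') (h2 : Le n t D c c') {k : ℕ} (hk : k ≤ n) :
    t (Multiset.replicate k a + Multiset.replicate (n - k) c) ≤
      C ^ k * D ^ (n - k) * t (Multiset.replicate k a' + Multiset.replicate (n - k) c') := by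
  have e1 := h1.rep hC k (Multiset.replicate (n - k) c)
    (by rw [Multiset.card_replicate]; omega)
  have e2 := h2.rep hD (n - k) (Multiset.replicate k a')
    (by rw [Multiset.card_replicate]; omega)
  rw [add_comm (Multiset.replicate (n - k) c), add_comm (Multiset.replicate (n - k) c')] at e2
  refine e1.trans ?_
  rw [mul_assoc]
  exact mul_le_mul_of_nonneg_left e2 (pow_nonneg hC _)

/-- comparison of the classes -/
theorem mx_comm (hy : NormalModel y) (hn : Algebra.trdeg ℂ K = n) (hi : y i ≠ 0)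
    (hu : u 0 = 1) (hB : UBd y i u B) (hμ : IsMin (affS y i) μ) (χ ψ : K →ₐ[ℂ] K) (b q : ℕ)
    {s : Multiset (Cls ℂ (affS y i))} (hs : s.card + 1 = n) :
    I (eCls hy hn hi χ (mx hy hi hu hB hμ ψ b q) ::ₘ s) +
      I (eCls hy hn hi χ (eCls hy hn hi ψ (mx hy hi hu hB hμ 1 0 0)) ::ₘ s) =
      I (eCls hy hn hi χ (eCls hy hn hi ψ (mx hy hi hu hB hμ 1 0 q)) ::ₘ s) +
      I (eCls hy hn hi χ (mx hy hi hu hB hμ ψ b 0) ::ₘ s) := by
  have cx := ctx hy hn hi
  have h1 : mulCls (fin_affS i) (one_affS hi) (mx hy hi hu hB hμ ψ b q)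
      (eCls hy hn hi ψ (mx hy hi hu hB hμ 1 0 0)) = mulCls (fin_affS i) (one_affS hi)
      (eCls hy hn hi ψ (mx hy hi hu hB hμ 1 0 q)) (mx hy hi hu hB hμ ψ b 0) := by
    apply Cls.ext'
    change ((US u).map ψ.toLinearMap) ^ q * LB μ (b + 1) *
      ((((US u).map (1 : K →ₐ[ℂ] K).toLinearMap) ^ 0 * LB μ (0 + 1)).map ψ.toLinearMap) =
      ((((US u).map (1 : K →ₐ[ℂ] K).toLinearMap) ^ q * LB μ (0 + 1)).map ψ.toLinearMap) *
      (((US u).map ψ.toLinearMap) ^ 0 * LB μ (b + 1))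
    have e0 : (US u).map (1 : K →ₐ[ℂ] K).toLinearMap = US u := by
      ext z
      constructor
      · rintro ⟨w, hw, rfl⟩
        exact hw
      · intro h
        exact ⟨z, h, rfl⟩
    have e1 : ((US u) ^ q * LB μ (0 + 1)).map ψ.toLinearMap =
        ((US u).map ψ.toLinearMap) ^ q * (LB μ (0 + 1)).map ψ.toLinearMap := by
      rw [Submodule.map_mul, Submodule.map_pow]
    rw [e0, e1, pow_zero, one_mul, pow_zero, one_mul]
    ring
  have h2 := I_mulCls cx (hS := fin_affS i) (h1 := one_affS hi)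
    (V := eCls hy hn hi χ (mx hy hi hu hB hμ ψ b q))
    (V' := eCls hy hn hi χ (eCls hy hn hi ψ (mx hy hi hu hB hμ 1 0 0))) hs
  have h3 := I_mulCls cx (hS := fin_affS i) (h1 := one_affS hi)
    (V := eCls hy hn hi χ (eCls hy hn hi ψ (mx hy hi hu hB hμ 1 0 q)))
    (V' := eCls hy hn hi χ (mx hy hi hu hB hμ ψ b 0)) hs
  rw [← eCls_mul] at h2 h3
  rw [h1, h3] at h2
  exact h2.symm

theorem LeA.mono' {hy : NormalModel y} {hn : Algebra.trdeg ℂ K = n}
    {hi : y i ≠ 0} {c c' : ℝ} {V V' : Cls ℂ (affS y i)} (h : LeA hy hn hi c V V')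
    (hc : c ≤ c') : LeA hy hn hi c' V V' := fun ψ s hs =>
  (h ψ s hs).trans (mul_le_mul_of_nonneg_right hc (Nat.cast_nonneg _))

/-- the images of the classes without maps are bounded by the classes -/
theorem img_le_mx (hy : NormalModel y) (hn : Algebra.trdeg ℂ K = n) (hi : y i ≠ 0)
    (hu : u 0 = 1) (hB : UBd y i u B) (hμ : IsMin (affS y i) μ) (ψ : K →ₐ[ℂ] K) (b : ℕ) :
    ∃ C : ℝ, 0 < C ∧ ∀ q, LeA hy hn hi C (eCls hy hn hi ψ (mx hy hi hu hB hμ 1 0 q))
      (mx hy hi hu hB hμ ψ b q) := by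
  obtain ⟨b', hb'⟩ := mx_pull hy hn hi hu hB hμ ψ 1 0
  refine ⟨1 + (b' + 1 : ℕ), by positivity, fun q χ s hs => ?_⟩
  have h1 := mx_comm hy hn hi hu hB hμ χ ψ b q hs
  have h2 := (hb' 0) χ s hs
  have h3 := (mx_le hy hn hi hu hB hμ (ψ * 1) b' 0) χ s hs
  have h4 := (hcls_le_mx hy hn hi hu hB hμ ψ b q) χ s hs
  rw [one_mul] at h2 h4
  rw [zero_mul, zero_add] at h3
  have h5 : (I (eCls hy hn hi χ (eCls hy hn hi ψ (mx hy hi hu hB hμ 1 0 q)) ::ₘ s) : ℝ) ≤
      I (eCls hy hn hi χ (mx hy hi hu hB hμ ψ b q) ::ₘ s) +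
      I (eCls hy hn hi χ (eCls hy hn hi ψ (mx hy hi hu hB hμ 1 0 0)) ::ₘ s) := by
    have h5' := h1.ge.trans' (Nat.le_add_right _ _)
    exact_mod_cast h5'
  have h6 : (I (eCls hy hn hi χ (eCls hy hn hi ψ (mx hy hi hu hB hμ 1 0 0)) ::ₘ s) : ℝ) ≤
      ((b' + 1 : ℕ) : ℝ) * I (eCls hy hn hi χ (mx hy hi hu hB hμ ψ b q) ::ₘ s) :=
    h2.trans (h3.trans (mul_le_mul_of_nonneg_left h4 (Nat.cast_nonneg _)))
  linarith

/-- the classes are bounded by the images of the classes without maps -/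
theorem mx_le_img (hy : NormalModel y) (hn : Algebra.trdeg ℂ K = n) (hi : y i ≠ 0)
    (hu : u 0 = 1) (hB : UBd y i u B) (hμ : IsMin (affS y i) μ) (ψ : K →ₐ[ℂ] K) (b : ℕ) :
    ∃ C : ℝ, 0 < C ∧ ∀ q, Le n (fun s : Multiset (Cls ℂ (affS y i)) => (I s : ℝ)) C
      (mx hy hi hu hB hμ ψ b q) (eCls hy hn hi ψ (mx hy hi hu hB hμ 1 0 q)) := by
  obtain ⟨C, hC, hle⟩ := hcls_le_img hy hn hi ψ
  refine ⟨1 + (b + 1 : ℕ) * C, by positivity, fun q s hs => ?_⟩
  have h1 := mx_comm hy hn hi hu hB hμ 1 ψ b q hs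
  rw [eCls_one, eCls_one, eCls_one, eCls_one] at h1
  have h2 := (mx_le hy hn hi hu hB hμ ψ b 0).le s hs
  rw [zero_mul, zero_add] at h2
  have h3 := hle s hs
  have h4 := (hcls_le_mx hy hn hi hu hB hμ 1 0 q) ψ s hs
  rw [one_mul] at h4
  beta_reduce at h2 h3 ⊢
  have h5 : (I (mx hy hi hu hB hμ ψ b q ::ₘ s) : ℝ) ≤
      I (eCls hy hn hi ψ (mx hy hi hu hB hμ 1 0 q) ::ₘ s) +
      I (mx hy hi hu hB hμ ψ b 0 ::ₘ s) := by
    have h5' := h1.le.trans' (Nat.le_add_right _ _)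
    exact_mod_cast h5'
  have h6 : (I (mx hy hi hu hB hμ ψ b 0 ::ₘ s) : ℝ) ≤
      ((b + 1 : ℕ) : ℝ) * (C * I (eCls hy hn hi ψ (mx hy hi hu hB hμ 1 0 q) ::ₘ s)) :=
    h2.trans (mul_le_mul_of_nonneg_left (h3.trans (mul_le_mul_of_nonneg_left h4 hC.le))
      (Nat.cast_nonneg _))
  linarith

end

end Pool.Agent.T2h12.TN
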