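import Pool.Agent.W602.GT.SpecDefs

/-!
Holomorphic tensor differentials on the models of a function field.
-/

set_option autoImplicit false

open FF Pool.Agent.W602.GT

namespace Pool.Agent.T2h12.TN

/-- The smooth projective varieties of dimension `n` with function field `K` carry a rank one sheaf
of tensor differentials (a rank one subsheaf of some tensor power of the cotangent sheaf) of Iitaka
dimension at least `j`: there are a nonzero rational tensor differential `T` of some degree `m`, that
is a `K`-multilinear function of `m` rational vector fields, and functions `f 0, ..., f j` with
algebraically independent ratios, such that all `f l * T` are regular at all prime divisors, that is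
their values on regular vector fields are regular. (For a rank one subsheaf `L` of the `m`-th tensor
power of the cotangent sheaf, the sections of the saturation of `L ^ N` in the tensor power of degree
`m N` are of the form `f * T ^ N`, so that the existence of such an `L` of Iitaka dimension at least `j`
is equivalent to this condition, with `T ^ N` in place of `T`.) -/
def TensorSheaf (k K : Type) [Field k] [Field K] [Algebra k K] (n j : ℕ) : Prop :=
  ∃ (m : ℕ) (T : MultilinearMap K (fun _ : Fin m => Derivation k K K) K) (f : Fin (j + 1) → K),
    T ≠ 0 ∧ f 0 ≠ 0 ∧ AlgebraicIndependent k (fun i : Fin j => f i.succ / f 0) ∧
    ∀ P : Place k K, Divisorial n P → ∀ D : Fin m → Derivation k K K, (∀ i, DerReg P (D i)) →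
      ∀ l, P.Reg (f l * T D)

end Pool.Agent.T2h12.TN
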