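import Pool.Agent.T2h12.TN.D

/-!
The system of the classes `q U + b H`: lower and upper bounds, and the existence of the system.
-/

set_option autoImplicit false
set_option linter.overlappingInstances false
set_option linter.unusedSectionVars false

open FF Module MvPolynomial Pool.Agent.W602.GT Pool.Agent.W603.LV
open Pool.Agent.Y172 Pool.Agent.Y191 Pool.Agent.R887 Pool.Agent.W619.PQ Pool.Agent.N110
open Filter Topology

namespace Pool.Agent.T2h12.TN

section

variable {K : Type} [Field K] [Algebra ℂ K] {n : ℕ}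

/-- independence of algebraically independent families -/
theorem ind_of_indep (hn : Algebra.trdeg ℂ K = n) {j : ℕ} {v : Fin j → K}
    (hv : AlgebraicIndependent ℂ v) : Ind n ℂ (N110.toM v) := by
  classical
  unfold Ind
  have h1 : gen ℂ (N110.toM v) = IntermediateField.adjoin ℂ (Set.range v) := by
    unfold gen
    rw [toM_set]
  rw [h1, toM_card]
  have h2 : (j : Cardinal) ≤ Algebra.trdeg ℂ (IntermediateField.adjoin ℂ (Set.range v)) := by
    have h3 : AlgebraicIndependent ℂ (fun a => (⟨v a, IntermediateField.subset_adjoin ℂ _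
        ⟨a, rfl⟩⟩ : IntermediateField.adjoin ℂ (Set.range v))) := by
      refine AlgebraicIndependent.of_comp (IntermediateField.adjoin ℂ (Set.range v)).val ?_
      exact hv
    have h4 := h3.cardinalMk_le_trdeg
    rwa [Cardinal.mk_fin] at h4
  have h3 := _root_.trdeg_add_eq ℂ (IntermediateField.adjoin ℂ (Set.range v)) (A := K)
  rw [hn] at h3
  rw [add_comm, ← h3]
  gcongr

/-- completion by elements of given classes -/
theorem complete {S : Set K} (hn : Algebra.trdeg ℂ K = n) {W0 : Multiset K} (h0 : Ind n ℂ W0)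
    (s : Multiset (Cls ℂ S)) (hs : W0.card + s.card ≤ n) :
    ∃ W, Sel W s ∧ Ind n ℂ (W + W0) := by
  induction s using Multiset.induction_on with
  | empty => exact ⟨0, Multiset.Rel.zero, by rwa [zero_add]⟩
  | cons V s ih =>
    rw [Multiset.card_cons] at hs
    obtain ⟨W, hW, hi⟩ := ih (by omega)
    have h1 : Algebra.trdeg (gen ℂ (W + W0)) K ≠ 0 := by
      intro h0
      have hl := trdeg_le_gen (k := ℂ) (W + W0)
      rw [h0, zero_add, Multiset.card_add, hW.card, hn] at hl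
      have : n ≤ s.card + W0.card := by exact_mod_cast hl
      omega
    have h2 : Algebra.Transcendental (gen ℂ (W + W0)) K := _root_.trdeg_ne_zero_iff.1 h1
    obtain ⟨z, hz⟩ := h2.transcendental
    obtain ⟨e, he, hez⟩ := exists_transc V.big hz
    refine ⟨e ::ₘ W, sel_cons he hW, ?_⟩
    rw [Multiset.cons_add]
    exact hi.cons hez

/-- powers -/
theorem dm_pows (hn : Algebra.trdeg ℂ K = n) {q : ℕ} (hq : 1 ≤ q) (Z : Multiset K) :
    ∀ R : Multiset K, Z.card + R.card = n →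
      q ^ Z.card * dm ℂ (Z + R) ≤ dm ℂ (Z.map (fun z => z ^ q) + R) := by
  induction Z using Multiset.induction_on with
  | empty => intro R _; simp
  | cons z Z ih =>
    intro R hR
    rw [Multiset.card_cons] at hR
    have h1 := dm_pow hn (z := z) (W := Z + R) (by rw [Multiset.card_add]; omega) hq
    have h2 := ih (z ^ q ::ₘ R) (by rw [Multiset.card_cons]; omega)
    rw [Multiset.add_cons, Multiset.add_cons] at h2
    rw [Multiset.card_cons, Multiset.map_cons, Multiset.cons_add, Multiset.cons_add, pow_succ,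
      mul_assoc]
    exact (Nat.mul_le_mul_left _ h1).trans h2

end

section

variable {K : Type} [Field K] [Algebra ℂ K] {N n : ℕ} {y : Fin (N + 1) → K}
  {i : Fin (N + 1)} {j : ℕ} {u : Fin (j + 1) → K} {B : ℕ} {μ : Place ℂ K → ℤ}

theorem sel_rep {S : Set K} {V : Cls ℂ S} {W : Multiset K} (h : ∀ z ∈ W, z ∈ V.V) :
    Sel W (Multiset.replicate W.card V) := by
  induction W using Multiset.induction_on with
  | empty => exact Multiset.Rel.zero
  | cons z W ih =>
    rw [Multiset.card_cons, Multiset.replicate_succ]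
    exact sel_cons (h z (Multiset.mem_cons_self _ _))
      (ih fun z hz => h z (Multiset.mem_cons_of_mem hz))

/-- **The lower bound.** -/
theorem base_mx (hy : NormalModel y) (hn : Algebra.trdeg ℂ K = n) (hi : y i ≠ 0)
    (hu : u 0 = 1) (hB : UBd y i u B) (hμ : IsMin (affS y i) μ)
    (hind : AlgebraicIndependent ℂ (fun l : Fin j => u l.succ)) (hj : j ≤ n) {q : ℕ}
    (hq : 1 ≤ q) : q ^ j ≤ I (Multiset.replicate j (mx hy hi hu hB hμ 1 0 q) +
      Multiset.replicate (n - j) (hcls hy hi)) := by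
  have hess := hy.ess
  have cx := ctx hy hn hi
  have h1 := ind_of_indep hn hind
  obtain ⟨Q, hQ, hQi⟩ := complete hn h1 (Multiset.replicate (n - j) (hcls hy hi))
    (by rw [toM_card, Multiset.card_replicate]; omega)
  have hQc : Q.card = n - j := by rw [hQ.card, Multiset.card_replicate]
  have h2 := hQi.dm_ne (by rw [Multiset.card_add, toM_card, hQc]; omega)
  have h3 := dm_pows hn hq (N110.toM fun l : Fin j => u l.succ) Q
    (by rw [toM_card, hQc]; omega)
  rw [toM_card, add_comm (N110.toM fun l : Fin j => u l.succ) Q] at h3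
  have h4 : Sel ((N110.toM fun l : Fin j => u l.succ).map (fun z => z ^ q))
      (Multiset.replicate j (mx hy hi hu hB hμ 1 0 q)) := by
    have h5 := sel_rep (V := mx hy hi hu hB hμ 1 0 q)
      (W := (N110.toM fun l : Fin j => u l.succ).map (fun z => z ^ q)) (by
        intro z hz
        obtain ⟨w, hw, rfl⟩ := Multiset.mem_map.1 hz
        obtain ⟨l, rfl⟩ := mem_toM.1 hw
        have h6 : u l.succ ∈ (US u).map (1 : K →ₐ[ℂ] K).toLinearMap :=
          ⟨u l.succ, Submodule.subset_span ⟨l.succ, rfl⟩, rfl⟩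
        have h7 := Submodule.mul_mem_mul (Submodule.pow_mem_pow _ h6 q)
          (span_le_LB hi hμ 0 (Submodule.subset_span (one_affS hi)))
        rw [mul_one] at h7
        exact h7)
    rwa [Multiset.card_map, toM_card] at h5
  have h5 := le_I cx (by simp only [Multiset.card_add, Multiset.card_replicate]; omega)
    (sel_add h4 hQ)
  refine le_trans ?_ (h3.trans h5)
  exact Nat.le_mul_of_pos_right _ (Nat.pos_of_ne_zero h2)

/-- the bounds from below for the images -/
theorem eps_mx (hy : NormalModel y) (hn : Algebra.trdeg ℂ K = n) (hi : y i ≠ 0)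
    (hu : u 0 = 1) (hB : UBd y i u B) (hμ : IsMin (affS y i) μ) {k : ℕ} (hk : k ≤ n) {ε : ℝ}
    (hε : 0 < ε) (h : ∀ᶠ q : ℕ in atTop, ε * (q : ℝ) ^ k ≤
      I (Multiset.replicate k (mx hy hi hu hB hμ 1 0 q) +
        Multiset.replicate (n - k) (hcls hy hi))) (χ ψ : K →ₐ[ℂ] K) (b : ℕ) :
    ∀ᶠ q : ℕ in atTop, 1 / 2 * (q : ℝ) ^ k ≤
      I (Multiset.replicate k (eCls hy hn hi χ (mx hy hi hu hB hμ ψ b q)) +
        Multiset.replicate (n - k) (hcls hy hi)) := by
  have cx := ctx hy hn hi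
  obtain ⟨R, hR, hRq⟩ := poly_mx hy hn hi hu hB hμ χ ψ b
    (Multiset.replicate (n - k) (hcls hy hi)) k 0 0 (by rw [Multiset.card_replicate]; omega)
  simp only [Multiset.replicate_zero, zero_add] at hRq
  obtain ⟨C, hC, hle⟩ := img_le_mx hy hn hi hu hB hμ ψ b
  obtain ⟨b', hb'⟩ := mx_pull hy hn hi hu hB hμ (χ * ψ) 1 0
  have hH : Le n (fun s : Multiset (Cls ℂ (affS y i)) => (I s : ℝ)) ((b' + 1 : ℕ) : ℝ)
      (eCls hy hn hi (χ * ψ) (hcls hy hi)) (hcls hy hi) := by
    have e1 := (hcls_le_mx hy hn hi hu hB hμ 1 0 0).emap (χ * ψ)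
    have e2 := mx_le hy hn hi hu hB hμ (χ * ψ * 1) b' 0
    rw [zero_mul, zero_add] at e2
    have e3 := ((e1.trans zero_le_one (hb' 0)).trans (by norm_num) e2).le
    rwa [one_mul, one_mul] at e3
  have hM : ∀ q, Le n (fun s : Multiset (Cls ℂ (affS y i)) => (I s : ℝ)) C
      (eCls hy hn hi (χ * ψ) (mx hy hi hu hB hμ 1 0 q))
      (eCls hy hn hi χ (mx hy hi hu hB hμ ψ b q)) := by
    intro q
    have e1 := ((hle q).emap χ).le
    rwa [eCls_eCls] at e1
  have hc0 : 0 < C ^ k * ((b' + 1 : ℕ) : ℝ) ^ (n - k) := by positivity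
  have key : ∀ᶠ q : ℕ in atTop, ε / (C ^ k * ((b' + 1 : ℕ) : ℝ) ^ (n - k)) * (q : ℝ) ^ k ≤
      ((R.eval (q : ℤ) : ℤ) : ℝ) := by
    filter_upwards [h] with q hq
    have e1 := I_emap hy hn hi (χ * ψ) (s := Multiset.replicate k (mx hy hi hu hB hμ 1 0 q) +
      Multiset.replicate (n - k) (hcls hy hi))
      (by simp only [Multiset.card_add, Multiset.card_replicate]; omega)
    rw [Multiset.map_add, Multiset.map_replicate, Multiset.map_replicate] at e1
    have e2 := rep2 hC.le (by positivity) (hM q) hH hk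
    beta_reduce at e2
    rw [e1] at e2
    have hdeg : (1 : ℝ) ≤ mapDegree (χ * ψ) := by
      exact_mod_cast mapDegree_pos hy.ess hn (χ * ψ)
    have e3 := hRq q
    have e4 : ((I (Multiset.replicate k (eCls hy hn hi χ (mx hy hi hu hB hμ ψ b q)) +
        Multiset.replicate (n - k) (hcls hy hi)) : ℕ) : ℝ) = ((R.eval (q : ℤ) : ℤ) : ℝ) := by
      exact_mod_cast e3
    rw [e4] at e2
    rw [div_mul_eq_mul_div, div_le_iff₀ hc0]
    have e5 : (I (Multiset.replicate k (mx hy hi hu hB hμ 1 0 q) +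
        Multiset.replicate (n - k) (hcls hy hi)) : ℝ) ≤ ((mapDegree (χ * ψ) *
        I (Multiset.replicate k (mx hy hi hu hB hμ 1 0 q) +
        Multiset.replicate (n - k) (hcls hy hi)) : ℕ) : ℝ) := by
      push_cast
      have e7 : (0 : ℝ) ≤ I (Multiset.replicate k (mx hy hi hu hB hμ 1 0 q) +
        Multiset.replicate (n - k) (hcls hy hi)) := Nat.cast_nonneg _
      nlinarith
    linarith
  filter_upwards [poly_half' hR (div_pos hε hc0) key] with q hq
  have e3 := hRq q
  have e4 : ((I (Multiset.replicate k (eCls hy hn hi χ (mx hy hi hu hB hμ ψ b q)) +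
      Multiset.replicate (n - k) (hcls hy hi)) : ℕ) : ℝ) = ((R.eval (q : ℤ) : ℤ) : ℝ) := by
    exact_mod_cast e3
  rwa [e4]

/-- the bounds from above -/
theorem zero_mx (hy : NormalModel y) (hn : Algebra.trdeg ℂ K = n) (hi : y i ≠ 0)
    (hu : u 0 = 1) (hB : UBd y i u B) (hμ : IsMin (affS y i) μ) {k : ℕ} (hk : k ≤ n)
    (h : ¬ ∃ ε : ℝ, 0 < ε ∧ ∀ᶠ q : ℕ in atTop, ε * (q : ℝ) ^ k ≤
      I (Multiset.replicate k (mx hy hi hu hB hμ 1 0 q) +
        Multiset.replicate (n - k) (hcls hy hi))) (ψ : K →ₐ[ℂ] K) (b : ℕ) {δ : ℝ}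
    (hδ : 0 < δ) : ∀ᶠ q : ℕ in atTop,
      I (Multiset.replicate k (mx hy hi hu hB hμ ψ b q) +
        Multiset.replicate (n - k) (hcls hy hi)) ≤ δ * (q : ℝ) ^ k := by
  have cx := ctx hy hn hi
  obtain ⟨R, hR, hRq⟩ := poly_mx hy hn hi hu hB hμ 1 1 0
    (Multiset.replicate (n - k) (hcls hy hi)) k 0 0 (by rw [Multiset.card_replicate]; omega)
  simp only [Multiset.replicate_zero, zero_add, eCls_one] at hRq
  have e4 : ∀ q : ℕ, ((I (Multiset.replicate k (mx hy hi hu hB hμ 1 0 q) +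
      Multiset.replicate (n - k) (hcls hy hi)) : ℕ) : ℝ) = ((R.eval (q : ℤ) : ℤ) : ℝ) := by
    intro q
    exact_mod_cast hRq q
  simp only [e4] at h
  obtain ⟨C, hC, hle⟩ := mx_le_img hy hn hi hu hB hμ ψ b
  obtain ⟨D, hD, hleD⟩ := hcls_le_img hy hn hi ψ
  have hdeg : (0 : ℝ) < mapDegree ψ := by exact_mod_cast mapDegree_pos hy.ess hn ψ
  have hc0 : 0 < C ^ k * D ^ (n - k) * mapDegree ψ := by positivity
  filter_upwards [poly_zero hR h (div_pos hδ hc0)] with q hq
  have e1 := I_emap hy hn hi ψ (s := Multiset.replicate k (mx hy hi hu hB hμ 1 0 q) +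
    Multiset.replicate (n - k) (hcls hy hi))
    (by simp only [Multiset.card_add, Multiset.card_replicate]; omega)
  rw [Multiset.map_add, Multiset.map_replicate, Multiset.map_replicate] at e1
  have e2 := rep2 hC.le hD.le (hle q) hleD hk
  beta_reduce at e2
  rw [e1] at e2
  push_cast at e2
  rw [e4] at e2
  rw [div_mul_eq_mul_div, le_div_iff₀ hc0] at hq
  linarith

/-- **The system.** -/
theorem hasC_mx (hy : NormalModel y) (hn : Algebra.trdeg ℂ K = n) (hn0 : 0 < n) (hi : y i ≠ 0)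
    (hu : u 0 = 1) (hB : UBd y i u B)
    (hind : AlgebraicIndependent ℂ (fun l : Fin j => u l.succ)) (hj : j ≤ n)
    {S : Set (K →ₐ[ℂ] K)} {C₁ : ℕ} (hC₁ : ∀ φ ∈ S, I (eCls hy hn hi φ (hcls hy hi) ::ₘ
      Multiset.replicate (n - 1) (hcls hy hi)) ≤ C₁) : HasC hy hn hi S j := by
  classical
  obtain ⟨μ, hμ⟩ := exists_isMin (k := ℂ) (fin_affS (y := y) i) ⟨1, one_affS hi, one_ne_zero⟩
  obtain ⟨P, hP⟩ : ∃ P : ℕ → Prop, P = fun k => ∃ ε : ℝ, 0 < ε ∧ ∀ᶠ q : ℕ in atTop,
      ε * (q : ℝ) ^ k ≤ I (Multiset.replicate k (mx hy hi hu hB hμ 1 0 q) +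
        Multiset.replicate (n - k) (hcls hy hi)) := ⟨_, rfl⟩
  have hPj : P j := by
    rw [hP]
    refine ⟨1, one_pos, ?_⟩
    filter_upwards [eventually_ge_atTop 1] with q hq
    rw [one_mul]
    exact_mod_cast base_mx hy hn hi hu hB hμ hind hj hq
  obtain ⟨ν, hν⟩ : ∃ ν, ν = Nat.findGreatest P n := ⟨_, rfl⟩
  have hνn : ν ≤ n := by
    rw [hν]
    exact Nat.findGreatest_le n
  have hjν : j ≤ ν := by
    rw [hν]
    exact Nat.le_findGreatest hj hPj
  have hPν : P ν := by
    rw [hν]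
    exact Nat.findGreatest_spec hj hPj
  have hnP : ν + 1 ≤ n → ¬ P (ν + 1) := by
    intro h
    rw [hν] at h ⊢
    exact Nat.findGreatest_is_greatest (Nat.lt_succ_self _) h
  rw [hP] at hPν hnP
  obtain ⟨ε, hε, hεq⟩ := hPν
  have hsh : ∀ {p : ℕ → Prop}, (∀ᶠ q in atTop, p q) → ∀ᶠ q in atTop, p (q + 1) :=
    fun h => (tendsto_add_atTop_nat 1).eventually h
  refine (hasC_gen hy hn hn0 hi (𝒜 := (K →ₐ[ℂ] K) × ℕ) (m := fun q => q + 1)
    (M := fun a q => mx hy hi hu hB hμ a.1 a.2 (q + 1)) (c := B + 1)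
    ⟨by positivity, fun q => by omega, fun q => by omega, ?_⟩ ?_ hC₁ hνn (ε := 1 / 2)
    (by norm_num) ?_ ?_).mono hjν
  · rintro ⟨ψ, b⟩
    filter_upwards [eventually_ge_atTop b] with q hq
    refine LeA.mono' (mx_le hy hn hi hu hB hμ ψ b (q + 1)) ?_
    have : (q + 1) * B + (b + 1) ≤ (B + 1) * (q + 1) := by nlinarith
    exact_mod_cast this
  · rintro φ - ⟨ψ, b⟩
    obtain ⟨b', hb'⟩ := mx_pull hy hn hi hu hB hμ φ ψ b
    exact ⟨(φ * ψ, b'), fun q => hb' (q + 1)⟩
  · rintro w - ⟨ψ, b⟩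
    exact ⟨(ψ, b), fun q => LeA.refl hy hn hi _,
      hsh (eps_mx hy hn hi hu hB hμ hνn hε hεq w.prod ψ b)⟩
  · rintro h ⟨ψ, b⟩ δ hδ
    exact hsh (zero_mx hy hn hi hu hB hμ h (hnP h) ψ b hδ)

end

end Pool.Agent.T2h12.TN
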