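import Pool.Agent.T2h12.TN.X
import Pool.Agent.T2h12.OM.QD

/-!
Tensor differentials on the finite extensions of a function field which are regular over the base,
and étale correspondences.
-/

set_option autoImplicit false
set_option linter.overlappingInstances false
set_option linter.unusedSectionVars false

open FF Module IntermediateField Pool.Agent.W602.GT Pool.Agent.W603.LV Pool.Agent.Y172
  Pool.Agent.Y191 Pool.Agent.R887 Pool.Agent.N110 Pool.Agent.T2h12.OM

namespace Pool.Agent.T2h12.TN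

section

variable {K Ω : Type} [Field K] [Field Ω] [Algebra ℂ K] [Algebra K Ω]

/-- integral over the valuation ring of `P` -/
def IntO (P : Place ℂ K) (z : Ω) : Prop :=
  ((algebraMap K Ω).comp P.O.subtype).IsIntegralElem z

theorem IntO.add {P : Place ℂ K} {z z' : Ω} (h : IntO P z) (h' : IntO P z') :
    IntO P (z + z') := RingHom.IsIntegralElem.add _ h h'

theorem IntO.mul {P : Place ℂ K} {z z' : Ω} (h : IntO P z) (h' : IntO P z') :
    IntO P (z * z') := RingHom.IsIntegralElem.mul _ h h'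

theorem IntO.of_reg {P : Place ℂ K} {f : K} (h : P.Reg f) : IntO P (algebraMap K Ω f) :=
  RingHom.isIntegralElem_map (f := (algebraMap K Ω).comp P.O.subtype) (x := (⟨f, h⟩ : P.O))

theorem IntO.zero (P : Place ℂ K) : IntO P (0 : Ω) := by
  have := IntO.of_reg (Ω := Ω) (P := P) (f := 0) P.reg_zero
  rwa [map_zero] at this

theorem IntO.one (P : Place ℂ K) : IntO P (1 : Ω) := by
  have := IntO.of_reg (Ω := Ω) (P := P) (f := 1) P.reg_one
  rwa [map_one] at this

theorem IntO.sum {P : Place ℂ K} {ι : Type} (s : Finset ι) {f : ι → Ω}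
    (h : ∀ i ∈ s, IntO P (f i)) : IntO P (∑ i ∈ s, f i) :=
  Finset.sum_induction f (IntO P) (fun _ _ h1 h2 => h1.add h2) (IntO.zero P) h

theorem IntO.prod {P : Place ℂ K} {ι : Type} (s : Finset ι) {f : ι → Ω}
    (h : ∀ i ∈ s, IntO P (f i)) : IntO P (∏ i ∈ s, f i) :=
  Finset.prod_induction f (IntO P) (fun _ _ h1 h2 => h1.mul h2) (IntO.one P) h

variable [Algebra ℂ Ω] [IsScalarTower ℂ K Ω]

theorem IntO.const (P : Place ℂ K) (c : ℂ) : IntO P (algebraMap ℂ Ω c) := by
  rw [IsScalarTower.algebraMap_apply ℂ K Ω]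
  exact IntO.of_reg (P.reg_const c)

/-- the criterion by places -/
theorem intO_of_places {M : Type} [Field M] [Algebra ℂ M] [Algebra K M] [IsScalarTower ℂ K M]
    [FiniteDimensional K M] (τ : M →+* Ω) (hτ : ∀ a, τ (algebraMap K M a) = algebraMap K Ω a)
    (P : Place ℂ K) {u : M} (h : ∀ (Q : Place ℂ M) (e : ℕ), Over Q P e → Q.Reg u) :
    IntO P (τ u) := by
  let iA : Algebra P.O M := ((algebraMap K M).comp P.O.subtype).toAlgebra
  have hst : IsScalarTower P.O K M := IsScalarTower.of_algebraMap_eq fun _ => rfl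
  obtain ⟨p, hp, hpu⟩ := Pool.Agent.N832.CC.integral_of_over P h
  refine ⟨p, hp, ?_⟩
  have h1 : ((algebraMap K Ω).comp P.O.subtype) = τ.comp (algebraMap P.O M) := by
    ext a
    exact (hτ a).symm
  rw [h1, ← Polynomial.hom_eval₂, hpu, map_zero]

/-- integral elements are regular -/
theorem reg_of_intO {M : Type} [Field M] [Algebra ℂ M] [Algebra K M] [IsScalarTower ℂ K M] (τ : M →+* Ω)
    (hτ : ∀ a, τ (algebraMap K M a) = algebraMap K Ω a) {P : Place ℂ K} {Q : Place ℂ M} {e : ℕ}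
    (hQ : Over Q P e) {u : M} (h : IntO P (τ u)) : Q.Reg u := by
  let iA : Algebra P.O M := ((algebraMap K M).comp P.O.subtype).toAlgebra
  refine Place.reg_of_isIntegral (A := P.O) Q (fun a => ?_) ?_
  · exact hQ.reg.2 a.2
  · obtain ⟨p, hp, hpu⟩ := h
    refine ⟨p, hp, τ.injective ?_⟩
    have h1 : ((algebraMap K Ω).comp P.O.subtype) = τ.comp (algebraMap P.O M) := by
      ext a
      exact (hτ a).symm
    rw [h1, ← Polynomial.hom_eval₂] at hpu
    rw [hpu, map_zero]

/-- the derivation of `Ω` extends a derivation of `K` which is regular at `P` -/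
def ExtReg (P : Place ℂ K) (D : Derivation ℂ Ω Ω) : Prop :=
  ∃ D' : Derivation ℂ K K, DerReg P D' ∧ ∀ f, D (algebraMap K Ω f) = algebraMap K Ω (D' f)

/-- the tensors of `Ω` which are regular over the base -/
def regO (K Ω : Type) [Field K] [Field Ω] [Algebra ℂ K] [Algebra K Ω] [Algebra ℂ Ω]
    [IsScalarTower ℂ K Ω] (n m : ℕ) : Submodule ℂ (Ten Ω m) where
  carrier := {T | ∀ P : Place ℂ K, Divisorial n P → ∀ D : Fin m → Derivation ℂ Ω Ω,
    (∀ i, ExtReg P (D i)) → IntO P (T D)}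
  zero_mem' := fun P _ D _ => IntO.zero P
  add_mem' := fun h1 h2 P hP D hD => (h1 P hP D hD).add (h2 P hP D hD)
  smul_mem' := fun c T h P hP D hD => by
    change IntO P (c • T D)
    rw [Algebra.smul_def]
    exact (IntO.const P c).mul (h P hP D hD)

variable {n : ℕ}

theorem exists_ext [Algebra.IsAlgebraic K Ω] (hn : Algebra.trdeg ℂ K = n)
    (D : Derivation ℂ K K) : ∃ D' : Derivation ℂ Ω Ω,
      (∀ f, D' (algebraMap K Ω f) = algebraMap K Ω (D f)) ∧
      ∀ D'' : Derivation ℂ Ω Ω, (∀ f, D'' (algebraMap K Ω f) = algebraMap K Ω (D f)) →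
        D'' = D' := by
  obtain ⟨D', h1, h2, -⟩ := Pool.Agent.W619.Y.pEXT.{0, 0} ℂ K Ω n hn D
  exact ⟨D', h1, h2⟩

theorem trb_up [Algebra.IsAlgebraic K Ω] {x : Fin n → K} (hx : IsTranscendenceBasis ℂ x) :
    IsTranscendenceBasis ℂ (fun i => algebraMap K Ω (x i)) :=
  hx.algebraMap_comp (A := Ω)

end

section

variable {K Ω L : Type} [Field K] [Field Ω] [Field L] [Algebra ℂ K] [Algebra ℂ Ω] [Algebra ℂ L]
  [Algebra K Ω] [IsScalarTower ℂ K Ω] [Algebra.IsAlgebraic K Ω] {n : ℕ}

/-- a place under a divisorial place -/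
theorem below_divL (hessL : Algebra.EssFiniteType ℂ L) (hn : Algebra.trdeg ℂ K = n)
    (hnL : Algebra.trdeg ℂ L = n) (ψ : K →ₐ[ℂ] L) {Q : Place ℂ L} (hQ : Divisorial n Q) :
    ∃ (P : Place ℂ K) (e : ℕ), LiesOver ψ Q P e ∧ Divisorial n P := by
  let _ : Algebra K L := ψ.toRingHom.toAlgebra
  have hst : IsScalarTower ℂ K L := IsScalarTower.of_algebraMap_eq fun c => (ψ.commutes c).symm
  have hfd : FiniteDimensional K L := finite_map hn hnL
  exact ⟨bel K Q, ram K Q, over_bel K Q, divisorial_down (over_bel K Q) hQ⟩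

/-- **Étale correspondences preserve the regular tensors.** -/
theorem regO_pull (hess : Algebra.EssFiniteType ℂ K) (hessL : Algebra.EssFiniteType ℂ L)
    (hn : Algebra.trdeg ℂ K = n) (hnL : Algebra.trdeg ℂ L = n) (p q : K →ₐ[ℂ] L) (j : L →ₐ[ℂ] Ω)
    (g : Ω ≃ₐ[ℂ] Ω) (hp : ∀ a, j (p a) = algebraMap K Ω a)
    (hq : ∀ a, j (q a) = g (algebraMap K Ω a))
    (hunr : ∀ P : Place ℂ K, Divisorial n P → ∀ (Q : Place ℂ L) (e : ℕ), LiesOver p Q P e → e = 1)
    {m : ℕ} {x : Fin n → Ω} {E : Fin n → Derivation ℂ Ω Ω} (hx : IsTranscendenceBasis ℂ x)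
    (hE : ∀ i j, E i (x j) = if i = j then 1 else 0) {T : Ten Ω m} (hT : T ∈ regO K Ω n m) :
    pbM (g : Ω →ₐ[ℂ] Ω) x E T ∈ regO K Ω n m := by
  classical
  intro P hP D hD
  choose D' hD'r hD'e using hD
  obtain ⟨v, hv⟩ : ∃ v, v = pbM (g : Ω →ₐ[ℂ] Ω) x E T D := ⟨_, rfl⟩
  rw [← hv]
  let iL : Algebra K L := p.toRingHom.toAlgebra
  have hstL : IsScalarTower ℂ K L := IsScalarTower.of_algebraMap_eq fun c => (p.commutes c).symm
  have hfdL : FiniteDimensional K L := finite_map hn hnL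
  let iLO : Algebra L Ω := j.toRingHom.toAlgebra
  have hstLO : IsScalarTower ℂ L Ω := IsScalarTower.of_algebraMap_eq fun c => (j.commutes c).symm
  have hstKLO : IsScalarTower K L Ω := IsScalarTower.of_algebraMap_eq fun a => (hp a).symm
  have halgL : Algebra.IsAlgebraic L Ω := Algebra.IsAlgebraic.tower_top (K := K) L
  -- the finite extension
  obtain ⟨sL, hsL⟩ := IntermediateField.fg_top ℂ L
  have hjfg : j.fieldRange.FG := by
    rw [AlgHom.fieldRange_eq_map, ← hsL, IntermediateField.adjoin_map]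
    exact fg_adjoin_of_finite (sL.finite_toSet.image _)
  have hvfg : (IntermediateField.adjoin ℂ ({v} : Set Ω)).FG :=
    fg_adjoin_of_finite (Set.finite_singleton v)
  obtain ⟨M, hM, hjM, hvM⟩ : ∃ M : IntermediateField ℂ Ω, Adm K M ∧ (∀ a, j a ∈ M) ∧ v ∈ M := by
    refine ⟨KO K Ω ⊔ (j.fieldRange ⊔ IntermediateField.adjoin ℂ ({v} : Set Ω)),
      Adm.sup (fg_sup hjfg hvfg), fun a => ?_, ?_⟩
    · exact (le_sup_left.trans le_sup_right : j.fieldRange ≤ _) ⟨a, rfl⟩
    · exact (le_sup_right.trans le_sup_right :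
        IntermediateField.adjoin ℂ ({v} : Set Ω) ≤ _) (IntermediateField.subset_adjoin ℂ _ rfl)
  let iM : Algebra K M := (emb hM.le).toRingHom.toAlgebra
  have hstM : IsScalarTower ℂ K M :=
    IsScalarTower.of_algebraMap_eq fun c => ((emb hM.le).commutes c).symm
  have hessM := ess_M hM
  have hfdM : FiniteDimensional K M := finite_map hn (trdeg_M hn hM)
  let jM : L →ₐ[ℂ] M := AlgHom.codRestrict j M.toSubalgebra hjM
  let iLM : Algebra L M := jM.toRingHom.toAlgebra
  have hstLM : IsScalarTower ℂ L M := IsScalarTower.of_algebraMap_eq fun c => (jM.commutes c).symm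
  have hstKLM : IsScalarTower K L M := IsScalarTower.of_algebraMap_eq fun a =>
    Subtype.ext (hp a).symm
  have hfdLM : FiniteDimensional L M := finite_map hnL (trdeg_M hn hM)
  have hτK : ∀ a, M.val.toRingHom (algebraMap K M a) = algebraMap K Ω a := fun a => rfl
  have hτL : ∀ a, M.val.toRingHom (algebraMap L M a) = algebraMap L Ω a := fun a => rfl
  change IntO P (M.val.toRingHom ⟨v, hvM⟩)
  refine intO_of_places M.val.toRingHom hτK P fun Q e hQ => ?_
  -- the place of `L`
  have hQL := over_bel L Q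
  obtain ⟨QL, hQLd⟩ : ∃ QL, QL = bel L Q := ⟨_, rfl⟩
  rw [← hQLd] at hQL
  have hP1 := over_bel K QL
  have hPeq : bel K QL = P := by
    have h1 : Over Q (bel K QL) (ram L Q * ram K QL) := by
      refine ⟨Nat.mul_pos hQL.1 hP1.1, fun f => ?_⟩
      rw [IsScalarTower.algebraMap_apply K L M, hQL.2, hP1.2]
      push_cast
      ring
    exact (over_unique' h1 hQ).1
  rw [hPeq] at hP1
  have he1 : ram K QL = 1 := hunr P hP QL _ hP1
  rw [he1] at hP1
  have hQLdiv : Divisorial n QL := divisorial_up hP1 hP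
  obtain ⟨P', e', hP', hP'd⟩ := below_divL hessL hn hnL q hQLdiv
  obtain ⟨x', E', i0, hloc⟩ := exists_loc hn hP'd
  choose EO hEO1 hEO2 using fun c => exists_ext (Ω := Ω) hn (E' c)
  have hdual : ∀ a b, EO a (algebraMap K Ω (x' b)) = if a = b then 1 else 0 := by
    intro a b
    rw [hEO1, hloc.dual]
    split_ifs
    · exact map_one _
    · exact map_zero _
  -- the value
  have hval : v = ∑ I : Fin m → Fin n, (∏ k, D k (g (algebraMap K Ω (x' (I k))))) *
      g (T fun k => EO (I k)) := by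
    rw [hv, pbM_indep (g : Ω →ₐ[ℂ] Ω) hx hE (trb_up hloc.bas) hdual T D, pbM_apply]
    rfl
  have hA : ∀ k c, IntO QL (D k (g (algebraMap K Ω (x' c)))) := by
    intro k c
    obtain ⟨DL, hDL, -⟩ := Pool.Agent.W619.Y.pEXT.{0, 0} ℂ K L n hn (D' k)
    obtain ⟨DO, hDO, -⟩ := Pool.Agent.W619.Y.pEXT.{0, 0} ℂ L Ω n hnL DL
    have h1 : D k = DO := by
      obtain ⟨DD, -, hDD⟩ := exists_ext (Ω := Ω) hn (D' k)
      rw [hDD (D k) (hD'e k), hDD DO fun f => by
        rw [IsScalarTower.algebraMap_apply K L Ω, hDO, hDL, ← IsScalarTower.algebraMap_apply]]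
    rw [h1, ← hq]
    change IntO QL (DO (algebraMap L Ω (q (x' c))))
    rw [hDO]
    refine IntO.of_reg (Pool.Agent.W619.Y.pPRES.{0, 0} ℂ K L P QL 1 hP1 DL (fun z hz => ?_)
      (Or.inl rfl) _ ?_)
    · rw [hDL]
      exact hP1.reg.2 (hD'r k z hz)
    · have h2 := hloc.reg c
      rcases h2 with h2 | h2
      · left
        rw [h2, map_zero]
      · right
        rw [hP'.2]
        exact mul_nonneg (Int.natCast_nonneg _) h2
  have hB : ∀ I : Fin m → Fin n, IntO QL (g (T fun k => EO (I k))) := by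
    intro I
    obtain ⟨f, hf, hf0⟩ := hT P' hP'd (fun k => EO (I k)) fun k => ⟨E' (I k), hloc.pres _, hEO1 _⟩
    have hreg : ∀ a : P'.O, QL.Reg (q (a : K)) := by
      rintro ⟨a, ha⟩
      rcases ha with ha | ha
      · left
        change q a = 0
        rw [ha, map_zero]
      · right
        change 0 ≤ QL.ord (q a)
        rw [hP'.2]
        exact mul_nonneg (Int.natCast_nonneg _) ha
    let θ : P'.O →+* QL.O := (q.toRingHom.comp P'.O.subtype).codRestrict QL.O hreg
    refine ⟨f.map θ, hf.map _, ?_⟩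
    rw [Polynomial.eval₂_map]
    have h1 : ((algebraMap L Ω).comp QL.O.subtype).comp θ =
        (g : Ω →ₐ[ℂ] Ω).toRingHom.comp ((algebraMap K Ω).comp P'.O.subtype) := by
      ext a
      exact hq a
    rw [h1]
    have h2 := congrArg (g : Ω →ₐ[ℂ] Ω).toRingHom hf0
    rw [Polynomial.hom_eval₂, map_zero] at h2
    exact h2
  have hint : IntO QL v := by
    rw [hval]
    exact IntO.sum _ fun I _ => (IntO.prod _ fun k _ => hA k (I k)).mul (hB I)
  exact reg_of_intO M.val.toRingHom hτL hQL (u := (⟨v, hvM⟩ : M)) hint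

end

end Pool.Agent.T2h12.TN
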