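import Pool.Agent.T2h12.TN.W

/-!
The determinant lemma for an arbitrary space of vectors in a finite dimensional space.
-/

set_option autoImplicit false
set_option linter.unusedSectionVars false

open Module

namespace Pool.Agent.T2h12.TN

section

variable {k K W : Type} [Field k] [Field K] [Algebra k K] [AddCommGroup W] [Module K W]
  [Module k W] [IsScalarTower k K W]

/-- the values of functionals on a space of vectors -/
def vals {I : Type} (V : Submodule k W) (ℓ : I → Dual K W) : Submodule k K :=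
  Submodule.span k {z | ∃ i, ∃ v ∈ V, ℓ i v = z}

theorem functional_vals [FiniteDimensional K W] {I : Type} (V : Submodule k W)
    (ℓ : I → Dual K W) (hℓ : ∀ w, (∀ i, ℓ i w = 0) → w = 0) (f : Dual K W) :
    ∃ A : Submodule k K, A.FG ∧ ∀ v ∈ V, f v ∈ A * vals V ℓ := by
  have htop : Submodule.span K (Set.range ℓ) = ⊤ := by
    have h1 : (Submodule.span K (Set.range ℓ)).dualCoannihilator = ⊥ := by
      rw [eq_bot_iff]
      intro w hw
      rw [Submodule.mem_dualCoannihilator] at hw
      exact hℓ w fun i => hw _ (Submodule.subset_span ⟨i, rfl⟩)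
    rw [← Subspace.dualCoannihilator_dualAnnihilator_eq (W := Submodule.span K (Set.range ℓ)), h1,
      Submodule.dualAnnihilator_bot]
  have hf : f ∈ Submodule.span K (Set.range ℓ) := by
    rw [htop]
    trivial
  induction hf using Submodule.span_induction with
  | mem x hx =>
    obtain ⟨i, rfl⟩ := hx
    refine ⟨Submodule.span k {1}, Submodule.fg_span_singleton 1, fun v hv => ?_⟩
    rw [← Submodule.one_eq_span, one_mul]
    exact Submodule.subset_span ⟨i, v, hv, rfl⟩
  | zero => exact ⟨⊥, Submodule.fg_bot, fun v _ => Submodule.zero_mem _⟩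
  | add x y _ _ hx hy =>
    obtain ⟨A, hA, hAv⟩ := hx
    obtain ⟨B, hB, hBv⟩ := hy
    refine ⟨A ⊔ B, hA.sup hB, fun v hv => Submodule.add_mem _ ?_ ?_⟩
    · exact (mul_le_mul' le_sup_left le_rfl : A * vals V ℓ ≤ _) (hAv v hv)
    · exact (mul_le_mul' le_sup_right le_rfl : B * vals V ℓ ≤ _) (hBv v hv)
  | smul a x _ hx =>
    obtain ⟨A, hA, hAv⟩ := hx
    refine ⟨Submodule.span k {a} * A, (Submodule.fg_span_singleton a).mul hA, fun v hv => ?_⟩
    rw [mul_assoc]
    exact Submodule.mul_mem_mul (Submodule.subset_span rfl) (hAv v hv)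

/-- **The determinant lemma.** -/
theorem wedge_all [FiniteDimensional K W] (V : Submodule k W) {v0 : W} (hv0 : v0 ∈ V)
    (h0 : v0 ≠ 0) {I : Type} (ℓ : I → Dual K W) (hℓ : ∀ w, (∀ i, ℓ i w = 0) → w = 0) :
    ∃ U : Submodule k K, (1 : K) ∈ U ∧ (∀ a : K, a • v0 ∈ V → a ∈ U) ∧
      (∃ (A : Submodule k K) (r : ℕ), A.FG ∧ U ≤ (A * vals V ℓ) ^ r) ∧
      ∀ (ψ : K →ₐ[k] K) (Ψ : W →+ W), (∀ a w, Ψ (a • w) = ψ a • Ψ w) →
        (∀ v ∈ V, Ψ v ∈ V) →
        (∀ (ι : Type) [Fintype ι] (w : ι → W), LinearIndependent K w →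
          LinearIndependent K (fun a => Ψ (w a))) →
        ∃ g : K, g ≠ 0 ∧ ∀ u ∈ U, g * ψ u ∈ U := by
  classical
  obtain ⟨b, hbV, hvb, hVb, hbi⟩ := exists_linearIndepOn_id_extension (K := K) (s := {v0})
    (t := (V : Set W)) (by
      rw [LinearIndepOn, linearIndependent_unique_iff]
      exact h0) (by
      rintro _ rfl
      exact hv0)
  have hv0b : v0 ∈ b := hvb rfl
  have hind : LinearIndependent K (fun a : b => (a : W)) := hbi
  have hfin : Finite b := by
    have := hind.lt_aleph0_of_finiteDimensional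
    exact Cardinal.mk_lt_aleph0_iff.1 this
  have := Fintype.ofFinite b
  obtain ⟨c, hc⟩ : ∃ c : W →ₗ[K] (b → K), ∀ a : b, c a = Pi.single a 1 := by
    obtain ⟨c, hc⟩ := LinearMap.exists_extend (p := Submodule.span K (Set.range fun a : b => (a : W)))
      ((Basis.span hind).equivFun.toLinearMap)
    refine ⟨c, fun a => ?_⟩
    have h1 := LinearMap.congr_fun hc (Basis.span hind a)
    rw [LinearMap.comp_apply, Submodule.subtype_apply, LinearEquiv.coe_coe] at h1
    have h2 : ((Basis.span hind a : Submodule.span K (Set.range fun a : b => (a : W))) : W) = a :=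
      congrArg Subtype.val (Basis.span_apply hind a)
    rw [h2] at h1
    rw [h1]
    funext l
    rw [Basis.equivFun_self, Pi.single_apply]
    by_cases hal : a = l
    · rw [if_pos hal, if_pos hal.symm]
    · rw [if_neg hal, if_neg (Ne.symm hal)]
  have hexp : ∀ w ∈ Submodule.span K b, w = ∑ a : b, c w a • (a : W) := by
    intro w hw
    induction hw using Submodule.span_induction with
    | mem x hx =>
      have h1 := hc ⟨x, hx⟩
      change c x = _ at h1
      rw [h1, Finset.sum_eq_single (⟨x, hx⟩ : b)]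
      · rw [Pi.single_eq_same, one_smul]
      · intro a _ hne
        rw [Pi.single_eq_of_ne hne, zero_smul]
      · intro h
        exact absurd (Finset.mem_univ _) h
    | zero =>
      rw [map_zero, Finset.sum_eq_zero]
      intro a _
      rw [Pi.zero_apply, zero_smul]
    | add x y _ _ hx hy =>
      conv_lhs => rw [hx, hy]
      rw [map_add, ← Finset.sum_add_distrib]
      refine Finset.sum_congr rfl fun a _ => ?_
      rw [Pi.add_apply, add_smul]
    | smul t x _ hx =>
      conv_lhs => rw [hx]
      rw [map_smul, Finset.smul_sum]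
      refine Finset.sum_congr rfl fun a _ => ?_
      rw [Pi.smul_apply, smul_assoc]
  have hexpV : ∀ w ∈ V, w = ∑ a : b, c w a • (a : W) := fun w hw => hexp w (hVb hw)
  obtain ⟨M, hM⟩ : ∃ M : (b → W) → Matrix b b K, M = fun v => Matrix.of fun i j => c (v j) i :=
    ⟨_, rfl⟩
  have hMa : ∀ v i j, M v i j = c (v j) i := fun v i j => by rw [hM]; rfl
  obtain ⟨U, hU⟩ : ∃ U : Submodule k K, U = Submodule.span k
      {x | ∃ v : b → W, (∀ i, v i ∈ V) ∧ (M v).det = x} := ⟨_, rfl⟩
  have hdetU : ∀ v : b → W, (∀ i, v i ∈ V) → (M v).det ∈ U := fun v hv => by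
    rw [hU]
    exact Submodule.subset_span ⟨v, hv, rfl⟩
  have hM1 : M (fun a => (a : W)) = 1 := by
    ext i j
    rw [hMa, hc, Pi.single_apply, Matrix.one_apply]
  refine ⟨U, ?_, ?_, ?_, ?_⟩
  · have h1 := hdetU (fun a => (a : W)) fun i => hbV i.2
    rwa [hM1, Matrix.det_one] at h1
  · intro a ha
    have h1 := hdetU (Function.update (fun a => (a : W)) ⟨v0, hv0b⟩ (a • v0)) (by
      intro i
      by_cases hi : i = ⟨v0, hv0b⟩
      · rw [hi, Function.update_self]
        exact ha
      · rw [Function.update_of_ne hi]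
        exact hbV i.2)
    have h2 : M (Function.update (fun a => (a : W)) ⟨v0, hv0b⟩ (a • v0)) =
        Matrix.updateCol 1 ⟨v0, hv0b⟩ (a • fun i => (1 : Matrix b b K) i ⟨v0, hv0b⟩) := by
      ext i j
      rw [hMa, Matrix.updateCol_apply]
      by_cases hj : j = ⟨v0, hv0b⟩
      · rw [hj, Function.update_self, if_pos rfl, map_smul, Pi.smul_apply, Pi.smul_apply]
        congr 1
        have := hc ⟨v0, hv0b⟩
        change c v0 = _ at this
        rw [this, Pi.single_apply, Matrix.one_apply]
      · rw [Function.update_of_ne hj, if_neg hj, hc, Pi.single_apply, Matrix.one_apply]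
    rw [h2, Matrix.det_updateCol_smul, Matrix.updateCol_eq_self, Matrix.det_one, mul_one] at h1
    exact h1
  · -- the bound
    choose A hA hAv using fun i : b => functional_vals V ℓ hℓ ((LinearMap.proj i) ∘ₗ c)
    obtain ⟨B, hB⟩ : ∃ B : Submodule k K, B = ⨆ i, A i := ⟨_, rfl⟩
    refine ⟨B, Fintype.card b, ?_, ?_⟩
    · rw [hB]
      exact Submodule.fg_iSup _ hA
    have hCm : ∀ v ∈ V, ∀ i, c v i ∈ B * vals V ℓ := by
      intro v hv i
      rw [hB]
      exact (mul_le_mul' (le_iSup A i) le_rfl : A i * vals V ℓ ≤ _) (hAv i v hv)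
    rw [hU, Submodule.span_le]
    rintro _ ⟨v, hv, rfl⟩
    change (M v).det ∈ (B * vals V ℓ) ^ (Fintype.card b)
    rw [Matrix.det_apply]
    refine Submodule.sum_mem _ fun σ _ => ?_
    have h1 : ∏ i, M v (σ i) i ∈ (B * vals V ℓ) ^ (Fintype.card b) := by
      have := prod_mem_pow' (B * vals V ℓ) Finset.univ (fun i : b => M v (σ i) i) (fun i _ => by
        rw [hMa]
        exact hCm _ (hv i) _)
      rwa [Finset.card_univ] at this
    rcases Int.units_eq_one_or (Equiv.Perm.sign σ) with h2 | h2
    · rw [h2, one_smul]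
      exact h1
    · rw [h2, Units.neg_smul, one_smul]
      exact Submodule.neg_mem _ h1
  · intro ψ Ψ hsemi hΨV hΨi
    have hcΨ : ∀ v ∈ V, ∀ l, c (Ψ v) l = ∑ i : b, c (Ψ i) l * ψ (c v i) := by
      intro v hv l
      conv_lhs => rw [hexpV v hv]
      rw [map_sum, map_sum, Finset.sum_apply]
      refine Finset.sum_congr rfl fun i _ => ?_
      rw [hsemi, map_smul, Pi.smul_apply, smul_eq_mul, mul_comm]
    have hmat : ∀ v : b → W, (∀ i, v i ∈ V) →
        M (fun i => Ψ (v i)) = M (fun i => Ψ i) * (M v).map ψ := by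
      intro v hv
      ext i j
      rw [Matrix.mul_apply, hMa, hcΨ _ (hv j)]
      refine Finset.sum_congr rfl fun l _ => ?_
      rw [hMa, Matrix.map_apply, hMa]
    have hg : (M (fun i => Ψ i)).det ≠ 0 := by
      have h1 : LinearIndependent K (fun i : b => Ψ i) := hΨi b (fun i => (i : W)) hind
      have h2 : LinearIndependent K (fun i : b => c (Ψ i)) := by
        rw [Fintype.linearIndependent_iff] at h1 ⊢
        intro g hg0
        apply h1
        have h3 : ∑ i, g i • Ψ (i : W) ∈ Submodule.span K b :=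
          Submodule.sum_mem _ fun i _ => Submodule.smul_mem _ _ (hVb (hΨV _ (hbV i.2)))
        rw [hexp _ h3]
        refine Finset.sum_eq_zero fun l _ => ?_
        rw [map_sum]
        simp only [map_smul]
        rw [hg0, Pi.zero_apply, zero_smul]
      have h3 : LinearIndependent K (M (fun i => Ψ i)).col := by
        rw [hM]
        exact h2
      have h4 := Matrix.linearIndependent_cols_iff_isUnit.1 h3
      exact ((Matrix.isUnit_iff_isUnit_det _).1 h4).ne_zero
    refine ⟨_, hg, fun u hu => ?_⟩
    have hu' := hu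
    rw [hU] at hu'
    induction hu' using Submodule.span_induction with
    | mem x hx =>
      obtain ⟨v, hv, rfl⟩ := hx
      have h1 := hdetU (fun i => Ψ (v i)) fun i => hΨV _ (hv i)
      rw [hmat v hv, Matrix.det_mul] at h1
      have h2 : ((M v).map ψ).det = ψ (M v).det := by
        exact (AlgHom.map_det ψ (M v)).symm
      rwa [h2] at h1
    | zero => rw [map_zero, mul_zero]; exact Submodule.zero_mem _
    | add x y hx hy h1 h2 =>
      rw [map_add, mul_add]
      rw [← hU] at hx hy
      exact Submodule.add_mem _ (h1 hx) (h2 hy)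
    | smul t x hx h1 =>
      rw [← hU] at hx
      have e1 : (M fun i => Ψ i).det * ψ (t • x) = t • ((M fun i => Ψ i).det * ψ x) := by
        rw [map_smul, mul_smul_comm]
      rw [e1]
      exact Submodule.smul_mem _ _ (h1 hx)

end

end Pool.Agent.T2h12.TN
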