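import Pool.Agent.T2h12.TN.OA
import Pool.Agent.T2h12.Coef

/-!
Bounds for the orders of functions on the finite extensions of a function field.
-/

set_option autoImplicit false
set_option linter.overlappingInstances false
set_option linter.unusedSectionVars false

open FF Module IntermediateField Pool.Agent.W602.GT Pool.Agent.W603.LV Pool.Agent.Y172
  Pool.Agent.Y191 Pool.Agent.R887 Pool.Agent.N110 Pool.Agent.T2h12.OM

namespace Pool.Agent.T2h12.TN

section

variable {K Ω : Type} [Field K] [Field Ω] [Algebra ℂ K] [Algebra ℂ Ω] [Algebra K Ω]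
  [IsScalarTower ℂ K Ω] [Algebra.IsAlgebraic K Ω] {N n : ℕ} {y : Fin (N + 1) → K}

theorem place_up [Algebra.EssFiniteType ℂ K] (hn : Algebra.trdeg ℂ K = n)
    {M M' : IntermediateField ℂ Ω} (hM : Adm K M) (hM' : Adm K M') (h : M ≤ M')
    (Q : Place ℂ M) : ∃ (Q' : Place ℂ M') (e : ℕ), 0 < e ∧
      ∀ f : M, Q'.ord (inclusion h f) = e * Q.ord f := by
  let _ : Algebra M M' := (inclusion h).toRingHom.toAlgebra
  have : IsScalarTower ℂ M M' := IsScalarTower.of_algebraMap_eq fun c =>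
    ((inclusion h).commutes c).symm
  have := ess_M hM'
  have : FiniteDimensional M M' := finite_map (trdeg_M hn hM) (trdeg_M hn hM')
  obtain ⟨Q', e, hQ⟩ := exists_above (L := M') Q
  exact ⟨Q', e, hQ.1, hQ.2⟩

theorem place_down [Algebra.EssFiniteType ℂ K] (hn : Algebra.trdeg ℂ K = n)
    {M M' : IntermediateField ℂ Ω} (hM : Adm K M) (hM' : Adm K M') (h : M ≤ M')
    (Q' : Place ℂ M') : ∃ (Q : Place ℂ M) (e : ℕ), 0 < e ∧
      ∀ f : M, Q'.ord (inclusion h f) = e * Q.ord f := by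
  let _ : Algebra M M' := (inclusion h).toRingHom.toAlgebra
  have : IsScalarTower ℂ M M' := IsScalarTower.of_algebraMap_eq fun c =>
    ((inclusion h).commutes c).symm
  have := ess_M hM'
  have : FiniteDimensional M M' := finite_map (trdeg_M hn hM) (trdeg_M hn hM')
  obtain ⟨Q, e, hQ⟩ := exists_below (K := M) Q'
  exact ⟨Q, e, hQ.1, hQ.2⟩

/-- the poles of `v` are at most `B H` -/
def BdM (y : Fin (N + 1) → K) (i : Fin (N + 1)) {M : IntermediateField ℂ Ω} (h : KO K Ω ≤ M)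
    (B : ℕ) (v : M) : Prop :=
  ∀ Q : Place ℂ M, v = 0 ∨ ∃ l, y l ≠ 0 ∧ (B : ℤ) * Q.ord (emb h (y l / y i)) ≤ Q.ord v

/-- the poles of `z` are at most `B H` -/
def BndO (y : Fin (N + 1) → K) (i : Fin (N + 1)) (B : ℕ) (z : Ω) : Prop :=
  ∃ (M : IntermediateField ℂ Ω) (hM : Adm K M) (v : M), (v : Ω) = z ∧ BdM y i hM.le B v

theorem adm_sup {M M' : IntermediateField ℂ Ω} (hM : Adm K M) (hM' : Adm K M') :
    Adm K (M ⊔ M') := ⟨hM.le.trans le_sup_left, fg_sup hM.fg hM'.fg⟩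

theorem BndO.at [Algebra.EssFiniteType ℂ K] (hn : Algebra.trdeg ℂ K = n) {i : Fin (N + 1)}
    {B : ℕ} {z : Ω} (h : BndO y i B z) {M : IntermediateField ℂ Ω} (hM : Adm K M) {v : M}
    (hv : (v : Ω) = z) : BdM y i hM.le B v := by
  obtain ⟨M1, hM1, v1, hv1, hb⟩ := h
  intro Q
  by_cases hv0 : v = 0
  · exact Or.inl hv0
  right
  have hM' := adm_sup hM hM1
  obtain ⟨Q', e, he, hQ'⟩ := place_up hn hM hM' le_sup_left Q
  obtain ⟨Q1, e1, he1, hQ1⟩ := place_down hn hM1 hM' le_sup_right Q'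
  have hv10 : v1 ≠ 0 := by
    rintro rfl
    apply hv0
    apply Subtype.ext
    rw [hv, ← hv1]
    rfl
  obtain ⟨l, hl, hle⟩ := (hb Q1).resolve_left hv10
  refine ⟨l, hl, ?_⟩
  have h1 : inclusion (le_sup_left : M ≤ M ⊔ M1) v = inclusion (le_sup_right : M1 ≤ M ⊔ M1) v1 :=
    Subtype.ext (by
      change (v : Ω) = v1
      rw [hv, hv1])
  have h2 : inclusion (le_sup_left : M ≤ M ⊔ M1) (emb hM.le (y l / y i)) =
      inclusion (le_sup_right : M1 ≤ M ⊔ M1) (emb hM1.le (y l / y i)) := rfl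
  have h3 := hQ' v
  rw [h1, hQ1] at h3
  have h4 := hQ' (emb hM.le (y l / y i))
  rw [h2, hQ1] at h4
  have h5 := mul_le_mul_of_nonneg_left hle (Int.natCast_nonneg e1)
  rw [h3] at h5
  have h6 : (e : ℤ) * (B * Q.ord (emb hM.le (y l / y i))) ≤ e * Q.ord v := by
    rw [← mul_assoc, mul_comm (e : ℤ) B, mul_assoc, ← h4]
    calc (B : ℤ) * (e1 * Q1.ord (emb hM1.le (y l / y i)))
        = e1 * (B * Q1.ord (emb hM1.le (y l / y i))) := by ring
      _ ≤ e * Q.ord v := h5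
  exact le_of_mul_le_mul_left h6 (by exact_mod_cast he)

variable {i : Fin (N + 1)}

theorem BdM.add {M : IntermediateField ℂ Ω} {h : KO K Ω ≤ M} {B : ℕ} {v v' : M}
    (h1 : BdM y i h B v) (h2 : BdM y i h B v') : BdM y i h B (v + v') := by
  intro Q
  by_cases hv : v = 0
  · rw [hv, zero_add]
    exact h2 Q
  by_cases hv' : v' = 0
  · rw [hv', add_zero]
    exact h1 Q
  by_cases h0 : v + v' = 0
  · exact Or.inl h0
  right
  obtain ⟨l, hl, hle⟩ := (h1 Q).resolve_left hv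
  obtain ⟨l', hl', hle'⟩ := (h2 Q).resolve_left hv'
  have h3 := Q.ord_add hv hv' h0
  rcases le_total (Q.ord v) (Q.ord v') with h4 | h4
  · rw [min_eq_left h4] at h3
    exact ⟨l, hl, hle.trans h3⟩
  · rw [min_eq_right h4] at h3
    exact ⟨l', hl', hle'.trans h3⟩

theorem BdM.mul {M : IntermediateField ℂ Ω} {h : KO K Ω ≤ M} {B B' : ℕ} {v v' : M}
    (h1 : BdM y i h B v) (h2 : BdM y i h B' v') : BdM y i h (B + B') (v * v') := by
  intro Q
  by_cases hv : v = 0
  · left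
    rw [hv, zero_mul]
  by_cases hv' : v' = 0
  · left
    rw [hv', mul_zero]
  right
  obtain ⟨l, hl, hle⟩ := (h1 Q).resolve_left hv
  obtain ⟨l', hl', hle'⟩ := (h2 Q).resolve_left hv'
  rw [Q.ord_mul hv hv']
  rcases le_total (Q.ord (emb h (y l / y i))) (Q.ord (emb h (y l' / y i))) with h4 | h4
  · refine ⟨l, hl, ?_⟩
    have h5 := mul_le_mul_of_nonneg_left h4 (Int.natCast_nonneg B')
    push_cast
    linarith
  · refine ⟨l', hl', ?_⟩
    have h5 := mul_le_mul_of_nonneg_left h4 (Int.natCast_nonneg B)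
    push_cast
    linarith

theorem exists_both [Algebra.EssFiniteType ℂ K] (z z' : Ω) :
    ∃ M : IntermediateField ℂ Ω, Adm K M ∧ z ∈ M ∧ z' ∈ M := by
  classical
  obtain ⟨M, hM, -, h⟩ := exists_adm (K := K) (∅ : Multiset (OCl Ω)) {z, z'}
  exact ⟨M, hM, h z (by simp), h z' (by simp)⟩

theorem BndO.add [Algebra.EssFiniteType ℂ K] (hn : Algebra.trdeg ℂ K = n) {B : ℕ} {z z' : Ω}
    (h : BndO y i B z) (h' : BndO y i B z') : BndO y i B (z + z') := by
  obtain ⟨M, hM, hz, hz'⟩ := exists_both (K := K) z z'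
  exact ⟨M, hM, ⟨z, hz⟩ + ⟨z', hz'⟩, rfl, (h.at hn hM rfl).add (h'.at hn hM rfl)⟩

theorem BndO.mul [Algebra.EssFiniteType ℂ K] (hn : Algebra.trdeg ℂ K = n) {B B' : ℕ} {z z' : Ω}
    (h : BndO y i B z) (h' : BndO y i B' z') : BndO y i (B + B') (z * z') := by
  obtain ⟨M, hM, hz, hz'⟩ := exists_both (K := K) z z'
  exact ⟨M, hM, ⟨z, hz⟩ * ⟨z', hz'⟩, rfl, (h.at hn hM rfl).mul (h'.at hn hM rfl)⟩

theorem BndO.zero [Algebra.EssFiniteType ℂ K] (B : ℕ) : BndO y i B (0 : Ω) := by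
  obtain ⟨M, hM, hz, -⟩ := exists_both (K := K) (0 : Ω) 0
  exact ⟨M, hM, 0, rfl, fun Q => Or.inl rfl⟩

theorem BndO.const [Algebra.EssFiniteType ℂ K] (hi : y i ≠ 0) (c : ℂ) :
    BndO y i 0 (algebraMap ℂ Ω c) := by
  obtain ⟨M, hM, hz, -⟩ := exists_both (K := K) (0 : Ω) 0
  refine ⟨M, hM, algebraMap ℂ M c, rfl, fun Q => ?_⟩
  by_cases hc : c = 0
  · left
    rw [hc, map_zero]
  · right
    refine ⟨i, hi, ?_⟩
    rw [Q.ord_const hc, Nat.cast_zero, zero_mul]

/-- the functions `z` such that the poles of `h z` are at most `B H` -/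
def SB [Algebra.EssFiniteType ℂ K] (hn : Algebra.trdeg ℂ K = n) (hi : y i ≠ 0) (h : Ω) (B : ℕ) :
    Submodule ℂ Ω where
  carrier := {z | BndO y i B (h * z)}
  zero_mem' := by
    change BndO y i B (h * 0)
    rw [mul_zero]
    exact BndO.zero B
  add_mem' := fun h1 h2 => by
    change BndO y i B (h * (_ + _))
    rw [mul_add]
    exact BndO.add hn h1 h2
  smul_mem' := fun c z h1 => by
    change BndO y i B (h * (c • z))
    rw [Algebra.smul_def, mul_left_comm]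
    have := BndO.mul hn (BndO.const (Ω := Ω) hi c) h1
    rwa [zero_add] at this

theorem mem_SB [Algebra.EssFiniteType ℂ K] {hn : Algebra.trdeg ℂ K = n} {hi : y i ≠ 0} {h z : Ω}
    {B : ℕ} : z ∈ SB hn hi h B ↔ BndO y i B (h * z) := Iff.rfl

theorem SB_mul [Algebra.EssFiniteType ℂ K] (hn : Algebra.trdeg ℂ K = n) (hi : y i ≠ 0)
    (h h' : Ω) (B B' : ℕ) : SB hn hi h B * SB hn hi h' B' ≤ SB hn hi (h * h') (B + B') := by
  rw [Submodule.mul_le]
  intro a ha b hb
  rw [mem_SB]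
  have := BndO.mul hn ha hb
  rwa [show h * h' * (a * b) = h * a * (h' * b) by ring]

theorem SB_pow [Algebra.EssFiniteType ℂ K] (hn : Algebra.trdeg ℂ K = n) (hi : y i ≠ 0)
    (h : Ω) (B r : ℕ) : SB hn hi h B ^ r ≤ SB hn hi (h ^ r) (r * B) := by
  induction r with
  | zero =>
    intro z hz
    rw [pow_zero, Submodule.mem_one] at hz
    obtain ⟨c, rfl⟩ := hz
    rw [mem_SB, pow_zero, one_mul, zero_mul]
    exact BndO.const hi c
  | succ r ih =>
    rw [pow_succ, pow_succ]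
    refine (mul_le_mul' ih le_rfl).trans ((SB_mul hn hi _ _ _ _).trans ?_)
    rw [show r * B + B = (r + 1) * B by ring]

/-- a common denominator of finitely many functions -/
theorem fin_SB (hy : NormalModel y) [Algebra.EssFiniteType ℂ K] (hn : Algebra.trdeg ℂ K = n)
    (hi : y i ≠ 0) {A : Submodule ℂ Ω} (hA : A.FG) :
    ∃ (B : ℕ) (h : Ω), h ≠ 0 ∧ A ≤ SB hn hi h B := by
  classical
  obtain ⟨t, ht⟩ := hA
  obtain ⟨M, hM, -, htM⟩ := exists_adm (K := K) (∅ : Multiset (OCl Ω)) t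
  obtain ⟨μ, hμ⟩ := exists_isMin (k := ℂ) (S := SM y i M) (by
    rw [SM_eq hM.le]
    exact Set.finite_range _) ⟨1, by
    rw [SM_eq hM.le]
    exact ⟨i, by
      beta_reduce
      rw [div_self hi, map_one]⟩, one_ne_zero⟩
  obtain ⟨B, f, hf, hB⟩ := dom_fin hy hi hM hμ
    (Finset.image (fun z : {x // x ∈ t} => (⟨z.1, htM _ z.2⟩ : M)) t.attach)
  refine ⟨B, (f : Ω), fun h0 => hf (Subtype.ext h0), ?_⟩
  rw [← ht, Submodule.span_le]
  intro z hz
  refine ⟨M, hM, f * ⟨z, htM z hz⟩, rfl, fun Q => ?_⟩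
  have h1 := hB ⟨z, htM z hz⟩ (by
    rw [Finset.mem_image]
    exact ⟨⟨z, hz⟩, Finset.mem_attach _ _, rfl⟩) Q
  rcases h1 with h1 | h1
  · exact Or.inl h1
  right
  obtain ⟨s, hs, hs0, hsμ⟩ := hμ.att Q
  rw [SM_eq hM.le] at hs
  obtain ⟨l, rfl⟩ := hs
  refine ⟨l, fun h0 => hs0 ?_, ?_⟩
  · beta_reduce
    rw [h0, zero_div, map_zero]
  · rw [hsμ]
    exact h1

/-- bounds at the prime divisors are sufficient -/
theorem bd_of_prime (hy : NormalModel y) (hn : Algebra.trdeg ℂ K = n) (hi : y i ≠ 0)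
    {M : IntermediateField ℂ Ω} (hM : Adm K M) {B : ℕ} {v : M}
    (h : ∀ P, IsPrimeDivisor y P → ∀ l, Centred y l P → ∀ (Q : Place ℂ M) (e : ℕ),
      LiesOver (emb hM.le) Q P e → v = 0 ∨ 0 ≤ Q.ord v + B * Q.ord (emb hM.le (y i / y l))) :
    BdM y i hM.le B v := by
  have hess := hy.ess
  intro Q
  by_cases hv : v = 0
  · exact Or.inl hv
  right
  let iM : Algebra K M := (emb hM.le).toRingHom.toAlgebra
  have hstM : IsScalarTower ℂ K M :=
    IsScalarTower.of_algebraMap_eq fun c => ((emb hM.le).commutes c).symm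
  have hessM := ess_M hM
  have hfdM : FiniteDimensional K M := finite_map hn (trdeg_M hn hM)
  obtain ⟨r, hr1, hr2, hc, hle⟩ := ord_root (K := K) Q hv
  obtain ⟨c, hcd⟩ : ∃ c, c = (minpoly K v).coeff ((minpoly K v).natDegree - r) := ⟨_, rfl⟩
  rw [← hcd] at hc hle
  have hbnd : Bnd ℂ (affS y i) (r * B) c := bnd_prime hy hi hc fun P hP l hl => by
    have h1 := ord_coeff P (z := v) (s := -(B * P.ord (y i / y l))) (fun Q' e hQ' => by
      refine (h P hP l hl Q' e hQ').imp_right fun h2 => ?_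
      have h3 : Q'.ord (emb hM.le (y i / y l)) = e * P.ord (y i / y l) := hQ'.2 _
      rw [h3] at h2
      linarith) ((minpoly K v).natDegree - r)
    rw [← hcd] at h1
    have h2 := h1.resolve_left hc
    rw [show (minpoly K v).natDegree - ((minpoly K v).natDegree - r) = r by omega] at h2
    push_cast
    linarith
  obtain ⟨_, ⟨l, rfl⟩, hl0, h1⟩ := hbnd (bel K Q)
  have hQ := over_bel K Q
  refine ⟨l, fun h0 => hl0 (by change y l / y i = 0; rw [h0, zero_div]), ?_⟩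
  have h2 : Q.ord (emb hM.le (y l / y i)) = ram K Q * (bel K Q).ord (y l / y i) := hQ.2 _
  have h3 : Q.ord (algebraMap K M c) = ram K Q * (bel K Q).ord c := hQ.2 _
  rw [h3] at hle
  rw [h2]
  have h4 := mul_le_mul_of_nonneg_left h1 (Int.natCast_nonneg (ram K Q))
  have h5 : (r : ℤ) * (B * (ram K Q * (bel K Q).ord (y l / y i))) ≤ r * Q.ord v := by
    push_cast at h4
    linarith
  exact le_of_mul_le_mul_left h5 (by exact_mod_cast hr1)

/-- **The uniform bound** for functions on the finite extensions. -/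
theorem unifO (hy : NormalModel y) (hn : Algebra.trdeg ℂ K = n) (hi : y i ≠ 0)
    (E : Fin n → Derivation ℂ K K) (m : ℕ) : ∃ (B : ℕ) (g : K), g ≠ 0 ∧ ∀ a : Ω,
      (∀ P, IsPrimeDivisor y P → ∀ t : K, (∀ i, DerReg P (t • E i)) →
        IntO P (algebraMap K Ω t ^ m * a)) → BndO y i B (algebraMap K Ω g * a) := by
  classical
  have hess := hy.ess
  have h1 : ∀ j, ∃ s : K, s ≠ 0 ∧ (y j ≠ 0 → s ∈ chart y j) ∧
      (y j ≠ 0 → ∀ i, ∀ f ∈ chart y j, s * E i f ∈ chart y j) := by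
    intro j
    by_cases hj : y j = 0
    · exact ⟨1, one_ne_zero, fun h => absurd hj h, fun h => absurd hj h⟩
    · obtain ⟨s, hs, hs0, hsD⟩ := exists_den_frame hy hj E
      exact ⟨s, hs0, fun _ => hs, fun _ => hsD⟩
  choose s hs0 hs hsD using h1
  obtain ⟨A', hA'⟩ : ∃ A' : Place ℂ K → ℚ, A' = fun P => (m : ℚ) * ∑ j, |(P.ord (s j) : ℚ)| :=
    ⟨_, rfl⟩
  have hEff : Effective y A' := by
    refine ⟨fun P _ => ?_, ?_⟩
    · rw [hA']
      exact mul_nonneg (Nat.cast_nonneg _) (Finset.sum_nonneg fun j _ => abs_nonneg _)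
    · refine (Set.finite_iUnion fun j => finite_ord hy (hs0 j)).subset ?_
      rintro P ⟨hP, hne⟩
      rw [Set.mem_iUnion]
      by_contra hcon
      push Not at hcon
      apply hne
      rw [hA']
      beta_reduce
      rw [Finset.sum_eq_zero, mul_zero]
      intro j _
      have h2 : P.ord (s j) = 0 := by
        by_contra h3
        exact hcon j ⟨hP, h3⟩
      rw [h2, Int.cast_zero, abs_zero]
  obtain ⟨H, hH, hHP⟩ := exists_hyp hy hi
  obtain ⟨g, B, hg0, hgb⟩ := dominate hy hEff hi hH hHP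
  refine ⟨B, g, hg0, fun a ha => ?_⟩
  obtain ⟨M, hM, haM, -⟩ := exists_both (K := K) a a
  refine ⟨M, hM, emb hM.le g * ⟨a, haM⟩, rfl, bd_of_prime hy hn hi hM fun P hP l hl Q e hQ => ?_⟩
  by_cases ha0 : (⟨a, haM⟩ : M) = 0
  · left
    rw [ha0, mul_zero]
  right
  let iM : Algebra K M := (emb hM.le).toRingHom.toAlgebra
  have hstM : IsScalarTower ℂ K M :=
    IsScalarTower.of_algebraMap_eq fun c => ((emb hM.le).commutes c).symm
  have h2 := ha P hP (s l) fun i => derReg_of_chart hP hl fun f hf => hsD l hl.1 i f hf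
  have h3 : Q.Reg (emb hM.le (s l) ^ m * ⟨a, haM⟩) :=
    reg_of_intO (K := K) M.val.toRingHom (fun _ => rfl) (P := P) (Q := Q) (e := e) hQ h2
  have hsl0 : emb hM.le (s l) ≠ 0 := by
    rw [Ne, map_eq_zero]
    exact hs0 l
  have hg0' : emb hM.le g ≠ 0 := by rwa [Ne, map_eq_zero]
  have h4 := (Q.reg_iff (mul_ne_zero (pow_ne_zero _ hsl0) ha0)).1 h3
  rw [Q.ord_mul (pow_ne_zero _ hsl0) ha0, Q.ord_pow, hQ.2] at h4
  have h5 := hgb P hP
  rw [hHP P l hP hl, hA'] at h5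
  beta_reduce at h5
  have h6 : |(P.ord (s l) : ℚ)| ≤ ∑ j, |(P.ord (s j) : ℚ)| :=
    Finset.single_le_sum (f := fun j => |(P.ord (s j) : ℚ)|) (fun j _ => abs_nonneg _)
      (Finset.mem_univ l)
  have h7 := mul_le_mul_of_nonneg_left ((le_abs_self (P.ord (s l) : ℚ)).trans h6)
    (show (0 : ℚ) ≤ m from Nat.cast_nonneg _)
  rw [Q.ord_mul hg0' ha0, hQ.2, hQ.2]
  have h8 : (0 : ℚ) ≤ P.ord g + B * P.ord (y i / y l) - m * P.ord (s l) := by linarith
  have h9 : (0 : ℤ) ≤ P.ord g + B * P.ord (y i / y l) - m * P.ord (s l) := by exact_mod_cast h8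
  have h10 := mul_nonneg (Int.natCast_nonneg e) h9
  linarith

end

end Pool.Agent.T2h12.TN
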