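import Pool.Agent.T2h12.TN.OB
import Pool.Agent.T2h12.TN.OC

/-!
The space of functions fixed by étale correspondences.
-/

set_option autoImplicit false
set_option linter.overlappingInstances false
set_option linter.unusedSectionVars false

open FF Module IntermediateField Pool.Agent.W602.GT Pool.Agent.W603.LV Pool.Agent.Y172
  Pool.Agent.Y191 Pool.Agent.R887 Pool.Agent.N110 Pool.Agent.T2h12.OM

namespace Pool.Agent.T2h12.TN

section

variable {K L : Type} [Field K] [Algebra ℂ K] [Field L] [Algebra ℂ L]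

/-- The generically finite map with the pull back `p` of functions is not ramified over any divisorial
valuation of the function field `K` of the target, of transcendence degree `n` (for a smooth
projective variety `X` with function field `K` this means that the finite map from the
normalisation of `X` in `L` to `X` is étale). -/
def UnramAll (n : ℕ) (p : K →ₐ[ℂ] L) : Prop :=
  ∀ P : Place ℂ K, Divisorial n P → ∀ (Q : Place ℂ L) (e : ℕ), LiesOver p Q P e → e = 1

end

section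

variable {K Ω : Type} [Field K] [Field Ω] [Algebra ℂ K] [Algebra ℂ Ω] [Algebra K Ω]
  [IsScalarTower ℂ K Ω] [Algebra.IsAlgebraic K Ω] {N n : ℕ} {y : Fin (N + 1) → K}

theorem fin_Ten {m : ℕ} {x : Fin n → Ω} {E : Fin n → Derivation ℂ Ω Ω}
    (hx : IsTranscendenceBasis ℂ x) (hE : ∀ i j, E i (x j) = if i = j then 1 else 0) :
    FiniteDimensional Ω (Ten Ω m) := by
  let Φ : Ten Ω m →ₗ[Ω] ((Fin m → Fin n) → Ω) :=
    { toFun := fun T I => T (fun k => E (I k))
      map_add' := fun _ _ => rfl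
      map_smul' := fun _ _ => rfl }
  refine FiniteDimensional.of_injective Φ fun T T' h => ?_
  ext D
  rw [tensor_expand hx hE T D, tensor_expand hx hE T' D]
  refine Finset.sum_congr rfl fun I _ => ?_
  have h2 : T (fun k => E (I k)) = T' (fun k => E (I k)) := congrFun h I
  rw [h2]

/-- **The space of functions fixed by all étale correspondences.** -/
theorem fixedO (hy : NormalModel y) [Algebra.EssFiniteType ℂ K] (hn : Algebra.trdeg ℂ K = n)
    {i : Fin (N + 1)} (hi : y i ≠ 0) {j : ℕ} (hT : TensorSheaf ℂ K n j) :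
    ∃ U : Submodule ℂ Ω, (1 : Ω) ∈ U ∧
      (∃ u : Fin j → K, AlgebraicIndependent ℂ u ∧ ∀ l, algebraMap K Ω (u l) ∈ U) ∧
      (∃ (B : ℕ) (h : Ω), h ≠ 0 ∧ U ≤ SB hn hi h B) ∧
      ∀ g : Ω ≃ₐ[ℂ] Ω, (UnramAll n (pr₁ K g) → ∃ a : Ω, a ≠ 0 ∧ ∀ u ∈ U, a * g u ∈ U) ∧
        (UnramAll n (pr₂ K g) → ∃ a : Ω, a ≠ 0 ∧ ∀ u ∈ U, a * g⁻¹ u ∈ U) := by
  classical
  have hess := hy.ess
  obtain ⟨m, T, f, hT0, hf0, hind, hreg⟩ := hT
  obtain ⟨x, E, hx, hE⟩ := exists_crd hn (k := ℂ) (K := K)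
  choose EO hEO1 hEO2 using fun c => exists_ext (Ω := Ω) hn (E c)
  have hdual : ∀ a b, EO a (algebraMap K Ω (x b)) = if a = b then 1 else 0 := by
    intro a b
    rw [hEO1, hE]
    split_ifs
    · exact map_one _
    · exact map_zero _
  have hxO := trb_up (Ω := Ω) hx
  have hfd := fin_Ten (m := m) hxO hdual
  obtain ⟨TO, hTO⟩ : ∃ TO : Ten Ω m, TO = pbM (ιO K Ω) x E T := ⟨_, rfl⟩
  have hTO0 : TO ≠ 0 := by
    rw [hTO]
    exact pbM_ne (ιO K Ω) hx hE hT0 hdual
  have hval : ∀ (D : Fin m → Derivation ℂ Ω Ω) (D' : Fin m → Derivation ℂ K K),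
      (∀ k f, D k (algebraMap K Ω f) = algebraMap K Ω (D' k f)) →
      TO D = algebraMap K Ω (T D') := by
    intro D D' hD
    rw [hTO, pbM_apply, tensor_expand hx hE T D', map_sum]
    refine Finset.sum_congr rfl fun I _ => ?_
    rw [map_mul, map_prod]
    congr 1
    exact Finset.prod_congr rfl fun k _ => hD k _
  have hmem : ∀ l, algebraMap K Ω (f l) • TO ∈ regO K Ω n m := by
    intro l P hP D hD
    choose D' hD'r hD'e using hD
    change IntO P (algebraMap K Ω (f l) * TO D)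
    rw [hval D D' hD'e, ← map_mul]
    exact IntO.of_reg (hreg P hP D' hD'r l)
  have hfO0 : algebraMap K Ω (f 0) ≠ 0 := by rwa [Ne, map_eq_zero]
  let ℓ : (Fin m → Fin n) → Dual Ω (Ten Ω m) := fun I =>
    { toFun := fun T => T (fun k => EO (I k))
      map_add' := fun _ _ => rfl
      map_smul' := fun _ _ => rfl }
  have hℓ : ∀ w : Ten Ω m, (∀ I, ℓ I w = 0) → w = 0 := by
    intro w hw
    ext D
    rw [tensor_expand hxO hdual w D]
    refine Finset.sum_eq_zero fun I _ => ?_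
    have := hw I
    change w (fun k => EO (I k)) = 0 at this
    rw [this, mul_zero]
  obtain ⟨U, h1, hUa, ⟨A, r, hA, hUA⟩, hψ⟩ := wedge_all (K := Ω) (regO K Ω n m) (hmem 0)
    (smul_ne_zero hfO0 hTO0) ℓ hℓ
  refine ⟨U, h1, ⟨fun l => f l.succ / f 0, hind, fun l => hUa _ ?_⟩, ?_, fun g => ⟨fun hg => ?_,
    fun hg => ?_⟩⟩
  · rw [smul_smul, map_div₀, div_mul_cancel₀ _ hfO0]
    exact hmem l.succ
  · obtain ⟨B1, g1, hg1, hB1⟩ := unifO (Ω := Ω) hy hn hi E m
    obtain ⟨B2, h2, hh2, hA2⟩ := fin_SB hy hn hi hA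
    have hvals : vals (regO K Ω n m) ℓ ≤ SB hn hi (algebraMap K Ω g1) B1 := by
      unfold vals
      rw [Submodule.span_le]
      rintro _ ⟨I, T', hT', rfl⟩
      refine hB1 _ fun P hP t ht => ?_
      have h3 := hT' P (hP.divisorial hy hn) (fun k => algebraMap K Ω t • EO (I k)) fun k =>
        ⟨t • E (I k), ht _, fun f => by
          change algebraMap K Ω t * EO (I k) (algebraMap K Ω f) = _
          rw [hEO1, ← map_mul]
          rfl⟩
      rw [MultilinearMap.map_smul_univ, Finset.prod_const, Finset.card_univ,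
        Fintype.card_fin, smul_eq_mul] at h3
      exact h3
    refine ⟨r * (B2 + B1), (h2 * algebraMap K Ω g1) ^ r, pow_ne_zero _ (mul_ne_zero hh2 (by
      rwa [Ne, map_eq_zero])), hUA.trans ((pow_le_pow_left' ?_ r).trans (SB_pow hn hi _ _ r))⟩
    exact (mul_le_mul' hA2 hvals).trans (SB_mul hn hi _ _ _ _)
  · have hadm := corrField_adm (K := K) g
    refine hψ (g : Ω →ₐ[ℂ] Ω) (pbA (g : Ω →ₐ[ℂ] Ω) (fun c => algebraMap K Ω (x c)) EO)
      (pbA_smul _ _ _) ?_ fun ι _ w hw => pbA_indep hxO hdual _ hw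
    intro T' hT'
    exact regO_pull hess (ess_M hadm) hn (trdeg_M hn hadm) (pr₁ K g) (pr₂ K g)
      (corrField K g).val g (fun _ => rfl) (fun _ => rfl) hg hxO hdual hT'
  · have hadm := corrField_adm (K := K) g
    refine hψ ((g⁻¹ : Ω ≃ₐ[ℂ] Ω) : Ω →ₐ[ℂ] Ω) (pbA ((g⁻¹ : Ω ≃ₐ[ℂ] Ω) : Ω →ₐ[ℂ] Ω)
      (fun c => algebraMap K Ω (x c)) EO)
      (pbA_smul _ _ _) ?_ fun ι _ w hw => pbA_indep hxO hdual _ hw
    intro T' hT'
    refine regO_pull hess (ess_M hadm) hn (trdeg_M hn hadm) (pr₂ K g) (pr₁ K g)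
      (((g⁻¹ : Ω ≃ₐ[ℂ] Ω) : Ω →ₐ[ℂ] Ω).comp (corrField K g).val) g⁻¹ (fun a => ?_)
      (fun _ => rfl) hg hxO hdual hT'
    change g.symm (g (algebraMap K Ω a)) = algebraMap K Ω a
    exact g.symm_apply_apply _

end

end Pool.Agent.T2h12.TN
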