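import Pool.Agent.T2h12.TN.OD
import Pool.Agent.T2h12.TN.E
import Pool.Agent.T2h12.OM.QJ

/-!
The system of the classes `q F + b H`, for the finite dimensional spaces `F` in a space of functions
which is preserved up to factors by correspondences.
-/

set_option autoImplicit false
set_option linter.overlappingInstances false
set_option linter.unusedSectionVars false

open Filter Topology FF Module IntermediateField Pool.Agent.W602.GT Pool.Agent.W603.LV
  Pool.Agent.Y172 Pool.Agent.Y191 Pool.Agent.R887 Pool.Agent.N110 Pool.Agent.T2h12.OM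

namespace Pool.Agent.T2h12.TN

section

theorem polyR_tend {R : Polynomial ℝ} {ν : ℕ} (hdeg : R.natDegree ≤ ν) :
    Tendsto (fun q : ℕ => R.eval (q : ℝ) / (q : ℝ) ^ ν) atTop (𝓝 (R.coeff ν)) := by
  have h1 : ∀ q : ℕ, R.eval (q : ℝ) =
      ∑ i ∈ Finset.range (ν + 1), R.coeff i * (q : ℝ) ^ i := by
    intro q
    rw [Polynomial.eval_eq_sum_range' (Nat.lt_succ_of_le hdeg)]
  have h3 : ∀ i ∈ Finset.range (ν + 1), Tendsto (fun q : ℕ => R.coeff i *
      ((q : ℝ) ^ i / (q : ℝ) ^ ν)) atTop (𝓝 (R.coeff i * if i = ν then 1 else 0)) := by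
    intro i hi
    rw [Finset.mem_range] at hi
    refine Tendsto.const_mul _ ?_
    by_cases hiν : i = ν
    · rw [if_pos hiν, hiν]
      refine tendsto_const_nhds.congr' ?_
      filter_upwards [eventually_gt_atTop 0] with q hq
      have : (0 : ℝ) < q := by exact_mod_cast hq
      rw [div_self (by positivity)]
    · rw [if_neg hiν]
      have h4 : Tendsto (fun q : ℕ => 1 / ((q : ℝ) ^ (ν - i))) atTop (𝓝 0) := by
        have h5 : Tendsto (fun q : ℕ => (q : ℝ) ^ (ν - i)) atTop atTop :=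
          (tendsto_pow_atTop (by omega)).comp tendsto_natCast_atTop_atTop
        simp only [one_div]
        exact h5.inv_tendsto_atTop
      refine h4.congr' ?_
      filter_upwards [eventually_gt_atTop 0] with q hq
      have hq0 : (0 : ℝ) < q := by exact_mod_cast hq
      have e1 : (q : ℝ) ^ ν = (q : ℝ) ^ i * (q : ℝ) ^ (ν - i) := by
        rw [← pow_add]
        congr 1
        omega
      rw [e1]
      field_simp
  have h4 := tendsto_finsetSum (Finset.range (ν + 1)) h3
  have h5 : ∑ i ∈ Finset.range (ν + 1), (R.coeff i * if i = ν then 1 else 0) =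
      R.coeff ν := by
    rw [Finset.sum_eq_single ν]
    · simp
    · intro i _ hi
      rw [if_neg hi, mul_zero]
    · intro h
      exact absurd (Finset.mem_range.2 (Nat.lt_succ_self ν)) h
  rw [h5] at h4
  refine h4.congr fun q => ?_
  rw [h1, Finset.sum_div]
  refine Finset.sum_congr rfl fun i _ => ?_
  rw [mul_div_assoc]

theorem polyR_zero {R : Polynomial ℝ} {ν : ℕ} (hdeg : R.natDegree ≤ ν)
    (h : ¬ ∃ ε : ℝ, 0 < ε ∧ ∀ᶠ q : ℕ in atTop, ε * (q : ℝ) ^ ν ≤ R.eval (q : ℝ))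
    {δ : ℝ} (hδ : 0 < δ) :
    ∀ᶠ q : ℕ in atTop, R.eval (q : ℝ) ≤ δ * (q : ℝ) ^ ν := by
  have h2 := polyR_tend hdeg
  have h3 : R.coeff ν ≤ 0 := by
    by_contra h4
    push Not at h4
    apply h
    refine ⟨R.coeff ν / 2, by positivity, ?_⟩
    have h5 := h2.eventually_const_lt (show R.coeff ν / 2 < R.coeff ν by linarith)
    filter_upwards [h5, eventually_gt_atTop 0] with q hq hq1
    have hq0 : (0 : ℝ) < q := by exact_mod_cast hq1
    rw [lt_div_iff₀ (by positivity)] at hq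
    exact hq.le
  have h5 := h2.eventually_lt_const (show R.coeff ν < δ by linarith)
  filter_upwards [h5, eventually_gt_atTop 0] with q hq hq1
  have hq0 : (0 : ℝ) < q := by exact_mod_cast hq1
  rw [div_lt_iff₀ (by positivity)] at hq
  exact hq.le

end

section

variable {K Ω : Type} [Field K] [Field Ω] [Algebra ℂ K] [Algebra ℂ Ω] [Algebra K Ω]
  [IsScalarTower ℂ K Ω] [Algebra.IsAlgebraic K Ω] {N n : ℕ} {y : Fin (N + 1) → K}

/-- products, the other inequality -/
theorem tO_add_ge (hy : NormalModel y) (hn : Algebra.trdeg ℂ K = n) {D V V' : OCl Ω}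
    (h : V.V * V'.V ≤ D.V) {s : Multiset (OCl Ω)} (hs : s.card + 1 = n) :
    tO K (V ::ₘ s) + tO K (V' ::ₘ s) ≤ tO K (D ::ₘ s) := by
  have hess := hy.ess
  obtain ⟨i, hi⟩ := hy.ne
  obtain ⟨M, hM, hMs, -⟩ := exists_adm (K := K) (D ::ₘ V ::ₘ V' ::ₘ s) ∅
  have hD : InM M D := hMs D (by simp)
  have hV : InM M V := hMs V (by simp)
  have hV' : InM M V' := hMs V' (by simp)
  have hs' : ∀ U ∈ s, InM M U := fun U hU => hMs U (by simp [hU])
  have key : ∀ U, InM M U → tO K (U ::ₘ s) = (I (clM hy hi hM U ::ₘ s.map (clM hy hi hM)) : ℝ) /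
      relfinrank (KO K Ω) M := by
    intro U hU
    rw [tO_eq hy hn hi hM (s := U ::ₘ s) (by rw [Multiset.card_cons]; exact hs) (fun U' hU' => by
      rcases Multiset.mem_cons.1 hU' with rfl | hU'
      · exact hU
      · exact hs' U' hU'), Multiset.map_cons]
  rw [key D hD, key V hV, key V' hV', ← add_div]
  have h2 : (0 : ℝ) < relfinrank (KO K Ω) M := by exact_mod_cast KO_rel hM.le hM.fg
  refine div_le_div_of_nonneg_right ?_ h2.le
  have h3 := I_mul_ge (ctx_M hy hn hi hM) (D := clM hy hi hM D) (V := clM hy hi hM V)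
    (V' := clM hy hi hM V') (s := s.map (clM hy hi hM)) (by
      rw [Submodule.mul_le]
      intro a ha b hb
      rw [clM_mem hy hi hM hV] at ha
      rw [clM_mem hy hi hM hV'] at hb
      rw [clM_mem hy hi hM hD]
      exact h (Submodule.mul_mem_mul ha hb)) (by rw [Multiset.card_map]; exact hs)
  exact_mod_cast h3

theorem tO_mul (hy : NormalModel y) (hn : Algebra.trdeg ℂ K = n) (A B : OCl Ω)
    {s : Multiset (OCl Ω)} (hs : s.card + 1 = n) :
    tO K (mulO A B ::ₘ s) = tO K (A ::ₘ s) + tO K (B ::ₘ s) :=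
  le_antisymm (tO_add hy hn le_rfl hs) (tO_add_ge hy hn le_rfl hs)

theorem tO_eq4 (hy : NormalModel y) (hn : Algebra.trdeg ℂ K = n) {A A' B B' : OCl Ω}
    (h : A.V * A'.V = B.V * B'.V) {s : Multiset (OCl Ω)} (hs : s.card + 1 = n) :
    tO K (A ::ₘ s) + tO K (A' ::ₘ s) = tO K (B ::ₘ s) + tO K (B' ::ₘ s) := by
  rw [← tO_mul hy hn A A' hs, ← tO_mul hy hn B B' hs, show mulO A A' = mulO B B' from
    OCl.ext' h]

/-- the class is bounded by a multiple of the hyperplane class -/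
theorem tO_SB (hy : NormalModel y) [Algebra.EssFiniteType ℂ K] (hn : Algebra.trdeg ℂ K = n)
    {i : Fin (N + 1)} (hi : y i ≠ 0) {A : OCl Ω} {h : Ω} (hh : h ≠ 0) {B : ℕ}
    (hA : A.V ≤ SB hn hi h B) {s : Multiset (OCl Ω)} (hs : s.card + 1 = n) :
    tO K (A ::ₘ s) ≤ B * tO K (HO Ω hy hi ::ₘ s) := by
  have h1 := tO_rat (K := K) hy hn (V := A) (B := HO Ω hy hi) (p := 1) (q := B) le_rfl hh ∅
    (fun M hM _ h' hh' v hv P => ?_) hs
  · rwa [Nat.cast_one, one_mul] at h1
  · have h2 := hA hv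
    rw [mem_SB] at h2
    have h3 := h2.at hn hM (v := h' * v) (by
      change (h' : Ω) * (v : Ω) = _
      rw [hh']) P
    rw [pow_one]
    rcases h3 with h3 | ⟨l, hl, hle⟩
    · refine ⟨1, (HO Ω hy hi).one, one_ne_zero, ?_⟩
      rw [h3, P.ord_one, P.ord_zero, mul_zero]
    · refine ⟨emb hM.le (y l / y i), Submodule.subset_span ⟨_, ⟨l, rfl⟩, rfl⟩, ?_, hle⟩
      rw [Ne, map_eq_zero]
      exact div_ne_zero hl hi

theorem HO_SB (hy : NormalModel y) [Algebra.EssFiniteType ℂ K] (hn : Algebra.trdeg ℂ K = n)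
    {i : Fin (N + 1)} (hi : y i ≠ 0) : (HO Ω hy hi).V ≤ SB hn hi (1 : Ω) 1 := by
  change Submodule.span ℂ (ιO K Ω '' affS y i) ≤ _
  rw [Submodule.span_le]
  rintro _ ⟨_, ⟨l, rfl⟩, rfl⟩
  change BndO y i 1 _
  obtain ⟨M, hM, -, -⟩ := exists_both (K := K) (0 : Ω) 0
  refine ⟨M, hM, emb hM.le (y l / y i), ?_, fun Q => ?_⟩
  · rw [one_mul]
    rfl
  · by_cases hl : y l = 0
    · left
      rw [hl, zero_div, map_zero]
    · right
      refine ⟨l, hl, ?_⟩
      rw [Nat.cast_one, one_mul]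

/-- a finite dimensional space of functions with `1` -/
structure FS (Ω : Type) [Field Ω] [Algebra ℂ Ω] where
  V : Submodule ℂ Ω
  fg : V.FG
  one : (1 : Ω) ∈ V

/-- the class `q F + (b + 1) A` -/
noncomputable def cO (F : FS Ω) (A : OCl Ω) (b q : ℕ) : OCl Ω where
  V := F.V ^ q * A.V ^ (b + 1)
  fg := (F.fg.pow q).mul (A.fg.pow (b + 1))
  one := by
    have h1 := Submodule.pow_mem_pow F.V F.one q
    have h2 := Submodule.pow_mem_pow A.V A.one (b + 1)
    have := Submodule.mul_mem_mul h1 h2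
    rwa [one_pow, one_pow, one_mul] at this
  big := by
    refine alg_mono (IntermediateField.adjoin.mono _ _ _ fun v hv => ?_) A.big
    have h1 := Submodule.pow_mem_pow F.V F.one q
    have h2 := Submodule.pow_mem_pow A.V A.one b
    have := Submodule.mul_mem_mul h1 (Submodule.mul_mem_mul h2 hv)
    rwa [one_pow, one_pow, one_mul, one_mul, ← pow_succ] at this

theorem cO_V (F : FS Ω) (A : OCl Ω) (b q : ℕ) : (cO F A b q).V = F.V ^ q * A.V ^ (b + 1) := rfl

/-- the degree of `F` -/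
noncomputable def δO (K : Type) {Ω : Type} [Field K] [Field Ω] [Algebra ℂ K] [Algebra ℂ Ω]
    [Algebra K Ω] [IsScalarTower ℂ K Ω] (F : FS Ω) (A : OCl Ω) (s : Multiset (OCl Ω)) : ℝ :=
  tO K (cO F A 0 1 ::ₘ s) - tO K (A ::ₘ s)

/-- **The classes are linear.** -/
theorem tO_cO (hy : NormalModel y) (hn : Algebra.trdeg ℂ K = n) (F : FS Ω) (A : OCl Ω) (b q : ℕ)
    {s : Multiset (OCl Ω)} (hs : s.card + 1 = n) :
    tO K (cO F A b q ::ₘ s) = q * δO K F A s + (b + 1) * tO K (A ::ₘ s) := by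
  induction q with
  | zero =>
    rw [Nat.cast_zero, zero_mul, zero_add]
    induction b with
    | zero =>
      have e1 : cO F A 0 0 = A := OCl.ext' (by rw [cO_V, pow_zero, one_mul, zero_add, pow_one])
      rw [e1, Nat.cast_zero, zero_add, one_mul]
    | succ b ih =>
      have e1 : cO F A (b + 1) 0 = mulO (cO F A b 0) A := OCl.ext' (by
        change (cO F A (b + 1) 0).V = (cO F A b 0).V * A.V
        rw [cO_V, cO_V, pow_zero, one_mul, one_mul, ← pow_succ])
      rw [e1, tO_mul hy hn _ _ hs, ih]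
      push_cast
      ring
  | succ q ih =>
    have h1 := tO_eq4 (K := K) hy hn (A := cO F A b (q + 1)) (A' := A) (B := cO F A b q)
      (B' := cO F A 0 1) (by
        rw [cO_V, cO_V, cO_V, pow_succ, pow_one, zero_add, pow_one]
        ring) hs
    rw [ih] at h1
    unfold δO at h1 ⊢
    push_cast
    linarith

/-- the degree of `F` does not depend on the reference -/
theorem δO_eq (hy : NormalModel y) (hn : Algebra.trdeg ℂ K = n) (F : FS Ω) (A A' : OCl Ω)
    {s : Multiset (OCl Ω)} (hs : s.card + 1 = n) : δO K F A s = δO K F A' s := by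
  have h1 := tO_eq4 (K := K) hy hn (A := cO F A 0 1) (A' := A') (B := cO F A' 0 1)
    (B' := A) (by
      rw [cO_V, cO_V, zero_add, pow_one, pow_one, pow_one]
      ring) hs
  unfold δO
  linarith

theorem δO_nonneg (hy : NormalModel y) (hn : Algebra.trdeg ℂ K = n) (F : FS Ω) (A : OCl Ω)
    {s : Multiset (OCl Ω)} (hs : s.card + 1 = n) : 0 ≤ δO K F A s := by
  have h1 := tO_mono (K := K) hy hn (V := A) (V' := cO F A 0 1) (g := 1) one_ne_zero
    (fun v hv => by
      rw [cO_V, pow_one, zero_add, pow_one]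
      exact Submodule.mul_mem_mul F.one hv) hs
  unfold δO
  linarith

/-- the degree of `F` is bounded -/
theorem δO_le (hy : NormalModel y) [Algebra.EssFiniteType ℂ K] (hn : Algebra.trdeg ℂ K = n)
    {i : Fin (N + 1)} (hi : y i ≠ 0) {F : FS Ω} {h : Ω} (hh : h ≠ 0) {B : ℕ}
    (hF : F.V ≤ SB hn hi h B) {s : Multiset (OCl Ω)} (hs : s.card + 1 = n) :
    δO K F (HO Ω hy hi) s ≤ B * tO K (HO Ω hy hi ::ₘ s) := by
  have h1 := tO_SB (K := K) hy hn hi (A := cO F (HO Ω hy hi) 0 1) (h := h * 1) (by rwa [mul_one])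
    (B := B + 1) (by
      rw [cO_V, pow_one, zero_add, pow_one]
      exact (mul_le_mul' hF (HO_SB hy hn hi)).trans (SB_mul hn hi _ _ _ _)) hs
  unfold δO
  push_cast at h1
  linarith

/-- **The image of the classes under a correspondence.** -/
theorem act_cO (hy : NormalModel y) [Algebra.EssFiniteType ℂ K] (hn : Algebra.trdeg ℂ K = n)
    {i : Fin (N + 1)} (hi : y i ≠ 0) {U : Submodule ℂ Ω} (h1 : (1 : Ω) ∈ U) {g : Ω ≃ₐ[ℂ] Ω}
    (hg : ∃ a : Ω, a ≠ 0 ∧ ∀ u ∈ U, a * g u ∈ U) {F : FS Ω} (hF : F.V ≤ U) (b : ℕ) :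
    ∃ (F' : FS Ω) (b' : ℕ), F'.V ≤ U ∧ ∀ q, ∀ s : Multiset (OCl Ω), s.card + 1 = n →
      tO K (actO g (cO F (HO Ω hy hi) b q) ::ₘ s) ≤
        tO K (cO F' (HO Ω hy hi) b' q ::ₘ s) := by
  obtain ⟨a, ha, haU⟩ := hg
  obtain ⟨W, hW⟩ : ∃ W : Submodule ℂ Ω, W = (F.V.map (g : Ω →ₐ[ℂ] Ω).toLinearMap).map
      (LinearMap.mulLeft ℂ a) := ⟨_, rfl⟩
  have hWU : W ≤ U := by
    rw [hW]
    rintro _ ⟨_, ⟨v, hv, rfl⟩, rfl⟩
    exact haU v (hF hv)
  have hWm : ∀ v ∈ F.V, a * g v ∈ W := by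
    intro v hv
    rw [hW]
    exact ⟨g v, ⟨v, hv, rfl⟩, rfl⟩
  obtain ⟨F', hF'⟩ : ∃ F' : FS Ω, F'.V = Submodule.span ℂ {1} ⊔ W :=
    ⟨⟨Submodule.span ℂ {1} ⊔ W, (Submodule.fg_span (Set.finite_singleton _)).sup (by
      rw [hW]
      exact (F.fg.map _).map _), Submodule.mem_sup_left (Submodule.subset_span rfl)⟩, rfl⟩
  obtain ⟨β, h, hh, hβ⟩ := fin_SB hy hn hi (actO g (HO Ω hy hi)).fg
  refine ⟨F', (b + 1) * β, ?_, fun q s hs => ?_⟩
  · rw [hF', sup_le_iff]
    refine ⟨?_, hWU⟩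
    rw [Submodule.span_singleton_le_iff_mem]
    exact h1
  · have h2 := tO_mono (K := K) hy hn (V := actO g (cO F (HO Ω hy hi) b q))
      (V' := cO F' (actO g (HO Ω hy hi)) b q) (g := a ^ q) (pow_ne_zero _ ha) (fun v hv => by
        obtain ⟨w, hw, rfl⟩ := hv
        change a ^ q * g w ∈ (cO F' (actO g (HO Ω hy hi)) b q).V
        rw [cO_V] at hw ⊢
        have hpow : ∀ q, ∀ w ∈ F.V ^ q, a ^ q * g w ∈ F'.V ^ q := by
          intro q
          induction q with
          | zero =>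
            intro w hw
            rw [pow_zero, Submodule.mem_one] at hw ⊢
            obtain ⟨c, rfl⟩ := hw
            exact ⟨c, by rw [pow_zero, one_mul, g.commutes]⟩
          | succ q ih =>
            intro w hw
            rw [pow_succ] at hw
            induction hw using Submodule.mul_induction_on' with
            | mem_mul_mem x hx z hz =>
              have h3 := Submodule.mul_mem_mul (ih x hx) (show a * g z ∈ F'.V by
                rw [hF']
                exact Submodule.mem_sup_right (hWm z hz))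
              rw [pow_succ, pow_succ, map_mul]
              have e1 : a ^ q * a * (g x * g z) = a ^ q * g x * (a * g z) := by ring
              rw [e1]
              exact h3
            | add x _ z _ h3 h4 =>
              rw [map_add, mul_add]
              exact Submodule.add_mem _ h3 h4
        have hpow2 : ∀ w ∈ (HO Ω hy hi).V ^ (b + 1), g w ∈ (actO g (HO Ω hy hi)).V ^ (b + 1) := by
          intro w hw
          change g w ∈ ((HO Ω hy hi).V.map (g : Ω →ₐ[ℂ] Ω).toLinearMap) ^ (b + 1)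
          rw [← Submodule.map_pow]
          exact ⟨w, hw, rfl⟩
        induction hw using Submodule.mul_induction_on' with
        | mem_mul_mem x hx z hz =>
          have h3 := Submodule.mul_mem_mul (hpow q x hx) (hpow2 z hz)
          rw [map_mul, ← mul_assoc]
          exact h3
        | add x _ z _ h3 h4 =>
          rw [map_add, mul_add]
          exact Submodule.add_mem _ h3 h4) hs
    refine h2.trans ?_
    rw [tO_cO hy hn _ _ _ _ hs, tO_cO hy hn _ _ _ _ hs,
      δO_eq hy hn F' (actO g (HO Ω hy hi)) (HO Ω hy hi) hs]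
    have h3 := tO_SB (K := K) hy hn hi hh hβ hs
    have h4 := (tO_pos (K := K) hy hn (s := HO Ω hy hi ::ₘ s) (by
      rw [Multiset.card_cons]; exact hs)).le
    have h5 := mul_le_mul_of_nonneg_left h3 (show (0 : ℝ) ≤ b + 1 by positivity)
    push_cast
    nlinarith

/-- the intersection numbers as polynomials -/
theorem poly_cO (hy : NormalModel y) (hn : Algebra.trdeg ℂ K = n) (F : FS Ω) (A : OCl Ω) (b : ℕ)
    (k : ℕ) : ∀ X : Multiset (OCl Ω), k + X.card = n →
    ∃ R : Polynomial ℝ, R.natDegree ≤ k ∧ ∀ q : ℕ,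
      tO K (Multiset.replicate k (cO F A b q) + X) = R.eval (q : ℝ) := by
  induction k with
  | zero =>
    intro X _
    refine ⟨Polynomial.C (tO K X), by simp, fun q => ?_⟩
    rw [Polynomial.eval_C, Multiset.replicate_zero, zero_add]
  | succ k ih =>
    intro X hX
    obtain ⟨R1, hR1, h1⟩ := ih (cO F A 0 1 ::ₘ X) (by rw [Multiset.card_cons]; omega)
    obtain ⟨R2, hR2, h2⟩ := ih (A ::ₘ X) (by rw [Multiset.card_cons]; omega)
    refine ⟨Polynomial.X * (R1 - R2) + Polynomial.C ((b : ℝ) + 1) * R2, ?_, fun q => ?_⟩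
    · refine (Polynomial.natDegree_add_le _ _).trans (max_le ?_ ?_)
      · refine Polynomial.natDegree_mul_le.trans ?_
        have h3 : (R1 - R2).natDegree ≤ k := (Polynomial.natDegree_sub_le _ _).trans
          (max_le hR1 hR2)
        rw [Polynomial.natDegree_X]
        omega
      · refine Polynomial.natDegree_mul_le.trans ?_
        rw [Polynomial.natDegree_C]
        omega
    · rw [Multiset.replicate_succ, Multiset.cons_add, tO_cO hy hn F A b q (by
        simp only [Multiset.card_add, Multiset.card_replicate]; omega)]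
      have h1' := h1 q
      have h2' := h2 q
      rw [Multiset.add_cons] at h1' h2'
      unfold δO
      rw [h1', h2', Polynomial.eval_add, Polynomial.eval_mul, Polynomial.eval_mul,
        Polynomial.eval_sub, Polynomial.eval_X, Polynomial.eval_C]

/-- **The lower bound.** -/
theorem base_cO (hy : NormalModel y) (hn : Algebra.trdeg ℂ K = n) {i : Fin (N + 1)}
    (hi : y i ≠ 0) {j : ℕ} {u : Fin j → K} (hind : AlgebraicIndependent ℂ u) (hj : j ≤ n)
    {F : FS Ω} (hF : ∀ l, algebraMap K Ω (u l) ∈ F.V) {q : ℕ} (hq : 1 ≤ q) :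
    (q : ℝ) ^ j ≤ tO K (Multiset.replicate j (cO F (HO Ω hy hi) 0 q) +
      Multiset.replicate (n - j) (HO Ω hy hi)) := by
  have hess := hy.ess
  have h1 := ind_of_indep hn hind
  obtain ⟨Q, hQ, hQi⟩ := complete hn h1 (Multiset.replicate (n - j) (hcls hy hi))
    (by rw [toM_card, Multiset.card_replicate]; omega)
  have hQc : Q.card = n - j := by rw [hQ.card, Multiset.card_replicate]
  have h2 := hQi.dm_ne (by rw [Multiset.card_add, toM_card, hQc]; omega)
  have h3 := dm_pows hn hq (N110.toM u) Q (by rw [toM_card, hQc]; omega)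
  rw [toM_card, add_comm (N110.toM u) Q] at h3
  have hQm : ∀ z ∈ Q, z ∈ (hcls hy hi).V := by
    intro z hz
    have h4 : ∀ (k : ℕ) (Q : Multiset K), Sel Q (Multiset.replicate k (hcls hy hi)) →
        ∀ z ∈ Q, z ∈ (hcls hy hi).V := by
      intro k
      induction k with
      | zero =>
        intro Q hQ z hz
        have e1 : Q = 0 := Multiset.card_eq_zero.1 (by
          rw [hQ.card, Multiset.card_replicate])
        rw [e1] at hz
        exact absurd hz (Multiset.notMem_zero _)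
      | succ k ih =>
        intro Q hQ z hz
        rw [Multiset.replicate_succ] at hQ
        obtain ⟨x, W', hx, hW', rfl⟩ := sel_cons_right hQ
        rcases Multiset.mem_cons.1 hz with rfl | hz
        · exact hx
        · exact ih W' hW' z hz
    exact h4 _ Q hQ z hz
  have h4 : SelO (((N110.toM u).map (fun z => z ^ q) + Q).map (ιO K Ω))
      (Multiset.replicate j (cO F (HO Ω hy hi) 0 q) +
        Multiset.replicate (n - j) (HO Ω hy hi)) := by
    rw [Multiset.map_add]
    refine Multiset.Rel.add ?_ ?_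
    · refine selO_rep.2 ⟨by rw [Multiset.card_map, Multiset.card_map, toM_card], fun z hz => ?_⟩
      obtain ⟨w, hw, rfl⟩ := Multiset.mem_map.1 hz
      obtain ⟨w', hw', rfl⟩ := Multiset.mem_map.1 hw
      obtain ⟨l, rfl⟩ := mem_toM.1 hw'
      rw [cO_V, zero_add, pow_one, map_pow]
      have h7 := Submodule.mul_mem_mul (Submodule.pow_mem_pow _ (hF l) q) (HO Ω hy hi).one
      rw [mul_one] at h7
      exact h7
    · refine selO_rep.2 ⟨by rw [Multiset.card_map, hQc], fun z hz => ?_⟩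
      obtain ⟨w, hw, rfl⟩ := Multiset.mem_map.1 hz
      have h5 : w ∈ Submodule.span ℂ (affS y i) := hQm w hw
      change ιO K Ω w ∈ Submodule.span ℂ (ιO K Ω '' affS y i)
      have h6 := Submodule.mem_map_of_mem (f := (ιO K Ω).toLinearMap) h5
      rw [Submodule.map_span] at h6
      exact h6
  have h5 := le_tO (K := K) hy hn (by
    simp only [Multiset.card_add, Multiset.card_replicate]; omega) h4
  rw [dO_K] at h5
  refine le_trans ?_ h5
  have h6 : (1 : ℕ) ≤ dm ℂ (Q + N110.toM u) := Nat.pos_of_ne_zero h2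
  have h7 : q ^ j ≤ dm ℂ ((N110.toM u).map (fun z => z ^ q) + Q) :=
    (Nat.le_mul_of_pos_right _ h6).trans h3
  exact_mod_cast h7

theorem tS_two (A H : OCl Ω) (k m : ℕ) :
    tS K (Multiset.replicate k ((A, 1) : SC Ω) + Multiset.replicate m ((H, 1) : SC Ω)) =
      tO K (Multiset.replicate k A + Multiset.replicate m H) := by
  unfold tS
  rw [Multiset.map_add, Multiset.map_add, Multiset.map_replicate, Multiset.map_replicate,
    Multiset.map_replicate, Multiset.map_replicate, Multiset.prod_add, Multiset.prod_replicate,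
    Multiset.prod_replicate, wt_one', wt_one', one_pow, one_pow, mul_one, mul_one]

/-- **The system.** -/
theorem exists_sysT (hy : NormalModel y) (hn : Algebra.trdeg ℂ K = n) (hn0 : 0 < n)
    [Algebra.EssFiniteType ℂ K] {i : Fin (N + 1)} (hi : y i ≠ 0) {U : Submodule ℂ Ω}
    (h1 : (1 : Ω) ∈ U) {j : ℕ} {u : Fin j → K} (hind : AlgebraicIndependent ℂ u)
    (hU : ∀ l, algebraMap K Ω (u l) ∈ U) {B : ℕ} {h : Ω} (hh : h ≠ 0) (hUB : U ≤ SB hn hi h B)
    {S : Set (GG Ω)} (hS1 : ∀ x ∈ S, ∃ a : Ω, a ≠ 0 ∧ ∀ u ∈ U, a * x.1 u ∈ U)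
    (hS2 : ∀ x ∈ S, ∃ a : Ω, a ≠ 0 ∧ ∀ u ∈ U, a * x.1⁻¹ u ∈ U) (hS3 : ∀ x ∈ S, x.2 = 1)
    {C₁ : ℝ} (hdeg : ∀ x ∈ S, tS K (act x ((HO Ω hy hi, 1) : SC Ω) ::ₘ
      Multiset.replicate (n - 1) ((HO Ω hy hi, 1) : SC Ω)) ≤ C₁) :
    ∃ (𝒜 : Type) (_ : Nonempty 𝒜) (m : ℕ → ℝ) (M : 𝒜 → ℕ → SC Ω) (ν : ℕ) (c ε : ℝ), j ≤ ν ∧
      BSys (K := K) hy hi S n m M ν c ε C₁ := by
  classical
  have hj : j ≤ n := by
    have h1 := hind.cardinalMk_le_trdeg
    rw [Cardinal.mk_fin, hn] at h1
    exact_mod_cast h1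
  let 𝒜 := {F : FS Ω // F.V ≤ U} × ℕ
  obtain ⟨P, hP⟩ : ∃ P : ℕ → Prop, P = fun k => ∃ (a : 𝒜) (ε : ℝ), 0 < ε ∧ ∀ᶠ q : ℕ in atTop,
      ε * (q : ℝ) ^ k ≤ tO K (Multiset.replicate k (cO a.1.1 (HO Ω hy hi) a.2 q) +
        Multiset.replicate (n - k) (HO Ω hy hi)) := ⟨_, rfl⟩
  have h0 : ∃ F : FS Ω, F.V ≤ U ∧ ∀ l, algebraMap K Ω (u l) ∈ F.V := by
    refine ⟨⟨Submodule.span ℂ (insert 1 (Set.range fun l => algebraMap K Ω (u l))),
      Submodule.fg_span ((Set.finite_range _).insert _),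
      Submodule.subset_span (Set.mem_insert _ _)⟩, ?_, fun l =>
      Submodule.subset_span (Set.mem_insert_of_mem _ ⟨l, rfl⟩)⟩
    change Submodule.span ℂ _ ≤ _
    rw [Submodule.span_le]
    rintro z (rfl | ⟨l, rfl⟩)
    · exact h1
    · exact hU l
  obtain ⟨F0, hF0U, hF0⟩ := h0
  have hPj : P j := by
    rw [hP]
    refine ⟨(⟨F0, hF0U⟩, 0), 1, one_pos, ?_⟩
    filter_upwards [eventually_ge_atTop 1] with q hq
    rw [one_mul]
    exact base_cO hy hn hi hind hj hF0 hq
  obtain ⟨ν, hν⟩ : ∃ ν, ν = Nat.findGreatest P n := ⟨_, rfl⟩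
  have hνn : ν ≤ n := by
    rw [hν]
    exact Nat.findGreatest_le n
  have hjν : j ≤ ν := by
    rw [hν]
    exact Nat.le_findGreatest hj hPj
  have hPν : P ν := by
    rw [hν]
    exact Nat.findGreatest_spec hj hPj
  have hnP : ν + 1 ≤ n → ¬ P (ν + 1) := by
    intro h
    rw [hν] at h ⊢
    exact Nat.findGreatest_is_greatest (Nat.lt_succ_self _) h
  rw [hP] at hPν hnP
  obtain ⟨a0, ε, hε, hεq⟩ := hPν
  have hsh : ∀ {p : ℕ → Prop}, (∀ᶠ q in atTop, p q) → ∀ᶠ q in atTop, p (q + 1) :=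
    fun h => (tendsto_add_atTop_nat 1).eventually h
  refine ⟨𝒜, ⟨a0⟩, fun q => ((q + 1 : ℕ) : ℝ), fun a q =>
    (cO a.1.1 (HO Ω hy hi) a.2 (q + 1), 1), ν, (B : ℝ) + 1, ε, hjν, ?_⟩
  have hact : ∀ x : GG Ω, x.2 = 1 → (∃ a : Ω, a ≠ 0 ∧ ∀ u ∈ U, a * x.1 u ∈ U) → ∀ a : 𝒜,
      ∃ a' : 𝒜, ∀ q, Le n (fun s : Multiset (SC Ω) => tS K s) 1
        (act x (cO a.1.1 (HO Ω hy hi) a.2 (q + 1), 1))
        (cO a'.1.1 (HO Ω hy hi) a'.2 (q + 1), 1) := by
    intro x hx hxa a
    obtain ⟨F', b', hF', hle⟩ := act_cO (K := K) hy hn hi h1 hxa a.1.2 a.2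
    refine ⟨(⟨F', hF'⟩, b'), fun q => tS_le fun s hs => ?_⟩
    rw [wt_act, wt_one', wt_one', hx, one_mul, one_mul, one_mul]
    change (((1 : ℚ)) : ℝ)⁻¹ * _ ≤ _
    rw [Rat.cast_one, inv_one, one_mul]
    exact hle (q + 1) s hs
  exact
  { hn0 := hn0
    hν := hνn
    hc := by positivity
    hε := hε
    m_pos := fun q => by positivity
    m_tend := tendsto_natCast_atTop_atTop.comp (tendsto_add_atTop_nat 1)
    M_le := by
      intro a
      filter_upwards [eventually_ge_atTop a.2] with q hq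
      refine tS_le fun s hs => ?_
      rw [wt_one', wt_one', one_mul, one_mul]
      change tO K (cO a.1.1 (HO Ω hy hi) a.2 (q + 1) ::ₘ s) ≤ _
      rw [tO_cO hy hn _ _ _ _ hs]
      have h2 := δO_le (K := K) hy hn hi hh (a.1.2.trans hUB) hs
      have h3 := (tO_pos (K := K) hy hn (s := HO Ω hy hi ::ₘ s) (by
        rw [Multiset.card_cons]; exact hs)).le
      have h4 : (a.2 : ℝ) ≤ q := by exact_mod_cast hq
      push_cast
      have h5 := mul_le_mul_of_nonneg_left h2 (show (0 : ℝ) ≤ q + 1 by positivity)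
      have h6 := mul_le_mul_of_nonneg_right (show (a.2 : ℝ) + 1 ≤ q + 1 by linarith) h3
      nlinarith
    dir := by
      intro a a'
      refine ⟨(⟨⟨a.1.1.V ⊔ a'.1.1.V, a.1.1.fg.sup a'.1.1.fg,
        Submodule.mem_sup_left a.1.1.one⟩, sup_le a.1.2 a'.1.2⟩, max a.2 a'.2), fun q => ⟨?_, ?_⟩⟩
      · refine tS_le fun s hs => ?_
        rw [wt_one', wt_one', one_mul, one_mul, one_mul]
        refine tO_mono hy hn (g := 1) one_ne_zero (fun v hv => ?_) hs
        rw [one_mul]
        rw [cO_V] at hv ⊢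
        have h2 : (1 : Submodule ℂ Ω) ≤ (HO Ω hy hi).V := Submodule.one_le.2 (HO Ω hy hi).one
        exact (mul_le_mul' (pow_le_pow_left' le_sup_left _)
          (pow_le_pow_right' h2 (by omega))) hv
      · refine tS_le fun s hs => ?_
        rw [wt_one', wt_one', one_mul, one_mul, one_mul]
        refine tO_mono hy hn (g := 1) one_ne_zero (fun v hv => ?_) hs
        rw [one_mul]
        rw [cO_V] at hv ⊢
        have h2 : (1 : Submodule ℂ Ω) ≤ (HO Ω hy hi).V := Submodule.one_le.2 (HO Ω hy hi).one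
        exact (mul_le_mul' (pow_le_pow_left' le_sup_right _)
          (pow_le_pow_right' h2 (by omega))) hv
    pull := fun x hx a => hact x (hS3 x hx) (hS1 x hx) a
    push := fun x hx a => hact x⁻¹ (by
      change x.2⁻¹ = 1
      rw [hS3 x hx, inv_one]) (hS2 x hx) a
    eps := by
      refine ⟨a0, ?_⟩
      simp only [tS_two]
      exact hsh hεq
    zero := by
      intro h a δ hδ
      simp only [tS_two]
      obtain ⟨R, hR, hRq⟩ := poly_cO (K := K) hy hn a.1.1 (HO Ω hy hi) a.2 (ν + 1)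
        (Multiset.replicate (n - (ν + 1)) (HO Ω hy hi)) (by rw [Multiset.card_replicate]; omega)
      have h2 := hnP h
      have h3 : ¬ ∃ ε : ℝ, 0 < ε ∧ ∀ᶠ q : ℕ in atTop, ε * (q : ℝ) ^ (ν + 1) ≤
          R.eval (q : ℝ) := by
        rintro ⟨ε', hε', hq⟩
        refine h2 ⟨a, ε', hε', ?_⟩
        filter_upwards [hq] with q hq
        rw [hRq]
        exact hq
      have h4 := hsh (polyR_zero hR h3 hδ)
      filter_upwards [h4] with q hq
      rw [hRq]
      exact hq
    deg := hdeg }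

end

end Pool.Agent.T2h12.TN
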