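import Pool.Agent.T2h12.TN.OE

/-!
Étale correspondences and sheaves of tensor differentials: joint dynamical degrees and the degrees of
random products.
-/

set_option autoImplicit false
set_option linter.overlappingInstances false
set_option linter.unusedSectionVars false

open Filter Topology FF Module IntermediateField Pool.Agent.W602.GT Pool.Agent.W603.LV
  Pool.Agent.Y172 Pool.Agent.Y191 Pool.Agent.R887 Pool.Agent.N110 Pool.Agent.T2h12.OM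
open scoped ENNReal

namespace Pool.Agent.T2h12.TN

section

variable {K Ω : Type} [Field K] [Field Ω] [Algebra ℂ K] [Algebra ℂ Ω] [Algebra K Ω]
  [IsScalarTower ℂ K Ω] [Algebra.IsAlgebraic K Ω] {N n : ℕ} {y : Fin (N + 1) → K}

theorem hone_deg (hy : NormalModel y) (hn : Algebra.trdeg ℂ K = n) {i : Fin (N + 1)}
    (hi : y i ≠ 0) (g : Ω ≃ₐ[ℂ] Ω) {p : ℕ} (hp : p ≤ n) :
    ENNReal.ofReal (tS K (Multiset.replicate p (act ((g, 1) : GG Ω) ((HO Ω hy hi, 1) : SC Ω)) +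
      Multiset.replicate (n - p) ((HO Ω hy hi, 1) : SC Ω))) = corrDegree g y n p := by
  rw [← degX_eq hy hn hi _ hp, degX_one, corrDegree_eq hy hn hi g hp, ENNReal.toReal_ofReal]
  exact (tO_pos hy hn (by
    rw [Multiset.card_add, Multiset.card_replicate, Multiset.card_replicate]
    omega)).le

/-- the joint dynamical degrees and a system -/
theorem joint_of_sys (hy : NormalModel y) (hn : Algebra.trdeg ℂ K = n) {i : Fin (N + 1)}
    (hi : y i ≠ 0) {S : Set (Ω ≃ₐ[ℂ] Ω)} {𝒜 : Type} (h𝒜 : Nonempty 𝒜) {m : ℕ → ℝ}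
    {M : 𝒜 → ℕ → SC Ω} {ν ν' : ℕ} {c ε C : ℝ} (hνν' : ν ≤ ν')
    (hB : BSys (K := K) hy hi ((fun g => ((g, 1) : GG Ω)) '' S) n m M ν' c ε C) :
    ∃ j, j + ν ≤ n ∧ ∀ a ≤ ν, ∀ p ≤ n, corrJoint S y n p ≤ corrJoint S y n (j + a) := by
  classical
  have data := hB.sysC hy hn hi
  refine data.joint h𝒜 hνν' (dd := fun p l => ⨆ (w : List (Ω ≃ₐ[ℂ] Ω)) (_ : w.length = l)
    (_ : ∀ g ∈ w, g ∈ S), corrDegree w.prod y n p) (fun p hp l => ?_) (fun p _ => rfl)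
  have hprod : ∀ w : List (Ω ≃ₐ[ℂ] Ω), (w.map fun g => ((g, 1) : GG Ω)).prod =
      ((w.prod, 1) : GG Ω) := by
    intro w
    induction w with
    | nil => rfl
    | cons a w ih =>
      rw [List.map_cons, List.prod_cons, ih, List.prod_cons]
      exact Prod.ext rfl (mul_one (1 : PQ))
  refine le_antisymm ?_ ?_
  · refine iSup_le fun w => iSup_le fun hw => iSup_le fun hwS => ?_
    refine le_iSup_of_le (act ((w.prod, 1) : GG Ω)) (le_iSup_of_le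
      ⟨w.map fun g => ((g, 1) : GG Ω), by rw [List.length_map, hw], ?_, by rw [hprod]⟩ ?_)
    · intro x hx
      obtain ⟨g, hgw, rfl⟩ := List.mem_map.1 hx
      exact ⟨g, hwS g hgw, rfl⟩
    · rw [hone_deg hy hn hi _ hp]
  · refine iSup_le fun F => iSup_le ?_
    rintro ⟨w, hw, hwS, rfl⟩
    have hlift : ∀ w : List (GG Ω), (∀ x ∈ w, x ∈ (fun g => ((g, 1) : GG Ω)) '' S) →
        ∃ w' : List (Ω ≃ₐ[ℂ] Ω), (w'.map fun g => ((g, 1) : GG Ω)) = w ∧ ∀ g ∈ w', g ∈ S := by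
      intro w
      induction w with
      | nil => exact fun _ => ⟨[], rfl, by simp⟩
      | cons a w ih =>
        intro h
        obtain ⟨w', h1, h2⟩ := ih fun x hx => h x (List.mem_cons_of_mem _ hx)
        obtain ⟨g, hgS, hga⟩ := h a List.mem_cons_self
        refine ⟨g :: w', ?_, ?_⟩
        · rw [List.map_cons, h1]
          exact congrArg (fun z => z :: w) hga
        · intro z hz
          rcases List.mem_cons.1 hz with rfl | hz
          · exact hgS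
          · exact h2 z hz
    obtain ⟨w', h1, h2⟩ := hlift w hwS
    rw [← h1, hprod, hone_deg hy hn hi _ hp]
    refine le_iSup_of_le w' (le_iSup_of_le ?_ (le_iSup_of_le h2 le_rfl))
    rw [← hw, ← h1, List.length_map]

/-- the degrees of random products and a system -/
theorem random_of_sys (hy : NormalModel y) (hn : Algebra.trdeg ℂ K = n) {i : Fin (N + 1)}
    (hi : y i ≠ 0) {d : ℕ} {g : Fin d → (Ω ≃ₐ[ℂ] Ω)} {𝒜 : Type} (h𝒜 : Nonempty 𝒜) {m : ℕ → ℝ}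
    {M : 𝒜 → ℕ → SC Ω} {ν ν' : ℕ} {c ε C : ℝ} (hνν' : ν ≤ ν')
    (hB : BSys (K := K) hy hi (Set.range fun i => ((g i, 1) : GG Ω)) n m M ν' c ε C)
    {w : Fin d → ℝ} (hw : ∀ i, 0 ≤ w i) (hw1 : ∑ i, w i = 1) {s : ℝ} (hs : 0 ≤ s) :
    ∃ j, j + ν ≤ n ∧ ∀ a ≤ ν, ∀ p ≤ n, corrRandom g w y n s p ≤ corrRandom g w y n s (j + a) := by
  classical
  have data := hB.sysC hy hn hi
  refine data.plateau h𝒜 hνν' hw hw1 hs
    (Fw := fun l v => act (xw (fun i => ((g i, 1) : GG Ω)) v)) ?_ ?_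
    (md := fun p l => corrMean g w y n s p l) ?_ (fun p _ => rfl)
  · intro l v
    refine ⟨List.ofFn fun i => ((g (v i), 1) : GG Ω), List.length_ofFn, fun φ hφ => ?_, rfl⟩
    obtain ⟨i, rfl⟩ := List.mem_ofFn.1 hφ
    exact ⟨v i, rfl⟩
  · intro l k u v
    funext z
    change act (xw _ (Fin.append u v)) z = act (xw _ u) (act (xw _ v) z)
    rw [xw_append, act_mul]
  · intro p hp l
    unfold corrMean
    simp only [← degX_eq hy hn hi _ hp, xw_one, degX_one]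

variable {j : ℕ}

/-- **Étale correspondences: the system.** -/
theorem exists_sys_tensor (hy : NormalModel y) (hn : Algebra.trdeg ℂ K = n) (hn0 : 0 < n)
    {i : Fin (N + 1)} (hi : y i ≠ 0) (hT : TensorSheaf ℂ K n j) {S : Set (GG Ω)}
    (hS : ∀ x ∈ S, x.2 = 1 ∧ UnramAll n (pr₁ K x.1) ∧ UnramAll n (pr₂ K x.1)) {C₁ : ℝ}
    (hdeg : ∀ x ∈ S, tS K (act x ((HO Ω hy hi, 1) : SC Ω) ::ₘ
      Multiset.replicate (n - 1) ((HO Ω hy hi, 1) : SC Ω)) ≤ C₁) :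
    ∃ (𝒜 : Type) (_ : Nonempty 𝒜) (m : ℕ → ℝ) (M : 𝒜 → ℕ → SC Ω) (ν : ℕ) (c ε : ℝ), j ≤ ν ∧
      BSys (K := K) hy hi S n m M ν c ε C₁ := by
  have hess := hy.ess
  obtain ⟨U, h1, ⟨u, hind, hU⟩, ⟨B, h, hh, hUB⟩, hact⟩ := fixedO (Ω := Ω) hy hn hi hT
  exact exists_sysT hy hn hn0 hi h1 hind hU hh hUB (fun x hx => (hact x.1).1 (hS x hx).2.1)
    (fun x hx => (hact x.1).2 (hS x hx).2.2) (fun x hx => (hS x hx).1) hdeg

/-- **The joint dynamical degrees.** -/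
theorem tensor_joint (hy : NormalModel y) (hn : Algebra.trdeg ℂ K = n) (hn0 : 0 < n)
    (hT : TensorSheaf ℂ K n j) {S : Set (Ω ≃ₐ[ℂ] Ω)}
    (hS : ∀ g ∈ S, UnramAll n (pr₁ K g) ∧ UnramAll n (pr₂ K g)) {C : ℕ}
    (hC : ∀ g ∈ S, corrDegree g y n 1 ≤ C) :
    ∃ i, i + j ≤ n ∧ ∀ a ≤ j, ∀ p ≤ n, corrJoint S y n p ≤ corrJoint S y n (i + a) := by
  obtain ⟨i, hi⟩ := hy.ne
  obtain ⟨𝒜, h𝒜, m, M, ν, c, ε, hν, hB⟩ := exists_sys_tensor (K := K) (Ω := Ω) hy hn hn0 hi hT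
    (S := (fun g => ((g, 1) : GG Ω)) '' S) (C₁ := (C : ℝ)) (by
      rintro _ ⟨g, hgS, rfl⟩
      exact ⟨rfl, hS g hgS⟩) (by
      rintro _ ⟨g, hgS, rfl⟩
      have h1 := hC g hgS
      rw [← hone_deg hy hn hi g (by omega : 1 ≤ n), Multiset.replicate_one,
        Multiset.singleton_add, ← ENNReal.ofReal_natCast] at h1
      exact (ENNReal.ofReal_le_ofReal_iff (Nat.cast_nonneg _)).1 h1)
  exact joint_of_sys hy hn hi h𝒜 hν hB

/-- **The degrees of random products.** -/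
theorem tensor_random (hy : NormalModel y) (hn : Algebra.trdeg ℂ K = n) (hn0 : 0 < n)
    (hT : TensorSheaf ℂ K n j) {d : ℕ} {g : Fin d → (Ω ≃ₐ[ℂ] Ω)}
    (hS : ∀ i, UnramAll n (pr₁ K (g i)) ∧ UnramAll n (pr₂ K (g i)))
    {w : Fin d → ℝ} (hw : ∀ i, 0 ≤ w i) (hw1 : ∑ i, w i = 1) {s : ℝ} (hs : 0 ≤ s) :
    ∃ i, i + j ≤ n ∧ ∀ a ≤ j, ∀ p ≤ n,
      corrRandom g w y n s p ≤ corrRandom g w y n s (i + a) := by
  classical
  obtain ⟨i, hi⟩ := hy.ne
  obtain ⟨C₁, hC₁⟩ : ∃ C₁ : ℝ, C₁ = ∑ j, tS K (act ((g j, 1) : GG Ω) ((HO Ω hy hi, 1) : SC Ω) ::ₘ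
      Multiset.replicate (n - 1) ((HO Ω hy hi, 1) : SC Ω)) := ⟨_, rfl⟩
  obtain ⟨𝒜, h𝒜, m, M, ν, c, ε, hν, hB⟩ := exists_sys_tensor (K := K) (Ω := Ω) hy hn hn0 hi hT
    (S := Set.range fun i => ((g i, 1) : GG Ω)) (C₁ := C₁) (by
      rintro _ ⟨j, rfl⟩
      exact ⟨rfl, hS j⟩) (by
      rintro _ ⟨j, rfl⟩
      rw [hC₁]
      exact Finset.single_le_sum (f := fun j => tS K (act ((g j, 1) : GG Ω)
        ((HO Ω hy hi, 1) : SC Ω) ::ₘ Multiset.replicate (n - 1) ((HO Ω hy hi, 1) : SC Ω)))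
        (fun j _ => (tS_pos hy hn (by
          rw [Multiset.card_cons, Multiset.card_replicate]
          omega)).le) (Finset.mem_univ j))
  exact random_of_sys hy hn hi h𝒜 hν hB hw hw1 hs

end

end Pool.Agent.T2h12.TN
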