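import Pool.Agent.T2h12.TN.OF
import Pool.Agent.T2h12.OM.S3

/-!
Commuting étale correspondences and sheaves of tensor differentials: the rank theorem.
-/

set_option autoImplicit false
set_option linter.overlappingInstances false
set_option linter.unusedSectionVars false

open Filter Topology FF Module IntermediateField Pool.Agent.W602.GT Pool.Agent.W603.LV
  Pool.Agent.Y172 Pool.Agent.Y191 Pool.Agent.R887 Pool.Agent.N110 Pool.Agent.T2h12.OM
open Pool.Agent.N110.RK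
open Pool.Agent.N110.SE (ps ng ESys semi_rank stmSJ)
open scoped ENNReal

namespace Pool.Agent.T2h12.TN

section

variable {K Ω : Type} [Field K] [Field Ω] [Algebra ℂ K] [Algebra ℂ Ω] [Algebra K Ω]
  [IsScalarTower ℂ K Ω] [Algebra.IsAlgebraic K Ω] {N n : ℕ} {y : Fin (N + 1) → K}

/-- every set of elements with the property `Q` and with bounded degrees has a system -/
def HasSys (hy : NormalModel y) {i : Fin (N + 1)} (hi : y i ≠ 0) (n : ℕ) (Q : GG Ω → Prop)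
    (ν : ℕ) : Prop :=
  ∀ (S : Set (GG Ω)) (C₁ : ℝ), (∀ x ∈ S, Q x) →
    (∀ x ∈ S, tS K (act x ((HO Ω hy hi, 1) : SC Ω) ::ₘ
      Multiset.replicate (n - 1) ((HO Ω hy hi, 1) : SC Ω)) ≤ C₁) →
    ∃ (𝒜 : Type) (_ : Nonempty 𝒜) (m : ℕ → ℝ) (M : 𝒜 → ℕ → SC Ω) (ν' : ℕ) (c ε : ℝ), ν ≤ ν' ∧
      BSys (K := K) hy hi S n m M ν' c ε C₁

/-- the rank theorem, if the multipliers of the generators are at least `1` -/
theorem comm_auxQ (hy : NormalModel y) (hn : Algebra.trdeg ℂ K = n) (hn0 : 0 < n)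
    {i₀ : Fin (N + 1)} (hi : y i₀ ≠ 0) {Q : GG Ω → Prop} {ν : ℕ}
    (hsys : HasSys (K := K) hy hi n Q ν) {r : ℕ} {X : (Fin r → ℤ) → GG Ω}
    (hX : ∀ u v, X (u + v) = X u * X v) (hO : ∀ i, Q (X (Pi.single i 1)))
    (hχ : ∀ i, 1 ≤ chiS K n (X (Pi.single i 1))) :
    ∃ W : Submodule ℝ (Fin r → ℝ), r + ν ≤ finrank ℝ W + n ∧ ∀ w ∈ W, ∀ δ : ℝ, 0 < δ →
      ∃ B : ℝ, ∀ (l : ℕ) (v : Fin r → ℤ), (∀ i, |(v i : ℝ) - l * w i| < 1) →
        degX (X v) y n 1 ≤ B * Real.exp (δ * l) := by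
  classical
  have hess := hy.ess
  obtain ⟨C₁, hC₁⟩ : ∃ C₁ : ℝ, C₁ = ∑ j, tS K (act (X (Pi.single j 1))
      ((HO Ω hy hi, 1) : SC Ω) ::ₘ Multiset.replicate (n - 1) ((HO Ω hy hi, 1) : SC Ω)) :=
    ⟨_, rfl⟩
  have hle : ∀ z ∈ Set.range (fun i => X (Pi.single i 1)), tS K (act z
      ((HO Ω hy hi, 1) : SC Ω) ::ₘ Multiset.replicate (n - 1) ((HO Ω hy hi, 1) : SC Ω)) ≤ C₁ := by
    rintro _ ⟨j, rfl⟩
    rw [hC₁]
    exact Finset.single_le_sum (f := fun j => tS K (act (X (Pi.single j 1))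
      ((HO Ω hy hi, 1) : SC Ω) ::ₘ Multiset.replicate (n - 1) ((HO Ω hy hi, 1) : SC Ω)))
      (fun j _ => (tS_pos hy hn (by
        rw [Multiset.card_cons, Multiset.card_replicate]
        omega)).le) (Finset.mem_univ j)
  obtain ⟨𝒜, h𝒜, m, M, ν', c, ε, hνν', hB⟩ := hsys (Set.range fun i => X (Pi.single i 1)) C₁ (by
      rintro _ ⟨j, rfl⟩
      exact hO j) hle
  let _ := ordA K n M
  have hdir : IsDirected 𝒜 (· ≤ ·) := ⟨fun a b => by
    obtain ⟨d, hd⟩ := hB.dir a b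
    exact ⟨d, fun q => (hd q).1, fun q => (hd q).2⟩⟩
  obtain ⟨W, hW1, hW2⟩ := semi_rank stmSJ (hB.esys hy hn hi hX hχ)
  refine ⟨W, by omega, fun w hw δ hδ => ?_⟩
  obtain ⟨B, hB'⟩ := hW2 w hw δ hδ
  refine ⟨B, fun l v hv => ?_⟩
  refine le_trans (le_of_eq ?_) (hB' l v hv)
  rw [degX_eq hy hn hi _ (by omega : 1 ≤ n), Multiset.replicate_one, Multiset.singleton_add]
  obtain ⟨X', hX'⟩ : ∃ X', X' = X fun i => (ng v i : ℤ) := ⟨_, rfl⟩
  have e1 : (X fun i => (ps v i : ℤ)) = X' * X v := by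
    rw [hX', ← hX]
    congr 1
    funext i
    change ((v i).toNat : ℤ) = ((-v i).toNat : ℤ) + v i
    omega
  have e2 : (act (X fun i => (ps v i : ℤ)) ((HO Ω hy hi, 1) : SC Ω) ::ₘ
      Multiset.replicate (n - 1) (act (X fun i => (ng v i : ℤ)) ((HO Ω hy hi, 1) : SC Ω))) =
      (act (X v) ((HO Ω hy hi, 1) : SC Ω) ::ₘ
        Multiset.replicate (n - 1) ((HO Ω hy hi, 1) : SC Ω)).map (act X') := by
    rw [Multiset.map_cons, Multiset.map_replicate, ← act_mul, ← e1, hX']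
  have h3 := log_chi (K := K) hy hn hX fun i => (ng v i : ℤ)
  push_cast at h3
  rw [e2, tS_map (n := n) X' (by rw [Multiset.card_cons, Multiset.card_replicate]; omega), hX',
    h3, ← mul_assoc, ← Real.exp_add, neg_add_cancel, Real.exp_zero, one_mul]

/-- **The rank theorem.** -/
theorem comm_spaceQ (hy : NormalModel y) (hn : Algebra.trdeg ℂ K = n) (hn0 : 0 < n)
    {i₀ : Fin (N + 1)} (hi : y i₀ ≠ 0) {Q : GG Ω → Prop} (hQ : ∀ x, Q x → Q x⁻¹) {ν : ℕ}
    (hsys : HasSys (K := K) hy hi n Q ν) {r : ℕ} {X : (Fin r → ℤ) → GG Ω}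
    (hX : ∀ u v, X (u + v) = X u * X v) (hO : ∀ i, Q (X (Pi.single i 1))) :
    ∃ W : Submodule ℝ (Fin r → ℝ), r + ν ≤ finrank ℝ W + n ∧ ∀ w ∈ W,
      SubexpAlong (fun v => degX (X v) y n 1) w := by
  classical
  have hess := hy.ess
  obtain ⟨σ, hσ⟩ : ∃ σ : Fin r → ℤ, ∀ i, σ i =
      if 1 ≤ chiS K n (X (Pi.single i 1)) then 1 else -1 := ⟨_, fun _ => rfl⟩
  have hσ2 : ∀ i, σ i * σ i = 1 := by
    intro i
    rw [hσ]
    split_ifs <;> norm_num
  have hσσ : ∀ v : Fin r → ℤ, σ * (σ * v) = v := by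
    intro v
    funext i
    rw [Pi.mul_apply, Pi.mul_apply, ← mul_assoc, hσ2, one_mul]
  obtain ⟨Y, hY⟩ : ∃ Y : (Fin r → ℤ) → GG Ω, ∀ u, Y u = X (σ * u) := ⟨_, fun _ => rfl⟩
  have hYX : ∀ u v, Y (u + v) = Y u * Y v := by
    intro u v
    rw [hY, hY, hY, mul_add, hX]
  have hYe : ∀ i, (1 ≤ chiS K n (X (Pi.single i 1)) ∧ Y (Pi.single i 1) = X (Pi.single i 1)) ∨
      (¬ 1 ≤ chiS K n (X (Pi.single i 1)) ∧ Y (Pi.single i 1) = (X (Pi.single i 1))⁻¹) := by
    intro i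
    have e1 : σ * Pi.single i (1 : ℤ) = Pi.single i (σ i) := by
      funext j
      by_cases hj : j = i
      · subst hj
        simp
      · simp [hj]
    by_cases h1 : 1 ≤ chiS K n (X (Pi.single i 1))
    · left
      refine ⟨h1, ?_⟩
      rw [hY, e1, hσ, if_pos h1]
    · right
      refine ⟨h1, ?_⟩
      rw [hY, e1, hσ, if_neg h1, Pi.single_neg, hom_neg hX]
  have hYO : ∀ i, Q (Y (Pi.single i 1)) := by
    intro i
    rcases hYe i with ⟨-, h⟩ | ⟨-, h⟩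
    · rw [h]
      exact hO i
    · rw [h]
      exact hQ _ (hO i)
  have hYχ : ∀ i, 1 ≤ chiS K n (Y (Pi.single i 1)) := by
    intro i
    rcases hYe i with ⟨h1, h⟩ | ⟨h1, h⟩
    · rw [h]
      exact h1
    · rw [h]
      push Not at h1
      have h2 := chiS_mul (K := K) hy hn (X (Pi.single i 1)) (X (Pi.single i 1))⁻¹
      have h3 := chiS_pos (K := K) (n := n) (X (Pi.single i 1))
      have h4 := chiS_pos (K := K) (n := n) (X (Pi.single i 1))⁻¹
      have h5 : chiS K n (1 : GG Ω) = 1 := by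
        have h6 := chiS_mul (K := K) hy hn (1 : GG Ω) 1
        rw [mul_one] at h6
        have h7 := chiS_pos (K := K) (n := n) (1 : GG Ω)
        have h8 : chiS K n (1 : GG Ω) * 1 = chiS K n (1 : GG Ω) * chiS K n (1 : GG Ω) := by
          rw [mul_one]
          exact h6
        exact (mul_left_cancel₀ h7.ne' h8).symm
      rw [mul_inv_cancel, h5] at h2
      nlinarith
  obtain ⟨W, hW1, hW2⟩ := comm_auxQ hy hn hn0 hi hsys hYX hYO hYχ
  obtain ⟨τ, hτ⟩ : ∃ τ : (Fin r → ℝ) ≃ₗ[ℝ] (Fin r → ℝ), ∀ w i, τ w i = (σ i : ℝ) * w i := by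
    have h2 : ∀ i, (σ i : ℝ) * (σ i : ℝ) = 1 := fun i => by exact_mod_cast hσ2 i
    refine ⟨{ toFun := fun w i => (σ i : ℝ) * w i
              map_add' := fun a b => by
                funext i
                simp only [Pi.add_apply]
                ring
              map_smul' := fun c a => by
                funext i
                simp only [Pi.smul_apply, smul_eq_mul, RingHom.id_apply]
                ring
              invFun := fun w i => (σ i : ℝ) * w i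
              left_inv := fun w => by
                funext i
                simp only []
                rw [← mul_assoc, h2, one_mul]
              right_inv := fun w => by
                funext i
                simp only []
                rw [← mul_assoc, h2, one_mul] }, fun w i => rfl⟩
  refine ⟨W.map (τ : (Fin r → ℝ) →ₗ[ℝ] (Fin r → ℝ)), ?_, ?_⟩
  · rw [LinearEquiv.finrank_map_eq]
    exact hW1
  · rintro _ ⟨w, hw, rfl⟩ δ hδ
    obtain ⟨B, hB⟩ := hW2 w hw δ hδ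
    refine ⟨B, fun l v hv => ?_⟩
    have h1 := hB l (σ * v) fun i => ?_
    · rw [hY, hσσ] at h1
      exact h1
    · have h3 := hv i
      have h4 : (τ : (Fin r → ℝ) →ₗ[ℝ] (Fin r → ℝ)) w i = (σ i : ℝ) * w i := hτ w i
      rw [h4] at h3
      rw [Pi.mul_apply]
      push_cast
      have h5 : ((σ i : ℝ) = 1) ∨ ((σ i : ℝ) = -1) := by
        rw [hσ]
        split_ifs
        · left; norm_num
        · right; norm_num
      rcases h5 with h5 | h5
      · rw [h5] at h3 ⊢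
        rw [one_mul]
        rwa [one_mul] at h3
      · rw [h5] at h3 ⊢
        rw [← abs_neg]
        convert h3 using 2
        ring

/-- **The rank theorem for commuting étale correspondences.** -/
theorem tensor_rank (hy : NormalModel y) (hn : Algebra.trdeg ℂ K = n) (hn0 : 0 < n) {j : ℕ}
    (hT : TensorSheaf ℂ K n j) {r : ℕ} {g : (Fin r → ℤ) → (Ω ≃ₐ[ℂ] Ω)}
    (hg : ∀ u v, g (u + v) = g u * g v)
    (hp : ∀ i, UnramAll n (pr₁ K (g (Pi.single i 1))) ∧ UnramAll n (pr₂ K (g (Pi.single i 1))))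
    {s : ℕ} (hs : GrowthRankGe (fun v => (corrDegree (g v) y n 1).toReal) s) : s + j ≤ n := by
  have hess := hy.ess
  obtain ⟨i₀, hi⟩ := hy.ne
  obtain ⟨U, h1, ⟨u, hind, hU⟩, ⟨B, h, hh, hUB⟩, hact⟩ := fixedO (Ω := Ω) hy hn hi hT
  obtain ⟨Q, hQ⟩ : ∃ Q : GG Ω → Prop, ∀ x, Q x ↔ x.2 = 1 ∧
      (∃ a : Ω, a ≠ 0 ∧ ∀ u ∈ U, a * x.1 u ∈ U) ∧ (∃ a : Ω, a ≠ 0 ∧ ∀ u ∈ U, a * x.1⁻¹ u ∈ U) :=
    ⟨_, fun _ => Iff.rfl⟩
  obtain ⟨X, hX⟩ : ∃ X : (Fin r → ℤ) → GG Ω, ∀ u, X u = (g u, (1 : PQ)) := ⟨_, fun _ => rfl⟩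
  have hXa : ∀ u v, X (u + v) = X u * X v := by
    intro u v
    rw [hX, hX, hX, hg]
    exact Prod.ext rfl (mul_one (1 : PQ)).symm
  obtain ⟨W, hW1, hW2⟩ := comm_spaceQ (K := K) hy hn hn0 hi (Q := Q) (ν := j) (fun x hx => by
      rw [hQ] at hx ⊢
      obtain ⟨h2, h3, h4⟩ := hx
      refine ⟨?_, h4, ?_⟩
      · change x.2⁻¹ = 1
        rw [h2, inv_one]
      · change ∃ a : Ω, a ≠ 0 ∧ ∀ u ∈ U, a * (x.1⁻¹)⁻¹ u ∈ U
        rw [inv_inv]
        exact h3)
    (fun S C₁ hS hdeg => exists_sysT hy hn hn0 hi h1 hind hU hh hUB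
      (fun x hx => ((hQ x).1 (hS x hx)).2.1) (fun x hx => ((hQ x).1 (hS x hx)).2.2)
      (fun x hx => ((hQ x).1 (hS x hx)).1) hdeg)
    hXa (fun i => by
      rw [hQ, hX]
      exact ⟨rfl, (hact _).1 (hp i).1, (hact _).2 (hp i).2⟩)
  have e1 : (fun v => degX (X v) y n 1) = fun v => (corrDegree (g v) y n 1).toReal := by
    funext v
    rw [hX, degX_one]
  rw [e1] at hW2
  have := hs W hW2
  omega

end

end Pool.Agent.T2h12.TN
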