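import Mathlib

/-!
A finite dimensional space of functions fixed by all semilinear maps which preserve a finite
dimensional space of vectors: determinants.
-/

set_option autoImplicit false
set_option linter.unusedSectionVars false

open Module

namespace Pool.Agent.T2h12.TN

section

variable {k K W : Type} [Field k] [Field K] [Algebra k K] [AddCommGroup W] [Module K W]
  [Module k W] [IsScalarTower k K W]

theorem prod_mem_pow' {ι : Type} (C : Submodule k K) (s : Finset ι) (x : ι → K)
    (h : ∀ a ∈ s, x a ∈ C) : ∏ a ∈ s, x a ∈ C ^ s.card := by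
  classical
  induction s using Finset.induction_on with
  | empty =>
    rw [Finset.prod_empty, Finset.card_empty, pow_zero]
    exact Submodule.one_le.1 le_rfl
  | insert a s ha ih =>
    rw [Finset.prod_insert ha, Finset.card_insert_of_notMem ha, pow_succ, mul_comm (x a)]
    exact Submodule.mul_mem_mul (ih fun b hb => h b (Finset.mem_insert_of_mem hb))
      (h a (Finset.mem_insert_self _ _))

/-- **The determinant lemma.** -/
theorem wedge_fix (V : Submodule k W) (hV : Module.Finite k V) {v0 : W} (hv0 : v0 ∈ V)
    (h0 : v0 ≠ 0) : ∃ U : Submodule k K, U.FG ∧ (1 : K) ∈ U ∧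
      (∀ a : K, a • v0 ∈ V → a ∈ U) ∧
      ∀ (ψ : K →ₐ[k] K) (Ψ : W →+ W), (∀ a w, Ψ (a • w) = ψ a • Ψ w) →
        (∀ v ∈ V, Ψ v ∈ V) →
        (∀ (ι : Type) [Fintype ι] (w : ι → W), LinearIndependent K w →
          LinearIndependent K (fun a => Ψ (w a))) →
        ∃ g : K, g ≠ 0 ∧ ∀ u ∈ U, g * ψ u ∈ U := by
  classical
  obtain ⟨b, hbV, hvb, hVb, hbi⟩ := exists_linearIndepOn_id_extension (K := K) (s := {v0})
    (t := (V : Set W)) (by
      rw [LinearIndepOn, linearIndependent_unique_iff]
      exact h0) (by
      rintro _ rfl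
      exact hv0)
  have hv0b : v0 ∈ b := hvb rfl
  have hind : LinearIndependent K (fun a : b => (a : W)) := hbi
  have hfin : Finite b := by
    have h1 : LinearIndependent k (fun a : b => (⟨a, hbV a.2⟩ : V)) := by
      have h2 : LinearIndependent k (fun a : b => (a : W)) := hind.restrict_scalars
        (fun x y hxy => by
          beta_reduce at hxy
          rw [Algebra.smul_def, Algebra.smul_def, mul_one, mul_one] at hxy
          exact (algebraMap k K).injective hxy)
      exact LinearIndependent.of_comp V.subtype h2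
    have := h1.lt_aleph0_of_finiteDimensional
    exact Cardinal.mk_lt_aleph0_iff.1 this
  have := Fintype.ofFinite b
  obtain ⟨c, hc⟩ : ∃ c : W →ₗ[K] (b → K), ∀ a : b, c a = Pi.single a 1 := by
    obtain ⟨c, hc⟩ := LinearMap.exists_extend (p := Submodule.span K (Set.range fun a : b => (a : W)))
      ((Basis.span hind).equivFun.toLinearMap)
    refine ⟨c, fun a => ?_⟩
    have h1 := LinearMap.congr_fun hc (Basis.span hind a)
    rw [LinearMap.comp_apply, Submodule.subtype_apply, LinearEquiv.coe_coe] at h1
    have h2 : ((Basis.span hind a : Submodule.span K (Set.range fun a : b => (a : W))) : W) = a :=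
      congrArg Subtype.val (Basis.span_apply hind a)
    rw [h2] at h1
    rw [h1]
    funext l
    rw [Basis.equivFun_self, Pi.single_apply]
    by_cases hal : a = l
    · rw [if_pos hal, if_pos hal.symm]
    · rw [if_neg hal, if_neg (Ne.symm hal)]
  have hexp : ∀ w ∈ Submodule.span K b, w = ∑ a : b, c w a • (a : W) := by
    intro w hw
    induction hw using Submodule.span_induction with
    | mem x hx =>
      have h1 := hc ⟨x, hx⟩
      change c x = _ at h1
      rw [h1, Finset.sum_eq_single (⟨x, hx⟩ : b)]
      · rw [Pi.single_eq_same, one_smul]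
      · intro a _ hne
        rw [Pi.single_eq_of_ne hne, zero_smul]
      · intro h
        exact absurd (Finset.mem_univ _) h
    | zero =>
      rw [map_zero, Finset.sum_eq_zero]
      intro a _
      rw [Pi.zero_apply, zero_smul]
    | add x y _ _ hx hy =>
      conv_lhs => rw [hx, hy]
      rw [map_add, ← Finset.sum_add_distrib]
      refine Finset.sum_congr rfl fun a _ => ?_
      rw [Pi.add_apply, add_smul]
    | smul t x _ hx =>
      conv_lhs => rw [hx]
      rw [map_smul, Finset.smul_sum]
      refine Finset.sum_congr rfl fun a _ => ?_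
      rw [Pi.smul_apply, smul_assoc]
  have hexpV : ∀ w ∈ V, w = ∑ a : b, c w a • (a : W) := fun w hw => hexp w (hVb hw)
  obtain ⟨M, hM⟩ : ∃ M : (b → W) → Matrix b b K, M = fun v => Matrix.of fun i j => c (v j) i :=
    ⟨_, rfl⟩
  have hMa : ∀ v i j, M v i j = c (v j) i := fun v i j => by rw [hM]; rfl
  obtain ⟨U, hU⟩ : ∃ U : Submodule k K, U = Submodule.span k
      {x | ∃ v : b → W, (∀ i, v i ∈ V) ∧ (M v).det = x} := ⟨_, rfl⟩
  have hdetU : ∀ v : b → W, (∀ i, v i ∈ V) → (M v).det ∈ U := fun v hv => by
    rw [hU]
    exact Submodule.subset_span ⟨v, hv, rfl⟩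
  have hM1 : M (fun a => (a : W)) = 1 := by
    ext i j
    rw [hMa, hc, Pi.single_apply, Matrix.one_apply]
  refine ⟨U, ?_, ?_, ?_, ?_⟩
  · -- finite
    obtain ⟨C, hC⟩ : ∃ C : Submodule k K, C = ⨆ i : b,
        V.map (((LinearMap.proj i : (b → K) →ₗ[K] K) ∘ₗ c).restrictScalars k) := ⟨_, rfl⟩
    have hVfg : V.FG := Module.Finite.iff_fg.1 hV
    have hCfg : C.FG := by
      rw [hC]
      exact Submodule.fg_iSup _ fun i => hVfg.map _
    have hCm : ∀ v ∈ V, ∀ i, c v i ∈ C := by
      intro v hv i
      rw [hC]
      exact Submodule.mem_iSup_of_mem i ⟨v, hv, rfl⟩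
    have hUC : U ≤ C ^ (Fintype.card b) := by
      rw [hU, Submodule.span_le]
      rintro _ ⟨v, hv, rfl⟩
      change (M v).det ∈ C ^ (Fintype.card b)
      rw [Matrix.det_apply]
      refine Submodule.sum_mem _ fun σ _ => ?_
      have h1 : ∏ i, M v (σ i) i ∈ C ^ (Fintype.card b) := by
        have := prod_mem_pow' C Finset.univ (fun i : b => M v (σ i) i) (fun i _ => by
          rw [hMa]
          exact hCm _ (hv i) _)
        rwa [Finset.card_univ] at this
      rcases Int.units_eq_one_or (Equiv.Perm.sign σ) with h2 | h2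
      · rw [h2, one_smul]
        exact h1
      · rw [h2, Units.neg_smul, one_smul]
        exact Submodule.neg_mem _ h1
    have h2 : (C ^ (Fintype.card b)).FG := hCfg.pow _
    have h3 : Module.Finite k (C ^ (Fintype.card b) : Submodule k K) := Module.Finite.iff_fg.2 h2
    exact Module.Finite.iff_fg.1 (Module.Finite.of_injective (Submodule.inclusion hUC)
      (Submodule.inclusion_injective hUC))
  · have h1 := hdetU (fun a => (a : W)) fun i => hbV i.2
    rwa [hM1, Matrix.det_one] at h1
  · intro a ha
    have h1 := hdetU (Function.update (fun a => (a : W)) ⟨v0, hv0b⟩ (a • v0)) (by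
      intro i
      by_cases hi : i = ⟨v0, hv0b⟩
      · rw [hi, Function.update_self]
        exact ha
      · rw [Function.update_of_ne hi]
        exact hbV i.2)
    have h2 : M (Function.update (fun a => (a : W)) ⟨v0, hv0b⟩ (a • v0)) =
        Matrix.updateCol 1 ⟨v0, hv0b⟩ (a • fun i => (1 : Matrix b b K) i ⟨v0, hv0b⟩) := by
      ext i j
      rw [hMa, Matrix.updateCol_apply]
      by_cases hj : j = ⟨v0, hv0b⟩
      · rw [hj, Function.update_self, if_pos rfl, map_smul, Pi.smul_apply, Pi.smul_apply]
        congr 1
        have := hc ⟨v0, hv0b⟩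
        change c v0 = _ at this
        rw [this, Pi.single_apply, Matrix.one_apply]
      · rw [Function.update_of_ne hj, if_neg hj, hc, Pi.single_apply, Matrix.one_apply]
    rw [h2, Matrix.det_updateCol_smul, Matrix.updateCol_eq_self, Matrix.det_one, mul_one] at h1
    exact h1
  · intro ψ Ψ hsemi hΨV hΨi
    have hcΨ : ∀ v ∈ V, ∀ l, c (Ψ v) l = ∑ i : b, c (Ψ i) l * ψ (c v i) := by
      intro v hv l
      conv_lhs => rw [hexpV v hv]
      rw [map_sum, map_sum, Finset.sum_apply]
      refine Finset.sum_congr rfl fun i _ => ?_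
      rw [hsemi, map_smul, Pi.smul_apply, smul_eq_mul, mul_comm]
    have hmat : ∀ v : b → W, (∀ i, v i ∈ V) →
        M (fun i => Ψ (v i)) = M (fun i => Ψ i) * (M v).map ψ := by
      intro v hv
      ext i j
      rw [Matrix.mul_apply, hMa, hcΨ _ (hv j)]
      refine Finset.sum_congr rfl fun l _ => ?_
      rw [hMa, Matrix.map_apply, hMa]
    have hg : (M (fun i => Ψ i)).det ≠ 0 := by
      have h1 : LinearIndependent K (fun i : b => Ψ i) := hΨi b (fun i => (i : W)) hind
      have h2 : LinearIndependent K (fun i : b => c (Ψ i)) := by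
        rw [Fintype.linearIndependent_iff] at h1 ⊢
        intro g hg0
        apply h1
        have h3 : ∑ i, g i • Ψ (i : W) ∈ Submodule.span K b :=
          Submodule.sum_mem _ fun i _ => Submodule.smul_mem _ _ (hVb (hΨV _ (hbV i.2)))
        rw [hexp _ h3]
        refine Finset.sum_eq_zero fun l _ => ?_
        rw [map_sum]
        simp only [map_smul]
        rw [hg0, Pi.zero_apply, zero_smul]
      have h3 : LinearIndependent K (M (fun i => Ψ i)).col := by
        rw [hM]
        exact h2
      have h4 := Matrix.linearIndependent_cols_iff_isUnit.1 h3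
      exact ((Matrix.isUnit_iff_isUnit_det _).1 h4).ne_zero
    refine ⟨_, hg, fun u hu => ?_⟩
    have hu' := hu
    rw [hU] at hu'
    induction hu' using Submodule.span_induction with
    | mem x hx =>
      obtain ⟨v, hv, rfl⟩ := hx
      have h1 := hdetU (fun i => Ψ (v i)) fun i => hΨV _ (hv i)
      rw [hmat v hv, Matrix.det_mul] at h1
      have h2 : ((M v).map ψ).det = ψ (M v).det := by
        exact (AlgHom.map_det ψ (M v)).symm
      rwa [h2] at h1
    | zero => rw [map_zero, mul_zero]; exact Submodule.zero_mem _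
    | add x y hx hy h1 h2 =>
      rw [map_add, mul_add]
      rw [← hU] at hx hy
      exact Submodule.add_mem _ (h1 hx) (h2 hy)
    | smul t x hx h1 =>
      rw [← hU] at hx
      have e1 : (M fun i => Ψ i).det * ψ (t • x) = t • ((M fun i => Ψ i).det * ψ x) := by
        rw [map_smul, mul_smul_comm]
      rw [e1]
      exact Submodule.smul_mem _ _ (h1 hx)

end

end Pool.Agent.T2h12.TN
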