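import Pool.Agent.T2h12.TN.B
import Pool.Agent.T2h12.TN.W
import Pool.Agent.T2h12.OM.I
import Pool.Agent.T2h12.TN.Defs

/-!
The space of regular tensor differentials and the space of functions fixed by all self-maps.
-/

set_option autoImplicit false
set_option linter.overlappingInstances false
set_option linter.unusedSectionVars false

open FF Module Pool.Agent.W602.GT Pool.Agent.W603.LV Pool.Agent.Y172 Pool.Agent.Y191
  Pool.Agent.R887 Pool.Agent.N110
open Pool.Agent.T2H06.DYL (IsDivisor)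

namespace Pool.Agent.T2h12.TN

section

/-- independence is preserved by maps of fields -/
theorem indep_map {K L ι J : Type} [Field K] [Field L] [Fintype ι] [Fintype J] (ψ : K →+* L)
    {v : ι → J → K} (hv : LinearIndependent K v) :
    LinearIndependent L (fun a j => ψ (v a j)) := by
  classical
  have h1 : Function.Injective (Fintype.linearCombination K v) :=
    linearIndependent_iff_injective_fintypeLinearCombination.1 hv
  obtain ⟨h, hh⟩ := (Fintype.linearCombination K v).exists_leftInverse_of_injective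
    (LinearMap.ker_eq_bot.2 h1)
  have h2 : ∀ a c, ∑ j, v a j * h (Pi.single j 1) c = if a = c then 1 else 0 := by
    intro a c
    have h3 : h (v a) = Pi.single a 1 := by
      have h4 := LinearMap.congr_fun hh (Pi.single a 1)
      rw [LinearMap.comp_apply, Fintype.linearCombination_apply_single, one_smul] at h4
      exact h4
    have h5 : v a = ∑ j, v a j • (Pi.single j 1 : J → K) := by
      funext l
      rw [Finset.sum_apply]
      simp only [Pi.smul_apply, Pi.single_apply, smul_eq_mul, mul_ite, mul_one, mul_zero]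
      rw [Finset.sum_ite_eq, if_pos (Finset.mem_univ _)]
    have h6 := congrFun h3 c
    rw [h5, map_sum, Finset.sum_apply] at h6
    simp only [map_smul, Pi.smul_apply, smul_eq_mul] at h6
    rw [h6, Pi.single_apply]
    by_cases hac : a = c
    · rw [if_pos hac, if_pos hac.symm]
    · rw [if_neg hac, if_neg (Ne.symm hac)]
  rw [Fintype.linearIndependent_iff]
  intro g hg c
  have h3 : ∀ j, ∑ a, g a * ψ (v a j) = 0 := by
    intro j
    have h4 := congrFun hg j
    rw [Finset.sum_apply] at h4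
    exact h4
  have h4 : ∑ j, (∑ a, g a * ψ (v a j)) * ψ (h (Pi.single j 1) c) = 0 :=
    Finset.sum_eq_zero fun j _ => by rw [h3, zero_mul]
  have h5 : ∑ j, (∑ a, g a * ψ (v a j)) * ψ (h (Pi.single j 1) c) =
      ∑ a, g a * ψ (∑ j, v a j * h (Pi.single j 1) c) := by
    simp only [Finset.sum_mul, map_sum, map_mul, Finset.mul_sum]
    rw [Finset.sum_comm]
    refine Finset.sum_congr rfl fun a _ => Finset.sum_congr rfl fun j _ => ?_
    ring
  rw [h5] at h4
  simp only [h2] at h4
  rw [Finset.sum_eq_single c] at h4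
  · rwa [if_pos rfl, map_one, mul_one] at h4
  · intro a _ hac
    rw [if_neg hac, map_zero, mul_zero]
  · intro h6
    exact absurd (Finset.mem_univ _) h6

end

section

variable {K : Type} [Field K] [Algebra ℂ K]

/-- the tensors of degree `m` -/
abbrev Ten (K : Type) [Field K] [Algebra ℂ K] (m : ℕ) : Type :=
  MultilinearMap K (fun _ : Fin m => Derivation ℂ K K) K

theorem reg_zero' (P : Place ℂ K) : P.Reg 0 := Or.inl rfl

/-- the regular tensors -/
def regT (K : Type) [Field K] [Algebra ℂ K] (n m : ℕ) : Submodule ℂ (Ten K m) where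
  carrier := {T | ∀ P : Place ℂ K, Divisorial n P → ∀ D : Fin m → Derivation ℂ K K,
    (∀ i, DerReg P (D i)) → Ge P 0 (T D)}
  zero_mem' := fun P _ D _ => Or.inl rfl
  add_mem' := fun h1 h2 P hP D hD => (h1 P hP D hD).add (h2 P hP D hD)
  smul_mem' := fun c T h P hP D hD => by
    have h2 := (Ge.const (P := P) c).mul (h P hP D hD)
    rw [zero_add] at h2
    change Ge P 0 (c • T D)
    rwa [Algebra.smul_def]

theorem mem_regT {n m : ℕ} {T : Ten K m} : T ∈ regT K n m ↔ ∀ P : Place ℂ K, Divisorial n P →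
    ∀ D : Fin m → Derivation ℂ K K, (∀ i, DerReg P (D i)) → Ge P 0 (T D) := Iff.rfl

instance {m : ℕ} : IsScalarTower ℂ K (Ten K m) :=
  ⟨fun c a T => by
    ext D
    change (c • a) • T D = c • (a • T D)
    rw [smul_assoc]⟩

/-- the pull back as an additive map -/
noncomputable def pbA {n m : ℕ} (ψ : K →ₐ[ℂ] K) (x : Fin n → K) (E : Fin n → Derivation ℂ K K) :
    Ten K m →+ Ten K m where
  toFun T := pbM ψ x E T
  map_zero' := by
    ext D
    rw [pbM_apply]
    refine Finset.sum_eq_zero fun I _ => ?_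
    change _ * ψ (0 : K) = 0
    rw [map_zero, mul_zero]
  map_add' T T' := by
    ext D
    change pbM ψ x E (T + T') D = pbM ψ x E T D + pbM ψ x E T' D
    rw [pbM_apply, pbM_apply, pbM_apply, ← Finset.sum_add_distrib]
    refine Finset.sum_congr rfl fun I _ => ?_
    change _ * ψ (T _ + T' _) = _
    rw [map_add, mul_add]

theorem pbA_smul {n m : ℕ} (ψ : K →ₐ[ℂ] K) (x : Fin n → K) (E : Fin n → Derivation ℂ K K)
    (a : K) (T : Ten K m) : pbA ψ x E (a • T) = ψ a • pbA ψ x E T := by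
  ext D
  change pbM ψ x E (a • T) D = ψ a * pbM ψ x E T D
  rw [pbM_apply, pbM_apply, Finset.mul_sum]
  refine Finset.sum_congr rfl fun I _ => ?_
  change _ * ψ (a * T _) = _
  rw [map_mul]
  ring

theorem pbA_indep {n m : ℕ} {x : Fin n → K} {E : Fin n → Derivation ℂ K K}
    (hx : IsTranscendenceBasis ℂ x) (hE : ∀ i j, E i (x j) = if i = j then 1 else 0)
    (ψ : K →ₐ[ℂ] K) {ι : Type} [Fintype ι] {w : ι → Ten K m} (hw : LinearIndependent K w) :
    LinearIndependent K (fun a => pbA ψ x E (w a)) := by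
  classical
  have hind : AlgebraicIndependent ℂ (fun i => ψ (x i)) :=
    hx.1.map' (f := ψ) ψ.toRingHom.injective
  obtain ⟨F, hF⟩ := Pool.Agent.Y191.exists_dual hind
  have h1 : LinearIndependent K (fun a (I : Fin m → Fin n) => w a fun k => E (I k)) := by
    rw [Fintype.linearIndependent_iff] at hw ⊢
    intro g hg
    apply hw
    ext D
    rw [tensor_expand hx hE]
    refine Finset.sum_eq_zero fun I _ => ?_
    have h2 := congrFun hg I
    rw [Finset.sum_apply] at h2
    have h3 : (∑ a, g a • w a) (fun k => E (I k)) = 0 := by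
      rw [_root_.sum_apply]
      exact h2
    rw [h3, mul_zero]
  have h2 := indep_map ψ.toRingHom h1
  rw [Fintype.linearIndependent_iff] at h2 ⊢
  intro g hg
  apply h2
  funext I
  have h3 : (∑ a, g a • pbA ψ x E (w a)) (fun k => F (I k)) = 0 := by rw [hg]; rfl
  rw [_root_.sum_apply] at h3
  rw [Finset.sum_apply]
  change _ = (0 : K)
  rw [← h3]
  refine Finset.sum_congr rfl fun a _ => ?_
  change g a * ψ (w a fun k => E (I k)) = g a * pbM ψ x E (w a) (fun k => F (I k))
  rw [pbM_apply, Finset.sum_eq_single I]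
  · have h2 : ∏ k, F (I k) (ψ (x (I k))) = 1 :=
      Finset.prod_eq_one fun k _ => by rw [hF, if_pos rfl]
    rw [h2, one_mul]
  · intro J _ hJ
    obtain ⟨k, hk⟩ := Function.ne_iff.1 hJ
    rw [Finset.prod_eq_zero (Finset.mem_univ k) (by rw [hF, if_neg (Ne.symm hk)]), zero_mul]
  · intro h3
    exact absurd (Finset.mem_univ I) h3

end

section

variable {K : Type} [Field K] [Algebra ℂ K] {N n : ℕ} {y : Fin (N + 1) → K}

theorem unif_div (hy : NormalModel y) (E : Fin n → Derivation ℂ K K) (m : ℕ) :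
    ∃ A : Place ℂ K → ℚ, IsDivisor y A ∧ ∀ a : K,
      (∀ P, IsPrimeDivisor y P → ∀ t : K, (∀ i, DerReg P (t • E i)) → P.Reg (t ^ m * a)) →
      ∀ P, IsPrimeDivisor y P → a = 0 ∨ -(A P) ≤ P.ord a := by
  classical
  have h1 : ∀ j, ∃ s : K, s ≠ 0 ∧ (y j ≠ 0 → s ∈ chart y j) ∧
      (y j ≠ 0 → ∀ i, ∀ f ∈ chart y j, s * E i f ∈ chart y j) := by
    intro j
    by_cases hj : y j = 0
    · exact ⟨1, one_ne_zero, fun h => absurd hj h, fun h => absurd hj h⟩
    · obtain ⟨s, hs, hs0, hsD⟩ := exists_den_frame hy hj E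
      exact ⟨s, hs0, fun _ => hs, fun _ => hsD⟩
  choose s hs0 hs hsD using h1
  refine ⟨fun P => (m : ℚ) * ∑ j, |(P.ord (s j) : ℚ)|, ?_, fun a ha P hP => ?_⟩
  · refine (Set.finite_iUnion fun j => finite_ord hy (hs0 j)).subset ?_
    rintro P ⟨hP, hne⟩
    rw [Set.mem_iUnion]
    by_contra hcon
    push Not at hcon
    apply hne
    beta_reduce
    rw [Finset.sum_eq_zero, mul_zero]
    intro j _
    have h2 : P.ord (s j) = 0 := by
      by_contra h3
      exact hcon j ⟨hP, h3⟩
    rw [h2, Int.cast_zero, abs_zero]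
  by_cases ha0 : a = 0
  · exact Or.inl ha0
  right
  obtain ⟨l, hl⟩ := exists_centred hy P
  have h2 := ha P hP (s l) fun i => derReg_of_chart hP hl fun f hf => hsD l hl.1 i f hf
  have h3 := (P.reg_iff (mul_ne_zero (pow_ne_zero _ (hs0 l)) ha0)).1 h2
  rw [P.ord_mul (pow_ne_zero _ (hs0 l)) ha0, P.ord_pow] at h3
  have h5 : |(P.ord (s l) : ℚ)| ≤ ∑ j, |(P.ord (s j) : ℚ)| :=
    Finset.single_le_sum (f := fun j => |(P.ord (s j) : ℚ)|) (fun j _ => abs_nonneg _)
      (Finset.mem_univ l)
  have h6 := mul_le_mul_of_nonneg_left ((le_abs_self (P.ord (s l) : ℚ)).trans h5)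
    (show (0 : ℚ) ≤ m from Nat.cast_nonneg _)
  have h7 : (0 : ℚ) ≤ m * P.ord (s l) + P.ord a := by exact_mod_cast h3
  beta_reduce
  linarith

/-- **The space of regular tensors is finite dimensional.** -/
theorem fin_regT (hy : NormalModel y) (hn : Algebra.trdeg ℂ K = n) (m : ℕ) :
    Module.Finite ℂ (regT K n m) := by
  obtain ⟨x, E, hx, hE⟩ := exists_crd hn (k := ℂ) (K := K)
  obtain ⟨A, hA, hAa⟩ := unif_div hy E m
  have h1 : Module.Finite ℂ (Lsp y 0 0 A) := OM.fin_L0 hy hn hA 0
  have hmem : ∀ T ∈ regT K n m, ∀ I : Fin m → Fin n, T (fun k => E (I k)) ∈ Lsp y 0 0 A := by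
    intro T hT I P hP
    refine (hAa _ (fun Q hQ t ht => ?_) P hP).imp_right fun h => ?_
    · have h2 := hT Q (hQ.divisorial hy hn) (fun k => t • E (I k)) fun k => ht (I k)
      rw [MultilinearMap.map_smul_univ, Finset.prod_const, Finset.card_univ, Fintype.card_fin,
        smul_eq_mul] at h2
      exact h2
    · rw [Nat.cast_zero, zero_mul, zero_add]
      exact h
  let Φ : regT K n m →ₗ[ℂ] ((Fin m → Fin n) → Lsp y 0 0 A) :=
    { toFun := fun T I => ⟨T.1 (fun k => E (I k)), hmem _ T.2 I⟩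
      map_add' := fun _ _ => rfl
      map_smul' := fun _ _ => rfl }
  refine Module.Finite.of_injective Φ fun T T' h => ?_
  apply Subtype.ext
  ext D
  rw [tensor_expand hx hE T.1 D, tensor_expand hx hE T'.1 D]
  refine Finset.sum_congr rfl fun I _ => ?_
  have h2 := congrArg Subtype.val (congrFun h I)
  change T.1 (fun k => E (I k)) = T'.1 (fun k => E (I k)) at h2
  rw [h2]

/-- **The space of functions fixed by all dominant rational self-maps.** -/
theorem fixed_space (hy : NormalModel y) (hn : Algebra.trdeg ℂ K = n) {j : ℕ}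
    (hT : TensorSheaf ℂ K n j) : ∃ U : Submodule ℂ K, U.FG ∧ (1 : K) ∈ U ∧
      (∃ u : Fin j → K, AlgebraicIndependent ℂ u ∧ ∀ l, u l ∈ U) ∧
      ∀ ψ : K →ₐ[ℂ] K, ∃ g : K, g ≠ 0 ∧ ∀ u ∈ U, g * ψ u ∈ U := by
  obtain ⟨m, T, f, hT0, hf0, hind, hreg⟩ := hT
  obtain ⟨x, E, hx, hE⟩ := exists_crd hn (k := ℂ) (K := K)
  have hmem : ∀ l, f l • T ∈ regT K n m := fun l P hP D hD => hreg P hP D hD l
  obtain ⟨U, hU, h1, hUa, hψ⟩ := wedge_fix (K := K) (regT K n m) (fin_regT hy hn m) (hmem 0)
    (smul_ne_zero hf0 hT0)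
  refine ⟨U, hU, h1, ⟨fun l => f l.succ / f 0, hind, fun l => hUa _ ?_⟩, fun ψ => ?_⟩
  · rw [smul_smul, div_mul_cancel₀ _ hf0]
    exact hmem l.succ
  · refine hψ ψ (pbA ψ x E) (pbA_smul ψ x E) ?_ fun ι _ w hw => pbA_indep hx hE ψ hw
    intro T' hT' w hw D hD
    have h2 := pbM_reg hy.ess hn hn ψ hx hE T' (f := 1) (fun P hP D hD => by
      rw [one_mul]
      exact hT' P hP D hD) w hw D hD
    rwa [map_one, one_mul] at h2

/-- tensors on images -/
theorem TensorSheaf.image {M : Type} [Field M] [Algebra ℂ M] {d : ℕ}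
    (hessM : Algebra.EssFiniteType ℂ M) (hd : Algebra.trdeg ℂ M = d)
    (hn : Algebra.trdeg ℂ K = n) (ι : M →ₐ[ℂ] K) {j : ℕ} (h : TensorSheaf ℂ M d j) :
    TensorSheaf ℂ K n j := by
  obtain ⟨m, T, f, hT, hf0, hind, hreg⟩ := h
  obtain ⟨x, E, hx, hE⟩ := exists_crd hd (k := ℂ) (K := M)
  have hind' : AlgebraicIndependent ℂ (fun i => ι (x i)) :=
    hx.1.map' (f := ι) ι.toRingHom.injective
  obtain ⟨F, hF⟩ := Pool.Agent.Y191.exists_dual hind'
  refine ⟨m, pbM ι x E T, fun l => ι (f l), pbM_ne ι hx hE hT hF, by rwa [Ne, map_eq_zero],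
    ?_, fun P hP D hD l => pbM_reg hessM hd hn ι hx hE T (fun Q hQ D hD => hreg Q hQ D hD l)
      P hP D hD⟩
  have h1 := hind.map' (f := ι) ι.toRingHom.injective
  have e1 : (fun l : Fin j => ι (f l.succ) / ι (f 0)) = ι ∘ fun l => f l.succ / f 0 := by
    funext l
    exact (map_div₀ ι _ _).symm
  rwa [e1]

end

end Pool.Agent.T2h12.TN
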