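import Pool.Agent.T2h12.TN.F
import Pool.Agent.T2h12.TN.X

/-!
Commuting self-maps and tensor differentials: the rank theorem.
-/

set_option autoImplicit false
set_option linter.overlappingInstances false
set_option linter.unusedSectionVars false

open FF Module MvPolynomial Pool.Agent.W602.GT Pool.Agent.W603.LV
open Pool.Agent.Y172 Pool.Agent.Y191 Pool.Agent.R887 Pool.Agent.W619.PQ Pool.Agent.N110
open Pool.Agent.N110.SE
open Filter Topology

namespace Pool.Agent.T2h12.TN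

section

variable {K : Type} [Field K] [Algebra ℂ K] {N n : ℕ} {y : Fin (N + 1) → K}

/-- a common denominator -/
theorem fam_bound (hy : NormalModel y) {i : Fin (N + 1)} (hi : y i ≠ 0) {J : ℕ}
    (s : Fin J → K) : ∃ (B : ℕ) (h : K), h ≠ 0 ∧ ∀ l, Bnd ℂ (affS y i) B (h * s l) := by
  classical
  have hfr := hy.frac hi
  have h1 : ∀ l, ∃ a ∈ chart y i, ∃ b ∈ chart y i, b ≠ 0 ∧ s l = a / b := by
    intro l
    obtain ⟨a, b, hb, hab⟩ := IsFractionRing.div_surjective (A := chart y i) (s l)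
    refine ⟨a, a.2, b, b.2, ?_, hab.symm⟩
    intro h
    exact nonZeroDivisors.ne_zero hb (Subtype.ext h)
  choose a ha b hb hb0 hab using h1
  obtain ⟨μ, hμ⟩ := exists_isMin (k := ℂ) (S := insert (1 : K) (Set.range fun l => y l / y i))
    ((Set.finite_range _).insert _) ⟨1, Set.mem_insert _ _, one_ne_zero⟩
  have hset : insert (1 : K) (Set.range fun l => y l / y i) = affS y i := by
    rw [Set.insert_eq_of_mem]
    · rfl
    · exact one_affS hi
  have hnum : ∀ l, (∏ j, b j) * s l ∈ chart y i := by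
    intro l
    rw [← Finset.mul_prod_erase Finset.univ b (Finset.mem_univ l), hab]
    have e1 : b l * ∏ x ∈ Finset.univ.erase l, b x = (∏ x ∈ Finset.univ.erase l, b x) * b l :=
      mul_comm _ _
    rw [e1, mul_assoc, mul_div_cancel₀ _ (hb0 l)]
    exact (chart y i).mul_mem ((chart y i).prod_mem fun j _ => hb j) (ha l)
  have hD : ∀ l, ∃ D : ℕ, ∀ P : Place ℂ K, Ge P (D * μ P) ((∏ j, b j) * s l) := by
    intro l
    have h2 := hnum l
    unfold chart at h2
    rw [Algebra.adjoin_range_eq_range_aeval] at h2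
    obtain ⟨Q, hQ⟩ := h2
    obtain ⟨D, hD⟩ := ge_poly' hμ Q
    exact ⟨D, fun P => by rw [← hQ]; exact hD P⟩
  choose D hD using hD
  rw [← hset]
  refine ⟨∑ l, D l, ∏ j, b j, Finset.prod_ne_zero_iff.2 fun j _ => hb0 j, fun l =>
    bnd_of_ge hμ (Set.mem_insert _ _) fun P => ?_⟩
  have hμ0 := hμ.nonpos (Set.mem_insert _ _) P
  refine (hD l P).mono ?_
  have h2 : (D l : ℤ) ≤ ((∑ l, D l : ℕ) : ℤ) := by
    exact_mod_cast Finset.single_le_sum (f := D) (fun j _ => Nat.zero_le _) (Finset.mem_univ l)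
  exact mul_le_mul_of_nonpos_right h2 hμ0

/-- generators of a fixed space, with the first one equal to one -/
theorem exists_gens {U : Submodule ℂ K} (hU : U.FG) (h1 : (1 : K) ∈ U) :
    ∃ (J : ℕ) (v : Fin (J + 1) → K), v 0 = 1 ∧ US v = U := by
  obtain ⟨J, s, hs⟩ := Submodule.fg_iff_exists_fin_generating_family.1 hU
  refine ⟨J, Fin.cons 1 s, Fin.cons_zero _ _, ?_⟩
  unfold US
  rw [Fin.range_cons, ← hs, Submodule.span_insert_eq_span]
  rw [hs]
  exact h1

theorem ubd_fixed (hy : NormalModel y) {i : Fin (N + 1)} (hi : y i ≠ 0) {J : ℕ}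
    {v : Fin (J + 1) → K}
    (hψ : ∀ ψ : K →ₐ[ℂ] K, ∃ g : K, g ≠ 0 ∧ ∀ u ∈ US v, g * ψ u ∈ US v) :
    ∃ B, UBd y i v B := by
  obtain ⟨B, h, hh, hB⟩ := fam_bound hy hi v
  obtain ⟨μ, hμ⟩ := exists_isMin (k := ℂ) (fin_affS (y := y) i) ⟨1, one_affS hi, one_ne_zero⟩
  have h1 : ∀ u ∈ US v, ∀ P : Place ℂ K, Ge P (B * μ P) (h * u) := by
    intro u hu P
    have h2 := ge_pow_map hμ (u := v) (ψ := AlgHom.id ℂ K) (B := B) (h := h) hB P 1 u
      (by
        rw [pow_one]
        exact ⟨u, hu, rfl⟩)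
    rwa [pow_one, one_mul] at h2
  refine ⟨B, fun ψ => ?_⟩
  obtain ⟨g, hg, hgu⟩ := hψ ψ
  refine ⟨h * g, mul_ne_zero hh hg, fun l => ?_⟩
  have h2 := h1 _ (hgu (v l) (Submodule.subset_span ⟨l, rfl⟩))
  rw [← mul_assoc] at h2
  exact bnd_of_ge hμ (one_affS hi) h2

variable {i : Fin (N + 1)} {j : ℕ} {B : ℕ} {μ : Place ℂ K → ℤ}

/-- the classes of a larger space are larger -/
theorem mx_mono_U (hy : NormalModel y) (hn : Algebra.trdeg ℂ K = n) (hi : y i ≠ 0)
    {j' : ℕ} {u : Fin (j + 1) → K} {u' : Fin (j' + 1) → K} (hu : u 0 = 1) (hB : UBd y i u B)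
    {B' : ℕ} (hu' : u' 0 = 1) (hB' : UBd y i u' B') (hμ : IsMin (affS y i) μ)
    (hle : US u ≤ US u') (b q : ℕ) :
    LeA hy hn hi 1 (mx hy hi hu hB hμ 1 b q) (mx hy hi hu' hB' hμ 1 b q) :=
  LeA.of_mul one_ne_zero fun v hv => by
    rw [one_mul]
    exact mul_le_mul' (pow_le_pow_left' (Submodule.map_mono hle) q) le_rfl hv

/-- the pull back of the classes, for a fixed space -/
theorem mx_fixed (hy : NormalModel y) (hn : Algebra.trdeg ℂ K = n) (hi : y i ≠ 0)
    {u : Fin (j + 1) → K} (hu : u 0 = 1) (hB : UBd y i u B) (hμ : IsMin (affS y i) μ)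
    {φ : K →ₐ[ℂ] K} {g : K} (hg : g ≠ 0) (hgu : ∀ v ∈ US u, g * φ v ∈ US u) (b : ℕ) :
    ∃ b', ∀ q, LeA hy hn hi 1 (eCls hy hn hi φ (mx hy hi hu hB hμ 1 b q))
      (mx hy hi hu hB hμ 1 b' q) := by
  obtain ⟨β, h, hh, hβ⟩ := emap_dom hy hi φ
  have hμ0 := hμ.nonpos (one_affS hi)
  have hLB : ∀ v ∈ LB μ (b + 1), h ^ (b + 1) * φ v ∈ LB μ ((b + 1) * β + 1) := by
    intro v hv P
    by_cases hv0 : v = 0
    · left
      rw [hv0, map_zero, mul_zero]
    right
    have hBv : Bnd ℂ (affS y i) (b + 1) v := bnd_of_ge hμ (one_affS hi) hv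
    obtain ⟨_, ⟨s, hs, rfl⟩, hs0, h1⟩ := bnd_emap hy.ess hn φ hBv P
    have h2 := hμ.ge (hβ s (Submodule.subset_span hs)) P
    have h3 := h2.resolve_left (mul_ne_zero hh hs0)
    rw [P.ord_mul hh hs0] at h3
    have hφv : φ v ≠ 0 := by rwa [Ne, map_eq_zero]
    rw [P.ord_mul (pow_ne_zero _ hh) hφv, P.ord_pow]
    have h4 := mul_le_mul_of_nonneg_left h3 (show (0 : ℤ) ≤ ((b + 1 : ℕ) : ℤ) from
      Int.natCast_nonneg _)
    have h5 := hμ0 P
    push_cast at h1 h4 ⊢
    nlinarith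
  have hid : (US u).map (1 : K →ₐ[ℂ] K).toLinearMap = US u := Submodule.map_id _
  have hpow : ∀ q, ∀ v ∈ (US u) ^ q, g ^ q * φ v ∈ (US u) ^ q := by
    intro q
    induction q with
    | zero =>
      intro v hv
      rw [pow_zero, Submodule.mem_one] at hv
      obtain ⟨c, rfl⟩ := hv
      rw [φ.commutes, pow_zero, pow_zero, Submodule.mem_one]
      exact ⟨c, (one_mul _).symm⟩
    | succ q ih =>
      intro v hv
      rw [pow_succ] at hv ⊢
      induction hv using Submodule.mul_induction_on' with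
      | mem_mul_mem a ha c hc =>
        have e1 : g ^ (q + 1) * φ (a * c) = (g ^ q * φ a) * (g * φ c) := by
          rw [map_mul]
          ring
        rw [← pow_succ, e1]
        exact Submodule.mul_mem_mul (ih a ha) (hgu c hc)
      | add a _ c _ h2 h3 =>
        rw [map_add, mul_add]
        exact Submodule.add_mem _ h2 h3
  refine ⟨(b + 1) * β, fun q => LeA.of_mul (g := g ^ q * h ^ (b + 1))
    (mul_ne_zero (pow_ne_zero _ hg) (pow_ne_zero _ hh)) ?_⟩
  rintro _ ⟨v, hv, rfl⟩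
  change g ^ q * h ^ (b + 1) * φ v ∈ ((US u).map (1 : K →ₐ[ℂ] K).toLinearMap) ^ q *
    LB μ ((b + 1) * β + 1)
  change v ∈ ((US u).map (1 : K →ₐ[ℂ] K).toLinearMap) ^ q * LB μ (b + 1) at hv
  rw [hid] at hv ⊢
  induction hv using Submodule.mul_induction_on' with
  | mem_mul_mem a ha c hc =>
    have e1 : g ^ q * h ^ (b + 1) * φ (a * c) = (g ^ q * φ a) * (h ^ (b + 1) * φ c) := by
      rw [map_mul]
      ring
    rw [e1]
    exact Submodule.mul_mem_mul (hpow q a ha) (hLB c hc)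
  | add a _ c _ h2 h3 =>
    rw [map_add, mul_add]
    exact Submodule.add_mem _ h2 h3

/-- **The rank theorem for rank one sheaves of tensor differentials.** -/
theorem rank_tensor (hy : NormalModel y) (hn : Algebra.trdeg ℂ K = n) (hn0 : 0 < n)
    (hT : TensorSheaf ℂ K n j) {r s : ℕ}
    {φ : (Fin r → ℕ) → (K →ₐ[ℂ] K)} (hφ : ∀ u v, φ (u + v) = φ u * φ v)
    (hrank : CorrRankGe φ y n s) : s + j ≤ n := by
  classical
  obtain ⟨i, hi⟩ := hy.ne
  obtain ⟨U, hU, h1U, ⟨u, hui, huU⟩, hψ⟩ := fixed_space hy hn hT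
  have hj : j ≤ n := by
    have h1 := hui.cardinalMk_le_trdeg
    rw [Cardinal.mk_fin, hn] at h1
    exact_mod_cast h1
  obtain ⟨J, v, hv0, hvU⟩ := exists_gens hU h1U
  subst hvU
  obtain ⟨B, hB⟩ := ubd_fixed hy hi hψ
  obtain ⟨u', hu'⟩ : ∃ u' : Fin (j + 1) → K, u' = Fin.cons 1 u := ⟨_, rfl⟩
  have hu'0 : u' 0 = 1 := by rw [hu']; rfl
  have hu's : ∀ l : Fin j, u' l.succ = u l := fun l => by rw [hu']; rfl
  have hle : US u' ≤ US v := by
    refine Submodule.span_le.2 ?_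
    rintro _ ⟨l, rfl⟩
    refine Fin.cases ?_ (fun l => ?_) l
    · rw [hu'0]; exact h1U
    · rw [hu's]; exact huU l
  have hind : AlgebraicIndependent ℂ (fun l : Fin j => u' l.succ) := by
    simp only [hu's]
    exact hui
  have hB' : ∃ B', UBd y i u' B' := by
    obtain ⟨μ, hμ⟩ := exists_isMin (k := ℂ) (fin_affS (y := y) i) ⟨1, one_affS hi, one_ne_zero⟩
    refine ⟨B, fun ψ => ?_⟩
    obtain ⟨h, hh, hhB⟩ := hB ψ
    refine ⟨h, hh, fun l => ?_⟩
    have h2 : ∀ P, Ge P (B * μ P) (h * ψ (u' l)) := fun P => by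
      have h3 := ge_pow_map hμ (u := v) (ψ := ψ) (B := B) (h := h) hhB P 1 (ψ (u' l))
        (by
          rw [pow_one]
          exact ⟨u' l, hle (Submodule.subset_span ⟨l, rfl⟩), rfl⟩)
      rwa [pow_one, one_mul] at h3
    exact bnd_of_ge hμ (one_affS hi) h2
  obtain ⟨B', hB'⟩ := hB'
  obtain ⟨μ, hμ⟩ := exists_isMin (k := ℂ) (fin_affS (y := y) i) ⟨1, one_affS hi, one_ne_zero⟩
  have hbase : ∀ᶠ q : ℕ in atTop, 1 * (q : ℝ) ^ j ≤
      I (Multiset.replicate j (mx hy hi hv0 hB hμ 1 0 q) +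
        Multiset.replicate (n - j) (hcls hy hi)) := by
    filter_upwards [eventually_ge_atTop 1] with q hq
    rw [one_mul]
    have h1 := base_mx hy hn hi hu'0 hB' hμ hind hj hq
    have h2 := rep2 zero_le_one zero_le_one
      (mx_mono_U hy hn hi hu'0 hB' hv0 hB hμ hle 0 q).le (LeA.refl hy hn hi (hcls hy hi)).le hj
    beta_reduce at h2
    rw [one_pow, one_pow, one_mul, one_mul] at h2
    refine le_trans ?_ h2
    exact_mod_cast h1
  have hsh : ∀ {p : ℕ → Prop}, (∀ᶠ q in atTop, p q) → ∀ᶠ q in atTop, p (q + 1) :=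
    fun h => (tendsto_add_atTop_nat 1).eventually h
  obtain ⟨W, hW1, hW⟩ := space_of_esys' hy hn hn0 hi
    (esys_gen hy hn hn0 hi (𝒜 := ℕ) (m := fun q => q + 1)
      (M := fun b q => mx hy hi hv0 hB hμ 1 b (q + 1)) (c := B + 1)
      ⟨by positivity, fun q => by omega, fun q => by omega, fun b => by
        filter_upwards [eventually_ge_atTop b] with q hq
        refine LeA.mono' (mx_le hy hn hi hv0 hB hμ 1 b (q + 1)) ?_
        have : (q + 1) * B + (b + 1) ≤ (B + 1) * (q + 1) := by nlinarith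
        exact_mod_cast this⟩ hφ (fun w b => by
          obtain ⟨g, hg, hgu⟩ := hψ (φ w)
          obtain ⟨b', hb'⟩ := mx_fixed hy hn hi hv0 hB hμ hg hgu b
          exact ⟨b', fun q => hb' (q + 1)⟩) (fun b b' hbb q => LeA.of_mul one_ne_zero
            fun v hv => by
              rw [one_mul]
              have h3 : LB μ (b + 1) ≤ LB μ (b' + 1) := by
                intro x hx P
                refine (hx P).mono ?_
                have h2 := hμ.nonpos (one_affS hi) P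
                refine mul_le_mul_of_nonpos_right ?_ h2
                exact_mod_cast Nat.succ_le_succ hbb
              exact mul_le_mul' le_rfl h3 hv) hj (ε := 1 / 2) (by norm_num)
      fun w => ⟨0, hsh (eps_mx hy hn hi hv0 hB hμ hj one_pos hbase (φ w) 1 0)⟩)
  have := hrank W hW
  omega

end

end Pool.Agent.T2h12.TN
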